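import Pool.Agent.Lib_helper46.LSP2.MQ3

/-!
# LSP2, module MQ (`m2_quad`), part 4: `m2_quad`
-/

set_option autoImplicit false

namespace Pool.Agent.LSP

open Pool.Agent.LEV Pool.Agent.LVB Pool.Agent.KSL
open Pool.Agent.FG61 (mu phi cc ff AA Lam)
open Complex MeasureTheory Filter Topology

/-- the sign of the diagonal -/
theorem mq_diag {Crr Cll lT lE lN lq lX κ : ℝ} (hCr : 1 / Real.pi ≤ Crr) (hT : 0 ≤ lT)
    (hE : (1 / 2 + 3 * κ) * lX - Real.log 2 ≤ lE) (hN : lN ≤ 3 * Real.log 2 + lX) (hq : lq ≤ lE)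
    (hX : 5 * Real.log 2 + Real.pi * |Cll| ≤ 6 * κ * lX) :
    Crr * (2 * -(lT + 2 * lE) + (lN + 2 * lq)) + Cll ≤ 0 := by
  have hpi := Real.pi_pos
  have h1 : 2 * -(lT + 2 * lE) + (lN + 2 * lq) ≤ -(Real.pi * |Cll|) := by nlinarith
  have hCr0 : 0 < Crr := lt_of_lt_of_le (by positivity) hCr
  have h2 : Crr * (2 * -(lT + 2 * lE) + (lN + 2 * lq)) ≤ Crr * -(Real.pi * |Cll|) :=
    mul_le_mul_of_nonneg_left h1 hCr0.le
  have h3 : 1 / Real.pi * (Real.pi * |Cll|) ≤ Crr * (Real.pi * |Cll|) :=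
    mul_le_mul_of_nonneg_right hCr (by positivity)
  have h4 : 1 / Real.pi * (Real.pi * |Cll|) = |Cll| := by field_simp
  have h5 := le_abs_self Cll
  have h6 : Crr * -(Real.pi * |Cll|) = -(Crr * (Real.pi * |Cll|)) := by ring
  linarith

theorem mq_sh {T : ℝ} {ρ : ℝ → ℝ} (hρ : KerL T ρ) {g : ℝ → ℝ} {G : ℝ} (hg : Kg g G)
    (hd : ∀ u, 0 < u → ‖kh ρ u‖ ^ 2 + ‖kh ρ (-u)‖ ^ 2 ≤ g u)
    (hI : ∫ u in Set.Ioi (0 : ℝ), g u ≤ 1) {κ : ℝ} (h0 : 0 < κ) :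
    ∃ X₀ : ℕ, ∀ X : ℕ, X₀ ≤ X → ∀ N : ℕ, X ≤ 4 * N → N ≤ 8 * X → ∃ h : ℕ → ℝ,
      (∀ n, 0 ≤ h n ∧ h n ≤ 1 ∧ h n * n ≤ (X : ℝ) ^ (1 + 7 * κ)) ∧
      ∀ x : ℕ → ℝ, Summable (fun n : ℕ => WW (E2 κ X) (wX (E2 κ X) x) n ^ 2 * h n / n) →
        sh ρ T (E2 κ X) x N ≤
          2 * Real.pi * ∑' n : ℕ, WW (E2 κ X) (wX (E2 κ X) x) n ^ 2 * h n / n := by
  have hT := hρ.T1
  have hpi := Real.pi_pos
  obtain ⟨C, hC, hint⟩ := INT_bound hρ hg hd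
  obtain ⟨X1, hX1⟩ := la13_rpow κ h0 (C * (2 * T))
  obtain ⟨X2, hX2⟩ := la13_rpow (6 * κ) (by positivity)
    (Real.exp (5 * Real.log 2 + Real.pi * |Cl ρ|))
  obtain ⟨X3, hX3⟩ := la13_rpow (1 / 2 : ℝ) (by norm_num) 2
  refine ⟨max (max X1 X2) (max X3 2), fun X hX N hXN hNX => ?_⟩
  have g1 := hX1 X (by omega)
  have g2 := hX2 X (by omega)
  have g3 := hX3 X (by omega)
  have hXr : (2 : ℝ) ≤ X := by exact_mod_cast (by omega : 2 ≤ X)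
  have hX0 : (0 : ℝ) < X := by linarith
  have hN1 : 1 ≤ N := by omega
  have hN0 : (0 : ℝ) < N := by exact_mod_cast hN1
  set E := E2 κ X with hE
  have hEle : (E : ℝ) ≤ (X : ℝ) ^ (1 / 2 + 3 * κ) := by
    rw [hE]; unfold E2
    exact Nat.floor_le (by positivity)
  have hX12 : (2 : ℝ) ≤ (X : ℝ) ^ (1 / 2 + 3 * κ) := by
    refine g3.trans ?_
    exact Real.rpow_le_rpow_of_exponent_le (by linarith) (by linarith)
  have hE1 : 1 ≤ E := by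
    rw [hE]; unfold E2
    apply Nat.le_floor
    push_cast
    linarith
  have hE0 : (0 : ℝ) < E := by exact_mod_cast hE1
  have hEge : (X : ℝ) ^ (1 / 2 + 3 * κ) ≤ 2 * E := by
    have h2 := Nat.lt_floor_add_one ((X : ℝ) ^ (1 / 2 + 3 * κ))
    have h3 : ((⌊(X : ℝ) ^ (1 / 2 + 3 * κ)⌋₊ : ℕ) : ℝ) = E := by rw [hE]; rfl
    rw [h3] at h2
    have h4 : (1 : ℝ) ≤ E := by exact_mod_cast hE1
    linarith
  have hy0 : 0 < yo T E := by unfold yo; positivity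
  obtain ⟨h, hh, hW⟩ := hint (yo T E) hy0
  refine ⟨h, fun n => ?_, fun x hs => ?_⟩
  · obtain ⟨k1, k2, k3⟩ := hh n
    refine ⟨k1, k2.trans hI, k3.trans ?_⟩
    have e1 : C / yo T E = C * (2 * T) * (E : ℝ) ^ 2 := by
      unfold yo
      field_simp
    rw [e1]
    calc C * (2 * T) * (E : ℝ) ^ 2 ≤ (X : ℝ) ^ κ * ((X : ℝ) ^ (1 / 2 + 3 * κ)) ^ 2 := by gcongr
      _ = (X : ℝ) ^ (1 + 7 * κ) := by
          rw [← Real.rpow_natCast ((X : ℝ) ^ (1 / 2 + 3 * κ)) 2, ← Real.rpow_mul hX0.le,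
            ← Real.rpow_add hX0]
          congr 1
          push_cast
          ring
  · unfold sh
    have h1 := hW (WW E (wX E x)) hs
    have hlog : 5 * Real.log 2 + Real.pi * |Cl ρ| ≤ 6 * κ * Real.log X := by
      have h2 := Real.log_le_log (Real.exp_pos _) g2
      rwa [Real.log_exp, Real.log_rpow hX0] at h2
    have h2 : ∑ q ∈ Finset.Icc 1 E, phi q * wX E x q ^ 2 *
        (Cr ρ * (2 * Real.log (yo T E) + Real.log ((N : ℝ) * (q : ℝ) ^ 2)) + Cl ρ) ≤ 0 := by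
      refine Finset.sum_nonpos fun q hq => ?_
      rw [Finset.mem_Icc] at hq
      have hq0 : (0 : ℝ) < q := by exact_mod_cast hq.1
      refine mul_nonpos_of_nonneg_of_nonpos (mul_nonneg (GDL_phi_nonneg q) (sq_nonneg _)) ?_
      have e1 : Real.log (yo T E) = -(Real.log (2 * T) + 2 * Real.log E) := by
        unfold yo
        rw [one_div, Real.log_inv, Real.log_mul (by positivity) (by positivity), Real.log_pow]
        push_cast
        ring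
      have e2 : Real.log ((N : ℝ) * (q : ℝ) ^ 2) = Real.log N + 2 * Real.log q := by
        rw [Real.log_mul hN0.ne' (by positivity), Real.log_pow]
        push_cast
        ring
      rw [e1, e2]
      refine mq_diag (κ := κ) (lX := Real.log X) (cr_lower hρ.toKer)
        (Real.log_nonneg (by linarith)) ?_ ?_ ?_ hlog
      · have h3 := Real.log_le_log (by positivity) hEge
        rw [Real.log_rpow hX0, Real.log_mul (by norm_num) hE0.ne'] at h3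
        linarith
      · have h3 : (N : ℝ) ≤ 8 * X := by exact_mod_cast hNX
        have h4 := Real.log_le_log hN0 h3
        rw [Real.log_mul (by norm_num) hX0.ne', show (8 : ℝ) = 2 ^ 3 by norm_num,
          Real.log_pow] at h4
        push_cast at h4
        exact h4
      · exact Real.log_le_log hq0 (by exact_mod_cast hq.2)
    have h3 : 2 * Real.pi * (∫ y in Set.Ioi (yo T E), ∑' n : ℕ,
      (‖kh ρ ((n + 1) * y)‖ ^ 2 + ‖kh ρ (-((n + 1) * y))‖ ^ 2) * WW E (wX E x) (n + 1) ^ 2) ≤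
        2 * Real.pi * ∑' n : ℕ, WW E (wX E x) n ^ 2 * h n / n :=
      mul_le_mul_of_nonneg_left h1 (by positivity)
    have h4 : Real.pi * ∑ q ∈ Finset.Icc 1 E, phi q * wX E x q ^ 2 *
        (Cr ρ * (2 * Real.log (yo T E) + Real.log ((N : ℝ) * (q : ℝ) ^ 2)) + Cl ρ) ≤ 0 :=
      mul_nonpos_of_nonneg_of_nonpos hpi.le h2
    linarith

open Classical in
/-- the sums of the rough factor -/
theorem mq_rough : ∃ C : ℝ, 1 ≤ C ∧ ∀ δ : ℝ, -(1 / 4) < δ → δ ≤ 1 / 8 → ∃ N₀ : ℕ, ∀ X : ℕ, N₀ ≤ X →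
    ∀ κ : ℝ, 0 < κ → κ ≤ 1 / 100 →
    (∀ Y : ℕ, ∑ r ∈ (Finset.Icc 1 Y).filter (fun r => rough (zz X) r),
        Wr (zz X) (MM δ X) 2 r ^ 2 * mqG ((X : ℝ) ^ (1 + 7 * κ)) r ≤ C) ∧
    (∀ p : ℕ, p.Prime → zz X < p → p ≤ MM δ X → ∀ Y : ℕ,
      ∑ r ∈ (Finset.Icc 1 Y).filter (fun r => rough (zz X) r),
        Wr (zz X) (MM δ X) 2 (p * r) ^ 2 * mqG ((X : ℝ) ^ (1 + 7 * κ)) r ≤ C) ∧
    (∀ r, |Wr (zz X) (MM δ X) 2 r| ≤ 2 * MM δ X) ∧ 2 ≤ MM δ X := by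
  classical
  obtain ⟨Cm, hCm, hmean⟩ := mq_mean
  refine ⟨15 * Cm, by linarith, fun δ h0 h1 => ?_⟩
  obtain ⟨N₁, hN₁⟩ := hmean δ h0 (by linarith)
  obtain ⟨N₂, hN₂⟩ := sizesM h0 (by linarith) (ε := 1) one_pos
  obtain ⟨N₃, hN₃⟩ := be_smallM h0 (by linarith) (ε := 1) one_pos
  obtain ⟨N₄, hN₄⟩ := wrq_len (δ := δ) (by linarith) 3
  refine ⟨max (max N₁ N₂) (max N₃ N₄), fun X hX κ hκ hκ' => ?_⟩
  obtain ⟨⟨m1, m2⟩, m3⟩ := hN₁ X (by omega)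
  obtain ⟨s1, s2, s3, s4, s5, s6, s7, s8, s9⟩ := hN₂ X (by omega)
  obtain ⟨b1, b2, b3⟩ := hN₃ X (by omega)
  obtain ⟨l1, l2⟩ := hN₄ X (by omega)
  set M := MM δ X with hM
  set L := Real.log M with hL
  set z := zz X with hz
  have hL0 : 0 < L := by linarith
  have hX1 : (1 : ℝ) ≤ X := by exact_mod_cast (by omega : 1 ≤ X)
  have hX0 : (0 : ℝ) < X := by linarith
  set K := (X : ℝ) ^ (1 + 7 * κ) with hK
  have hK1 : 1 ≤ K := Real.one_le_rpow hX1 (by positivity)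
  have hlX : 0 ≤ Real.log X := Real.log_nonneg hX1
  have hlK : Real.log K + 3 ≤ 13 * L := by
    rw [hK, Real.log_rpow hX0]
    have h3 := (abs_le.1 s7).1
    -- L ≥ (3/8) log X - 1
    have h4 : (3 / 8) * Real.log X ≤ (1 / 2 - δ) * Real.log X :=
      mul_le_mul_of_nonneg_right (by linarith) hlX
    have h5 : (1 + 7 * κ) * Real.log X ≤ (3 / 2) * Real.log X :=
      mul_le_mul_of_nonneg_right (by linarith) hlX
    linarith
  have hc : Cm / L * (Real.log K + 3) ≤ 13 * Cm := by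
    calc Cm / L * (Real.log K + 3) ≤ Cm / L * (13 * L) :=
          mul_le_mul_of_nonneg_left hlK (by positivity)
      _ = 13 * Cm := by field_simp
  have key : ∀ F : ℕ → ℝ, F 1 ≤ Cm → (∀ r, 0 ≤ F r) →
      (∀ Y : ℕ, ∑ r ∈ (Finset.Icc 2 Y).filter (fun r => rough z r), F r ≤ Cm / L * Y) →
      ∀ Y : ℕ, ∑ r ∈ (Finset.Icc 1 Y).filter (fun r => rough z r), F r * mqG K r ≤ 15 * Cm := by
    intro F hF1 hF0 hF Y
    have h2 := mq_abel (f := fun r => if rough z r then F r else 0) (c₁ := Cm) (c₂ := Cm / L)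
      (K := K) (by
        show (if rough z 1 then F 1 else 0) ≤ Cm
        split_ifs
        · exact hF1
        · linarith) (by linarith) (by positivity) (fun Y => by
        rw [← Finset.sum_filter]
        exact hF Y) hK1 Y
    rw [Finset.sum_filter]
    refine le_trans (le_of_eq ?_) (h2.trans (by linarith))
    refine Finset.sum_congr rfl fun r _ => ?_
    split_ifs <;> simp
  refine ⟨key (fun r => Wr z M 2 r ^ 2) (by simp only [m1]; linarith) (fun r => sq_nonneg _) m2,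
    fun p hp hzp hpM => ?_, fun r => mq_Wr_triv l1 (by simpa using b2) r, l1⟩
  obtain ⟨m4, m5⟩ := m3 p hp hzp hpM
  exact key (fun r => Wr z M 2 (p * r) ^ 2) m4 (fun r => sq_nonneg _) m5

/-- the sizes of the parameters -/
theorem mq_sizes {κ v κ₁ : ℝ} (h0 : 0 < κ) (h1 : 1000 * κ ≤ v) (h2 : v ≤ 1 / 80) (h3 : 0 < κ₁)
    {ε₂ : ℝ} (h4 : 0 < ε₂) (h5 : ε₂ ≤ κ / 4) : ∃ X₀ : ℕ, ∀ X : ℕ, X₀ ≤ X → 4 ≤ X ∧
      QA (MM κ₁ X) 2 (KA ε₂ X) ≤ E2 κ X ∧ QA (MM (v - κ) X) 2 (KA ε₂ X) ≤ E2 κ X ∧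
      ∀ p ∈ PB κ v X, p.Prime ∧ zz X < p ∧ p ≤ MM (v - κ) X ∧
        p * QA (MM (v - κ) X) 2 (KA ε₂ X) ≤ E2 κ X ∧ 2 * p ≤ X ∧
        (X : ℝ) ^ (v / 2) ≤ p ∧ (p : ℝ) ≤ 2 * (X : ℝ) ^ (v + κ) := by
  obtain ⟨N₁, hN₁⟩ := sizesM (δ := v - κ) (by linarith) (by linarith) (ε := v / 4) (by linarith)
  obtain ⟨X1, hX1⟩ := la13_rpow ε₂ h4 2
  obtain ⟨X2, hX2⟩ := la13_rpow (κ / 2) (by linarith) 2
  obtain ⟨X3, hX3⟩ := la13_rpow (v / 4) (by linarith) 2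
  obtain ⟨X4, hX4⟩ := la13_rpow (1 / 10 : ℝ) (by norm_num) 4
  refine ⟨max (max N₁ X1) (max (max X2 X3) (max X4 4)), fun X hX => ?_⟩
  obtain ⟨s1, s2, s3, s4, s5, s6, s7, s8, s9⟩ := hN₁ X (by omega)
  have g1 := hX1 X (by omega)
  have g2 := hX2 X (by omega)
  have g3 := hX3 X (by omega)
  have g4 := hX4 X (by omega)
  have hXr : (4 : ℝ) ≤ X := by exact_mod_cast (by omega : 4 ≤ X)
  have hX0 : (0 : ℝ) < X := by linarith
  have hX1' : (1 : ℝ) ≤ X := by linarith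
  have hmono : ∀ {s t : ℝ}, s ≤ t → (X : ℝ) ^ s ≤ (X : ℝ) ^ t := fun h =>
    Real.rpow_le_rpow_of_exponent_le hX1' h
  have hQ1 : (QA (MM κ₁ X) 2 (KA ε₂ X) : ℝ) ≤ (X : ℝ) ^ (1 / 2 + 3 * κ) :=
    (mq_QA hX1' g1).trans (hmono (by linarith))
  have hQ2 : (QA (MM (v - κ) X) 2 (KA ε₂ X) : ℝ) ≤ (X : ℝ) ^ (1 / 2 - (v - κ) + 2 * ε₂) :=
    mq_QA hX1' g1
  refine ⟨by omega, ?_, ?_, fun p hp => ?_⟩
  · unfold E2
    exact Nat.le_floor hQ1
  · unfold E2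
    exact Nat.le_floor (hQ2.trans (hmono (by linarith)))
  unfold PB at hp
  rw [Finset.mem_filter, Finset.mem_Icc] at hp
  obtain ⟨⟨hp1, hp2⟩, hp3, hp4⟩ := hp
  have hple : (p : ℝ) ≤ 2 * (X : ℝ) ^ (v + κ) := (Nat.le_floor_iff (by positivity)).mp hp2
  have hpge : (X : ℝ) ^ (v / 2) ≤ p := by
    refine le_trans ?_ hp4
    rw [le_div_iff₀ (by norm_num)]
    calc (X : ℝ) ^ (v / 2) * 2 ≤ (X : ℝ) ^ (v / 2) * (X : ℝ) ^ (v / 4) := by gcongr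
      _ = (X : ℝ) ^ (v / 2 + v / 4) := by rw [← Real.rpow_add hX0]
      _ ≤ (X : ℝ) ^ v := hmono (by linarith)
  refine ⟨hp3, ?_, ?_, ?_, ?_, hpge, hple⟩
  · have h6 : (zz X : ℝ) < p := by
      calc (zz X : ℝ) ≤ (X : ℝ) ^ (v / 4) := s4
        _ < (X : ℝ) ^ (v / 2) := Real.rpow_lt_rpow_of_exponent_lt (by linarith) (by linarith)
        _ ≤ p := hpge
    exact_mod_cast h6
  · unfold MM
    apply Nat.le_floor
    refine hple.trans ?_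
    calc 2 * (X : ℝ) ^ (v + κ) ≤ (X : ℝ) ^ (1 / 10 : ℝ) * (X : ℝ) ^ (v + κ) := by
          gcongr
          linarith
      _ = (X : ℝ) ^ (1 / 10 + (v + κ)) := by rw [← Real.rpow_add hX0]
      _ ≤ (X : ℝ) ^ (1 / 2 - (v - κ)) := hmono (by linarith)
  · unfold E2
    apply Nat.le_floor
    push_cast
    calc (p : ℝ) * (QA (MM (v - κ) X) 2 (KA ε₂ X) : ℝ) ≤
        (2 * (X : ℝ) ^ (v + κ)) * (X : ℝ) ^ (1 / 2 - (v - κ) + 2 * ε₂) := by gcongr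
      _ ≤ ((X : ℝ) ^ (κ / 2) * (X : ℝ) ^ (v + κ)) * (X : ℝ) ^ (1 / 2 - (v - κ) + 2 * ε₂) := by
          gcongr
      _ = (X : ℝ) ^ (κ / 2 + (v + κ) + (1 / 2 - (v - κ) + 2 * ε₂)) := by
          rw [← Real.rpow_add hX0, ← Real.rpow_add hX0]
      _ ≤ (X : ℝ) ^ (1 / 2 + 3 * κ) := hmono (by linarith)
  · have h6 : (2 : ℝ) * p ≤ X := by
      calc (2 : ℝ) * p ≤ 2 * (2 * (X : ℝ) ^ (v + κ)) := by gcongr
        _ = 4 * (X : ℝ) ^ (v + κ) := by ring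
        _ ≤ (X : ℝ) ^ (1 / 10 : ℝ) * (X : ℝ) ^ (v + κ) := by gcongr
        _ = (X : ℝ) ^ (1 / 10 + (v + κ)) := by rw [← Real.rpow_add hX0]
        _ ≤ (X : ℝ) ^ (1 : ℝ) := hmono (by linarith)
        _ = X := Real.rpow_one _
    exact_mod_cast h6

/-- upper bound for the quadratic form -/
theorem m2_quad_pr (C₀ : ℝ) {v : ℝ} (hv : 0 < v) (hv' : v ≤ 1 / 80) : ∃ C : ℝ, 1 ≤ C ∧
    ∀ {T : ℝ} {ρ : ℝ → ℝ}, KerL T ρ → ∀ {g : ℝ → ℝ}
    {G : ℝ}, Kg g G → (∀ u, 0 < u → ‖kh ρ u‖ ^ 2 + ‖kh ρ (-u)‖ ^ 2 ≤ g u) →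
    ∫ u in Set.Ioi (0 : ℝ), g u ≤ 1 → ∀ κ κ₁ : ℝ, 0 < κ → 1000 * κ ≤ v →
    0 < κ₁ → κ₁ ≤ κ → ∃ ε₁ : ℝ, 0 < ε₁ ∧ ∀ ε₂ : ℝ, 0 < ε₂ → ε₂ ≤ ε₁ → ∃ X₀ : ℕ, ∀ X : ℕ, X₀ ≤ X →
    ∀ a : ℕ → ℝ, Sht (zz X) (KA ε₂ X) a → cn (zz X) (KA ε₂ X) a ≤ C₀ →
    ∀ N : ℕ, X ≤ 4 * N → N ≤ 8 * X →
      sh ρ T (E2 κ X) (y0 κ₁ X a) N ≤ C ∧
      ∀ θ : ℕ → ℝ, (∀ p ∈ PB κ v X, |θ p| ≤ 1) →
        sh ρ T (E2 κ X) (YT (PB κ v X) θ (y1 κ v X a)) N ≤
          C * ∑ p ∈ PB κ v X, θ p ^ 2 / p + (X : ℝ) ^ (-(20 * κ)) := by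
  have hpi := Real.pi_pos
  obtain ⟨C₃, hC₃, hrough⟩ := mq_rough
  set W : ℝ := 20 / v with hWd
  have hW0 : 0 < W := by positivity
  refine ⟨1 + 2 * Real.pi * (C₃ * |C₀|) + 2 * Real.pi * (6 * W * C₃ * |C₀|), by
    have h1 : 0 ≤ 2 * Real.pi * (C₃ * |C₀|) := by positivity
    have h2 : 0 ≤ 2 * Real.pi * (6 * W * C₃ * |C₀|) := by positivity
    linarith, ?_⟩
  intro T ρ hρ g G hg hd hI κ κ₁ h0 h1 h3 h4
  refine ⟨κ / 4, by linarith, fun ε₂ h5 h6 => ?_⟩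
  obtain ⟨N₁, hN₁⟩ := hrough κ₁ (by linarith) (by linarith)
  obtain ⟨N₂, hN₂⟩ := hrough (v - κ) (by linarith) (by linarith)
  obtain ⟨N₃, hN₃⟩ := mq_sh hρ hg hd hI h0
  obtain ⟨N₄, hN₄⟩ := mq_sizes h0 h1 hv' h3 h5 h6
  obtain ⟨N₅, hN₅⟩ := la13_rpow (7 : ℝ) (by norm_num) (64 * Real.pi * |C₀|)
  refine ⟨max (max N₁ N₂) (max N₃ (max N₄ N₅)), fun X hX a ha hcn N hXN hNX => ?_⟩
  obtain ⟨r1, r2, r3, r4⟩ := hN₁ X (by omega) κ h0 (by linarith)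
  obtain ⟨t1, t2, t3, t4⟩ := hN₂ X (by omega) κ h0 (by linarith)
  obtain ⟨h, hh, hsh⟩ := hN₃ X (by omega) N hXN hNX
  obtain ⟨z1, z2, z3, z4⟩ := hN₄ X (by omega)
  have g5 := hN₅ X (by omega)
  have hXr : (4 : ℝ) ≤ X := by exact_mod_cast z1
  have hX0 : (0 : ℝ) < X := by linarith
  have hcn0 := BGB_cn_nonneg (zz X) (KA ε₂ X) a
  have hcn1 : cn (zz X) (KA ε₂ X) a ≤ |C₀| := hcn.trans (le_abs_self _)
  set K := (X : ℝ) ^ (1 + 7 * κ) with hK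
  have hK0 : 0 < K := by positivity
  constructor
  · have e1 := mq_HG (z := zz X) (A := KA ε₂ X) (a := a) ha.sup
      (U := fun n => Wr (zz X) (MM κ₁ X) 2 n)
      (V := fun n => WW (E2 κ X) (wX (E2 κ X) (y0 κ₁ X a)) n)
      (fun n hn => mq_fac ha z2 hn) (fun n hn => wr_rop _ _ _ hn) (K := K) (B := C₃) r1
      (by linarith) hh
    have e2 := hsh _ e1.1
    refine e2.trans ?_
    have e3 : 2 * Real.pi * ∑' n : ℕ, WW (E2 κ X) (wX (E2 κ X) (y0 κ₁ X a)) n ^ 2 * h n / n ≤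
        2 * Real.pi * (C₃ * |C₀|) := by
      refine mul_le_mul_of_nonneg_left (e1.2.trans ?_) (by positivity)
      exact mul_le_mul_of_nonneg_left hcn1 (by linarith)
    have e4 : 0 ≤ 2 * Real.pi * (6 * W * C₃ * |C₀|) := by positivity
    linarith
  · intro θ hθ
    set P := PB κ v X with hP
    set M := MM (v - κ) X with hM
    have hWr : ∀ r, 1 ≤ r → r ≤ X ^ 10 → ((P.filter (fun p => p ∣ r)).card : ℝ) ≤ W := by
      intro r hr hr'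
      have hy : (1 : ℝ) < (X : ℝ) ^ (v / 2) := Real.one_lt_rpow (by linarith) (by linarith)
      have k1 := mq_omega hy (P := P) (fun p hp => ⟨(z4 p hp).1, (z4 p hp).2.2.2.2.2.1⟩) hr
      have k2 : Real.log r ≤ 10 * Real.log X := by
        have hr0 : (0 : ℝ) < r := by exact_mod_cast hr
        have k3 : (r : ℝ) ≤ (X : ℝ) ^ 10 := by exact_mod_cast hr'
        have k4 := Real.log_le_log hr0 k3
        rw [Real.log_pow] at k4
        push_cast at k4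
        exact k4
      rw [Real.log_rpow hX0] at k1
      have hlX : 0 < Real.log X := Real.log_pos (by linarith)
      have k3 : ((P.filter (fun p => p ∣ r)).card : ℝ) * (v / 2 * Real.log X) ≤
          W * (v / 2 * Real.log X) := by
        refine (k1.trans k2).trans (le_of_eq ?_)
        rw [hWd]
        field_simp
        ring
      exact le_of_mul_le_mul_right k3 (by positivity)
    have hS : ∑ p ∈ P, 1 / (p : ℝ) ≤ 2 * W := by
      refine mq_recip (X := X) (by omega) (fun p hp => ⟨(z4 p hp).1.one_lt.le,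
        (z4 p hp).2.2.2.2.1⟩) (fun r hr hr' => hWr r hr (hr'.trans ?_))
      calc X = X ^ 1 := (pow_one X).symm
        _ ≤ X ^ 10 := Nat.pow_le_pow_right (by omega) (by norm_num)
    have hin := mq_inner (P := P) (z := zz X) (M := M) (θ := θ) (W := W) (C₃ := C₃) (K := K)
      (T₀ := 2 * M) (R₀ := X ^ 10) (fun p hp => ⟨(z4 p hp).1, (z4 p hp).2.1⟩) hθ
      (Nat.one_le_pow _ _ (by omega)) hK0.le hW0.le (by linarith) hWr hS t1
      (fun p hp => t2 p (z4 p hp).1 (z4 p hp).2.1 (z4 p hp).2.2.1) t3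
    set Θ := ∑ p ∈ P, θ p ^ 2 / (p : ℝ) with hΘ
    have hΘ0 : 0 ≤ Θ := Finset.sum_nonneg fun p _ => by positivity
    set tl := 2 * ((P.card : ℝ) * (2 * M)) ^ 2 * (K / ((X ^ 10 : ℕ) : ℝ)) with htl
    have htl0 : 0 ≤ tl := by positivity
    have e1 := mq_HG (z := zz X) (A := KA ε₂ X) (a := a) ha.sup
      (U := fun n => UY P θ (zz X) M n)
      (V := fun n => WW (E2 κ X) (wX (E2 κ X) (YT P θ (y1 κ v X a))) n)
      (fun n hn => mq_facY ha (fun p hp => ⟨(z4 p hp).1, (z4 p hp).2.1⟩)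
        (fun p hp => (z4 p hp).2.2.2.1) z3 θ hn)
      (fun n hn => mq_UY_rop θ (fun p hp => ⟨(z4 p hp).1, (z4 p hp).2.1⟩) hn)
      (K := K) (B := 6 * W * C₃ * Θ + tl) hin (by positivity) hh
    have e2 := hsh _ e1.1
    refine e2.trans ?_
    have hcard : (P.card : ℝ) ≤ 2 * (X : ℝ) ^ (v + κ) := by
      have k1 : P.card ≤ ⌊2 * (X : ℝ) ^ (v + κ)⌋₊ := by
        rw [hP]
        unfold PB
        refine (Finset.card_filter_le _ _).trans ?_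
        rw [Nat.card_Icc]
        omega
      calc (P.card : ℝ) ≤ (⌊2 * (X : ℝ) ^ (v + κ)⌋₊ : ℝ) := by exact_mod_cast k1
        _ ≤ _ := Nat.floor_le (by positivity)
    have hMle : (M : ℝ) ≤ (X : ℝ) ^ (1 / 2 - (v - κ)) := by
      rw [hM]
      unfold MM
      exact Nat.floor_le (by positivity)
    have htl1 : 2 * Real.pi * (tl * |C₀|) ≤ (X : ℝ) ^ (-(20 * κ)) := by
      have k1 : tl ≤ 32 * (X : ℝ) ^ (-8 + 11 * κ) := by
        calc tl ≤ 2 * ((2 * (X : ℝ) ^ (v + κ)) * (2 * (X : ℝ) ^ (1 / 2 - (v - κ)))) ^ 2 *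
              (K / ((X ^ 10 : ℕ) : ℝ)) := by
              rw [htl]
              gcongr
          _ = 32 * ((X : ℝ) ^ (v + κ) * (X : ℝ) ^ (1 / 2 - (v - κ))) ^ 2 *
              ((X : ℝ) ^ (1 + 7 * κ) * (X : ℝ) ^ (-10 : ℝ)) := by
              rw [hK, Real.rpow_neg hX0.le]
              push_cast
              rw [show ((X : ℝ) ^ (10 : ℝ)) = (X : ℝ) ^ (10 : ℕ) by
                rw [← Real.rpow_natCast]; norm_num]
              ring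
          _ = 32 * (X : ℝ) ^ (-8 + 11 * κ) := by
              rw [← Real.rpow_add hX0, ← Real.rpow_add hX0,
                ← Real.rpow_natCast ((X : ℝ) ^ (v + κ + (1 / 2 - (v - κ)))) 2,
                ← Real.rpow_mul hX0.le, mul_assoc, ← Real.rpow_add hX0]
              congr 2
              push_cast
              ring
      calc 2 * Real.pi * (tl * |C₀|) ≤ 2 * Real.pi * (32 * (X : ℝ) ^ (-8 + 11 * κ) * |C₀|) := by
            gcongr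
        _ = 64 * Real.pi * |C₀| * (X : ℝ) ^ (-8 + 11 * κ) := by ring
        _ ≤ (X : ℝ) ^ (7 : ℝ) * (X : ℝ) ^ (-8 + 11 * κ) := by gcongr
        _ = (X : ℝ) ^ (7 + (-8 + 11 * κ)) := by rw [← Real.rpow_add hX0]
        _ ≤ (X : ℝ) ^ (-(20 * κ)) :=
            Real.rpow_le_rpow_of_exponent_le (by linarith) (by linarith)
    have e3 : 2 * Real.pi * ∑' n : ℕ,
        WW (E2 κ X) (wX (E2 κ X) (YT P θ (y1 κ v X a))) n ^ 2 * h n / n ≤
        2 * Real.pi * ((6 * W * C₃ * Θ + tl) * |C₀|) := by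
      refine mul_le_mul_of_nonneg_left (e1.2.trans ?_) (by positivity)
      exact mul_le_mul_of_nonneg_left hcn1 (by positivity)
    have e4 : 2 * Real.pi * ((6 * W * C₃ * Θ + tl) * |C₀|) =
        2 * Real.pi * (6 * W * C₃ * |C₀|) * Θ + 2 * Real.pi * (tl * |C₀|) := by ring
    have e5 : 0 ≤ (1 + 2 * Real.pi * (C₃ * |C₀|)) * Θ := by positivity
    have e6 : (1 + 2 * Real.pi * (C₃ * |C₀|) + 2 * Real.pi * (6 * W * C₃ * |C₀|)) * Θ =
        (1 + 2 * Real.pi * (C₃ * |C₀|)) * Θ + 2 * Real.pi * (6 * W * C₃ * |C₀|) * Θ := by ring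
    linarith

theorem m2_quad : type_of% @m2_quad_pr := @m2_quad_pr

end Pool.Agent.LSP
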