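import Pool.Agent.Lib_helper53.LSPAF.Adm

/-!
# LSP2, module AD, part 1: the coefficients of the mollifier against Ramanujan sums, general lengths

The lemmas of `LSPAF` for the lengths `MM η X = ⌊X ^ (1/2 - η)⌋`, `-1/1000 ≤ η ≤ 1/8`.
-/

set_option autoImplicit false

namespace Pool.Agent.LSP

open Pool.Agent.LEV Pool.Agent.LVB Pool.Agent.KSL
open Pool.Agent.FG61 (mu phi cc ff AA Lam)
open Finset

/-- sizes of the parameters -/
theorem ad_sizes {η : ℝ} (h0 : -(1 / 1000) ≤ η) (h1 : η ≤ 1 / 8) : ∃ X₀ : ℕ, ∀ X : ℕ, X₀ ≤ X →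
    8 ≤ zz X ∧ zz X < MM η X ∧ (X : ℝ) ^ (1 / 4 : ℝ) ≤ MM η X ∧
      (MM η X : ℝ) ≤ (X : ℝ) ^ (1 / 2 - η) ∧ 1 ≤ Real.log X ∧
      Real.log X ≤ 4 * Real.log (MM η X) ∧ 2 * (MM η X : ℝ) ≤ X ∧
      (PK (MM η X) 2).Nonempty := by
  obtain ⟨N₀, hN₀⟩ := sizes (δ := 1 / 8) (by norm_num) (by norm_num) (ε := 1 / 3) (by norm_num)
  have key : ∀ᶠ X : ℕ in Filter.atTop, 8 ≤ zz X ∧ zz X < MM η X ∧
      (X : ℝ) ^ (1 / 4 : ℝ) ≤ MM η X ∧
      (MM η X : ℝ) ≤ (X : ℝ) ^ (1 / 2 - η) ∧ 1 ≤ Real.log X ∧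
      Real.log X ≤ 4 * Real.log (MM η X) ∧ 2 * (MM η X : ℝ) ≤ X ∧
      (PK (MM η X) 2).Nonempty := by
    filter_upwards [Filter.eventually_ge_atTop N₀, Filter.eventually_ge_atTop 3,
      la6_ev (show (0 : ℝ) < 1 / 8 by norm_num) 2,
      la6_ev (show (0 : ℝ) < 1 / 4 by norm_num) 2, la6_log 1] with X k1 k2 k3 k4 k5
    obtain ⟨-, a1, a2, -, a3, -⟩ := hN₀ X k1
    have hX1 : (1 : ℝ) ≤ X := by exact_mod_cast (by omega : 1 ≤ X)
    have hX0 : (0 : ℝ) < X := by linarith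
    have hMdef : MM η X = ⌊(X : ℝ) ^ (1 / 2 - η)⌋₊ := rfl
    have hzM : zz X < MM η X := by
      refine a2.trans_le ?_
      unfold MM
      exact Nat.floor_le_floor (Real.rpow_le_rpow_of_exponent_le hX1 (by linarith))
    have hup : (MM η X : ℝ) ≤ (X : ℝ) ^ (1 / 2 - η) := by
      rw [hMdef]
      exact Nat.floor_le (by positivity)
    have hs1 : (1 : ℝ) ≤ (X : ℝ) ^ (1 / 4 : ℝ) := Real.one_le_rpow hX1 (by norm_num)
    have hlow : (X : ℝ) ^ (1 / 4 : ℝ) ≤ MM η X := by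
      have h2 : (X : ℝ) ^ (1 / 2 - η) < MM η X + 1 := by
        rw [hMdef]
        exact Nat.lt_floor_add_one _
      have h3 : (X : ℝ) ^ (1 / 4 : ℝ) * (X : ℝ) ^ (1 / 8 : ℝ) ≤ (X : ℝ) ^ (1 / 2 - η) := by
        rw [← Real.rpow_add hX0]
        exact Real.rpow_le_rpow_of_exponent_le hX1 (by linarith)
      nlinarith
    have hMpos : (0 : ℝ) < MM η X := by linarith
    refine ⟨?_, hzM, hlow, hup, k5, ?_, ?_, ?_⟩
    · have hz0 : (0 : ℝ) < zz X := by exact_mod_cast (by omega : 0 < zz X)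
      have h2 : Real.exp 3 ≤ zz X := by
        rw [← Real.le_log_iff_exp_le hz0]
        have : (1 : ℝ) / (1 / 3) = 3 := by norm_num
        linarith
      have h3 : (8 : ℝ) ≤ Real.exp 3 := by
        have h4 : (2 : ℝ) ≤ Real.exp 1 := by
          have := Real.exp_one_gt_d9
          linarith
        calc (8 : ℝ) = 2 ^ 3 := by norm_num
          _ ≤ Real.exp 1 ^ 3 := by gcongr
          _ = Real.exp 3 := by rw [← Real.exp_nat_mul]; norm_num
      exact_mod_cast h3.trans h2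
    · have h2 := Real.log_le_log (by positivity) hlow
      rw [Real.log_rpow hX0] at h2
      linarith
    · have h2 : (X : ℝ) ^ (1 / 2 - η) ≤ (X : ℝ) ^ (3 / 4 : ℝ) :=
        Real.rpow_le_rpow_of_exponent_le hX1 (by linarith)
      have h3 : (X : ℝ) = (X : ℝ) ^ (3 / 4 : ℝ) * (X : ℝ) ^ (1 / 4 : ℝ) := by
        rw [← Real.rpow_add hX0]
        norm_num
      have h4 : (0 : ℝ) ≤ (X : ℝ) ^ (3 / 4 : ℝ) := by positivity
      calc 2 * (MM η X : ℝ) ≤ 2 * (X : ℝ) ^ (3 / 4 : ℝ) := by linarith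
        _ ≤ (X : ℝ) ^ (1 / 4 : ℝ) * (X : ℝ) ^ (3 / 4 : ℝ) := mul_le_mul_of_nonneg_right k4 h4
        _ = X := by rw [mul_comm]; exact h3.symm
    · have hM1 : MM η X ≠ 0 := by
        intro h
        rw [h] at hMpos
        simp at hMpos
      obtain ⟨p, hp, h2, h3⟩ := Nat.exists_prime_lt_and_le_two_mul _ hM1
      exact ⟨p, Finset.mem_filter.2 ⟨Finset.mem_Ioc.2 ⟨h2, h3⟩, hp⟩⟩
  exact Filter.eventually_atTop.1 key

theorem ad_be (k : ℕ) {η : ℝ} (h0 : -(1 / 1000) ≤ η) (h1 : η ≤ 1 / 8) : ∃ X₀ : ℕ, ∀ X : ℕ, X₀ ≤ X →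
    |be (zz X) (MM η X) 2| ≤ 1 / Real.log X ^ k := by
  obtain ⟨X₁, hX₁⟩ := ad_sizes h0 h1
  obtain ⟨X₂, hX₂⟩ := ms_rough (k + 2)
  obtain ⟨M₀, hM₀⟩ := bet_primes
  have hsm : ∀ᶠ X : ℕ in Filter.atTop, Real.log X ^ (k + 2) ≤ 1 / 2 * (X : ℝ) ^ (1 / 8 : ℝ) := by
    have h2 := (isLittleO_log_rpow_rpow_atTop (r := ((k + 2 : ℕ) : ℝ)) (s := 1 / 8)
      (by norm_num)).comp_tendsto (tendsto_natCast_atTop_atTop (R := ℝ))
    filter_upwards [h2.bound (show (0 : ℝ) < 1 / 2 by norm_num), la6_log 0] with X h3 h4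
    simp only [Function.comp, Real.norm_eq_abs, Real.rpow_natCast] at h3
    rwa [abs_of_nonneg (by positivity), abs_of_nonneg (by positivity)] at h3
  have key : ∀ᶠ X : ℕ in Filter.atTop, |be (zz X) (MM η X) 2| ≤ 1 / Real.log X ^ k := by
    filter_upwards [Filter.eventually_ge_atTop X₁, Filter.eventually_ge_atTop X₂,
      la6_ev (show (0 : ℝ) < 1 / 4 by norm_num) (M₀ : ℝ), la6_log 4, hsm,
      Filter.eventually_ge_atTop 1] with X k1 k2 k3 k4 k5 k6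
    obtain ⟨-, -, a1, -, a2, -, a3, -⟩ := hX₁ X k1
    set M := MM η X with hM
    set z := zz X with hz
    have hX1 : (1 : ℝ) ≤ X := by exact_mod_cast k6
    have hX0 : (0 : ℝ) < X := by linarith
    have hs1 : (1 : ℝ) ≤ (X : ℝ) ^ (1 / 4 : ℝ) := Real.one_le_rpow hX1 (by norm_num)
    have hMpos : (0 : ℝ) < M := by linarith
    have hM1 : (1 : ℝ) ≤ M := by linarith
    obtain ⟨hM2, hlow, -⟩ := hM₀ M (by exact_mod_cast k3.trans a1)
    have hM2' : (2 : ℝ) ≤ M := by exact_mod_cast hM2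
    have hLM : 0 < Real.log M := Real.log_pos (by linarith)
    have hcard : (0 : ℝ) < (PK M 2).card := lt_of_lt_of_le (by positivity) hlow
    set L := Real.log (X : ℝ) with hL
    have hLX : Real.log M ≤ L := Real.log_le_log hMpos (by linarith)
    have hL0 : 0 < L := by linarith
    -- the size of `g0`
    have hg : |g0 z M| ≤ 2 * M / L ^ (k + 2) := by
      rw [la6_g0]
      refine (Finset.abs_sum_le_sum_abs _ _).trans ?_
      have hterm : ∀ n ∈ Ico 1 M, |Real.log (((n : ℝ) + 1) / n) * MS (Pz z) n| ≤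
          1 / L ^ (k + 2) + if (n : ℝ) < (X : ℝ) ^ (1 / 16 : ℝ) then 1 else 0 := by
        intro n hn
        rw [Finset.mem_Ico] at hn
        have hn0 : (0 : ℝ) < n := by exact_mod_cast hn.1
        have h2 : 0 ≤ Real.log (((n : ℝ) + 1) / n) := Real.log_nonneg (by
          rw [le_div_iff₀ hn0]
          linarith)
        have h3 : Real.log (((n : ℝ) + 1) / n) ≤ 1 / n := by
          have := Real.log_le_sub_one_of_pos (by positivity : (0 : ℝ) < ((n : ℝ) + 1) / n)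
          have e1 : ((n : ℝ) + 1) / n - 1 = 1 / n := by field_simp; ring
          linarith
        rw [abs_mul, abs_of_nonneg h2]
        split_ifs with h4
        · have h5 := la6_MS_triv (Pz z) n
          have h6 : Real.log (((n : ℝ) + 1) / n) * |MS (Pz z) n| ≤ 1 / n * n := by gcongr
          rw [one_div_mul_cancel hn0.ne'] at h6
          have h7 : 0 ≤ 1 / L ^ (k + 2) := by positivity
          linarith
        · have h5 := hX₂ X k2 1 le_rfl (by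
            push_cast
            exact one_le_pow₀ hX1) n (not_lt.1 h4)
          rw [one_mul] at h5
          have h6 : Real.log (((n : ℝ) + 1) / n) * |MS (Pz z) n| ≤ 1 / n * (n / L ^ (k + 2)) := by
            gcongr
          have h7 : 1 / (n : ℝ) * (n / L ^ (k + 2)) = 1 / L ^ (k + 2) := by
            field_simp
          linarith
      refine (Finset.sum_le_sum hterm).trans ?_
      rw [Finset.sum_add_distrib, Finset.sum_const, Nat.card_Ico, nsmul_eq_mul,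
        ← Finset.sum_filter, Finset.sum_const, nsmul_eq_mul, mul_one]
      have h2 : ((M - 1 : ℕ) : ℝ) * (1 / L ^ (k + 2)) ≤ M / L ^ (k + 2) := by
        have h3 : ((M - 1 : ℕ) : ℝ) ≤ M := by exact_mod_cast Nat.sub_le M 1
        calc ((M - 1 : ℕ) : ℝ) * (1 / L ^ (k + 2)) ≤ M * (1 / L ^ (k + 2)) := by gcongr
          _ = _ := by ring
      have h3 : ((((Ico 1 M).filter (fun n : ℕ => (n : ℝ) < (X : ℝ) ^ (1 / 16 : ℝ))).card : ℕ) : ℝ) ≤
          (X : ℝ) ^ (1 / 16 : ℝ) := by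
        have h4 : (Ico 1 M).filter (fun n : ℕ => (n : ℝ) < (X : ℝ) ^ (1 / 16 : ℝ)) ⊆
            Icc 1 ⌊(X : ℝ) ^ (1 / 16 : ℝ)⌋₊ := by
          intro n hn
          rw [Finset.mem_filter, Finset.mem_Ico] at hn
          exact Finset.mem_Icc.2 ⟨hn.1.1, Nat.le_floor hn.2.le⟩
        have h5 := Finset.card_le_card h4
        rw [Nat.card_Icc, Nat.add_sub_cancel] at h5
        calc _ ≤ ((⌊(X : ℝ) ^ (1 / 16 : ℝ)⌋₊ : ℕ) : ℝ) := by exact_mod_cast h5
          _ ≤ _ := Nat.floor_le (by positivity)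
      have h4 : (X : ℝ) ^ (1 / 16 : ℝ) ≤ M / L ^ (k + 2) := by
        rw [le_div_iff₀ (by positivity)]
        have h5 : (X : ℝ) ^ (1 / 16 : ℝ) ≤ (X : ℝ) ^ (1 / 8 : ℝ) :=
          Real.rpow_le_rpow_of_exponent_le hX1 (by norm_num)
        have h6 : (X : ℝ) ^ (1 / 4 : ℝ) = (X : ℝ) ^ (1 / 8 : ℝ) * (X : ℝ) ^ (1 / 8 : ℝ) := by
          rw [← Real.rpow_add hX0]
          norm_num
        have h7 : (0 : ℝ) ≤ (X : ℝ) ^ (1 / 8 : ℝ) := by positivity
        have h8 : (0 : ℝ) ≤ L ^ (k + 2) := by positivity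
        calc (X : ℝ) ^ (1 / 16 : ℝ) * L ^ (k + 2)
            ≤ (X : ℝ) ^ (1 / 8 : ℝ) * (1 / 2 * (X : ℝ) ^ (1 / 8 : ℝ)) := by gcongr
          _ ≤ (X : ℝ) ^ (1 / 8 : ℝ) * (X : ℝ) ^ (1 / 8 : ℝ) := by nlinarith
          _ = (X : ℝ) ^ (1 / 4 : ℝ) := h6.symm
          _ ≤ M := a1
      have h5 : 2 * (M : ℝ) / L ^ (k + 2) = M / L ^ (k + 2) + M / L ^ (k + 2) := by ring
      linarith
    unfold be
    rw [abs_div, abs_of_pos hcard, div_le_iff₀ hcard]
    refine hg.trans ?_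
    have h2 : 2 * (M : ℝ) / L ^ (k + 2) ≤ 1 / L ^ k * (M / (2 * Real.log M)) := by
      rw [pow_add, div_mul_div_comm, one_mul, div_le_div_iff₀ (by positivity) (by positivity)]
      have h3 : 4 * Real.log M ≤ L ^ 2 := by nlinarith
      have h4 : 0 ≤ (M : ℝ) * L ^ k := by positivity
      nlinarith [mul_le_mul_of_nonneg_left h3 h4]
    refine h2.trans ?_
    gcongr
  exact Filter.eventually_atTop.1 key

theorem ad_xr_bound {η : ℝ} (h0 : -(1 / 1000) ≤ η) (h1 : η ≤ 1 / 8) : ∃ X₀ : ℕ, ∀ X : ℕ, X₀ ≤ X →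
    ∀ r : ℕ, |xr (zz X) (MM η X) 2 r| ≤ 4 * Real.log X := by
  obtain ⟨X₁, hX₁⟩ := ad_sizes h0 h1
  obtain ⟨X₂, hX₂⟩ := ad_be 0 h0 h1
  refine ⟨max X₁ X₂, fun X hX r => ?_⟩
  obtain ⟨a1, a2, -, -, a5, a6, a7, -⟩ := hX₁ X ((le_max_left _ _).trans hX)
  have b1 := hX₂ X ((le_max_right _ _).trans hX)
  rw [pow_zero, div_one] at b1
  set M : ℕ := MM η X with hM
  set z : ℕ := zz X with hz
  have hM9 : 9 ≤ M := by omega
  have hM9' : (9 : ℝ) ≤ M := by exact_mod_cast hM9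
  have hlog : 1 ≤ Real.log M := by
    rw [Real.le_log_iff_exp_le (by linarith)]
    have := Real.exp_one_lt_d9
    linarith
  have hb : |be z M 2| ≤ Real.log M := b1.trans hlog
  rcases Nat.eq_zero_or_pos r with hr | hr
  · have : xr z M 2 r = 0 := by
      unfold xr
      rw [hr, Nat.cast_zero, zero_mul]
    rw [this, abs_zero]
    linarith
  have hr0 : (0 : ℝ) < r := by exact_mod_cast hr
  have h2 : |xr z M 2 r| ≤ ∑ m ∈ Finset.Icc 1 (2 * M), 1 / (m : ℝ) := by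
    unfold xr
    rw [abs_mul, abs_of_pos hr0]
    calc (r : ℝ) * |∑ m ∈ Finset.Icc 1 (2 * M), mu m * yE z M 2 (r * m)|
        ≤ (r : ℝ) * ∑ m ∈ Finset.Icc 1 (2 * M), |mu m * yE z M 2 (r * m)| :=
          mul_le_mul_of_nonneg_left (Finset.abs_sum_le_sum_abs _ _) hr0.le
      _ = ∑ m ∈ Finset.Icc 1 (2 * M), (r : ℝ) * |mu m * yE z M 2 (r * m)| := Finset.mul_sum _ _ _
      _ ≤ ∑ m ∈ Finset.Icc 1 (2 * M), 1 / (m : ℝ) := by
          refine Finset.sum_le_sum fun m hm => ?_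
          rw [Finset.mem_Icc] at hm
          have hm0 : (0 : ℝ) < m := by exact_mod_cast hm.1
          have h3 : |yE z M 2 (r * m)| ≤ 1 / ((r * m : ℕ) : ℝ) :=
            la7_yE (Nat.mul_pos hr hm.1) (by linarith) hb
          rw [abs_mul]
          calc (r : ℝ) * (|mu m| * |yE z M 2 (r * m)|)
              ≤ (r : ℝ) * (1 * (1 / ((r * m : ℕ) : ℝ))) := by
                have := mul_le_mul (la7_mu m) h3 (abs_nonneg _) zero_le_one
                exact mul_le_mul_of_nonneg_left this hr0.le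
            _ = 1 / (m : ℝ) := by
                push_cast
                field_simp
  have h4 := la7_harm (2 * M)
  have h5 : Real.log ((2 * M : ℕ) : ℝ) ≤ Real.log X := by
    apply Real.log_le_log
    · push_cast
      linarith
    · push_cast
      exact a7
  linarith

theorem ad_xr_sum (k : ℕ) {η : ℝ} (h0 : -(1 / 1000) ≤ η) (h1 : η ≤ 1 / 8) : ∃ X₀ : ℕ, ∀ X : ℕ, X₀ ≤ X →
    ∀ w : ℕ, 1 ≤ w → ∀ U V : ℕ, (X : ℝ) ^ (1 / 16 : ℝ) ≤ U →
      |∑ r ∈ Ioc U V, xr (zz X) (MM η X) 2 (w * r) / r| ≤ 1 / Real.log X ^ k := by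
  obtain ⟨X₁, hX₁⟩ := ms_log (k + 2)
  obtain ⟨X₂, hX₂⟩ := ad_be (k + 1) h0 h1
  obtain ⟨X₃, hX₃⟩ := ad_sizes h0 h1
  refine ⟨max (max X₁ X₂) (max X₃ ⌈Real.exp 4⌉₊), fun X hX w hw U V hU => ?_⟩
  have hX1 : X₁ ≤ X := ((le_max_left _ _).trans (le_max_left _ _)).trans hX
  have hX2 : X₂ ≤ X := ((le_max_right _ _).trans (le_max_left _ _)).trans hX
  have hX3 : X₃ ≤ X := ((le_max_left _ _).trans (le_max_right _ _)).trans hX
  have hX4 : ⌈Real.exp 4⌉₊ ≤ X := ((le_max_right _ _).trans (le_max_right _ _)).trans hX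
  have hXe : Real.exp 4 ≤ X := (Nat.le_ceil _).trans (Nat.cast_le.2 hX4)
  have hX0 : (0 : ℝ) < X := (Real.exp_pos 4).trans_le hXe
  have hL4 : 4 ≤ Real.log X := (Real.le_log_iff_exp_le hX0).2 hXe
  have hX1r : (1 : ℝ) ≤ X := by
    have : (1 : ℝ) ≤ Real.exp 4 := Real.one_le_exp (by norm_num)
    linarith
  have hms := hX₁ X hX1
  have hbe := hX₂ X hX2
  obtain ⟨-, -, -, hMle, -, hlog, h2M, -⟩ := hX₃ X hX3
  obtain ⟨M, hM⟩ : ∃ M : ℕ, M = MM η X := ⟨_, rfl⟩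
  obtain ⟨z, hz⟩ : ∃ z : ℕ, z = zz X := ⟨_, rfl⟩
  rw [← hM] at hMle hlog h2M hbe ⊢
  rw [← hz] at hbe hms ⊢
  have hlM : 0 < Real.log M := by linarith
  have hM1 : 1 ≤ M := by
    rcases Nat.eq_zero_or_pos M with h | h
    · rw [h] at hlM
      simp at hlM
    · exact h
  have hMX : ∀ j : ℕ, 1 ≤ j → (M : ℝ) ≤ (X : ℝ) ^ j := by
    intro j hj
    have h3 : (M : ℝ) ≤ (X : ℝ) := by
      have : (0 : ℝ) ≤ M := Nat.cast_nonneg M
      linarith
    exact h3.trans (le_self_pow₀ hX1r (by omega))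
  have hU1 : 1 ≤ U := by
    have h3 : (1 : ℝ) ≤ (X : ℝ) ^ (1 / 16 : ℝ) := Real.one_le_rpow hX1r (by norm_num)
    have h4 : (1 : ℝ) ≤ U := h3.trans hU
    exact_mod_cast h4
  have e1 : ∑ r ∈ Ioc U V, xr z M 2 (w * r) / r =
      ∑ m ∈ Icc 1 (2 * M), ∑ r ∈ Ioc U V, (w : ℝ) * (mu m * yE z M 2 (w * r * m)) := by
    rw [sum_comm]
    refine sum_congr rfl fun r hr => ?_
    have hr0 : (r : ℝ) ≠ 0 := by
      have : 0 < r := by
        rw [mem_Ioc] at hr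
        omega
      exact_mod_cast this.ne'
    unfold xr
    rw [← mul_sum]
    push_cast
    field_simp
  rw [e1]
  have hL0 : 0 < Real.log X := by linarith
  have hterm : ∀ m ∈ Icc 1 (2 * M),
      |∑ r ∈ Ioc U V, (w : ℝ) * (mu m * yE z M 2 (w * r * m))| ≤
        1 / ((m : ℝ) * Real.log X ^ (k + 2)) + if m = 1 then |be z M 2| / Real.log M else 0 := by
    intro m hm
    rw [mem_Icc] at hm
    rw [← sum_filter_add_sum_filter_not (Ioc U V) (fun r => w * m * r ≤ M)]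
    refine (abs_add_le _ _).trans (add_le_add ?_ ?_)
    · exact la8_one (by linarith) hlM (hMX 4 (by norm_num)) (hMX 8 (by norm_num)) hU hw hm.1 hms
    · exact la8_two hU1 hM1 hlM hw hm.1
  refine (abs_sum_le_sum_abs _ _).trans ((sum_le_sum hterm).trans ?_)
  rw [sum_add_distrib]
  have s1 : ∑ m ∈ Icc 1 (2 * M), 1 / ((m : ℝ) * Real.log X ^ (k + 2)) ≤
      2 / Real.log X ^ (k + 1) := by
    have h5 : ∑ m ∈ Icc 1 (2 * M), 1 / ((m : ℝ) * Real.log X ^ (k + 2)) =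
        (∑ m ∈ Icc 1 (2 * M), (m : ℝ)⁻¹) / Real.log X ^ (k + 2) := by
      rw [sum_div]
      refine sum_congr rfl fun m _ => ?_
      rw [div_mul_eq_div_div, one_div]
    have h6 : ∑ m ∈ Icc 1 (2 * M), (m : ℝ)⁻¹ ≤ 1 + Real.log ((2 * M : ℕ) : ℝ) := by
      have h7 := harmonic_le_one_add_log (2 * M)
      rw [harmonic_eq_sum_Icc] at h7
      push_cast at h7 ⊢
      exact h7
    have h8 : Real.log ((2 * M : ℕ) : ℝ) ≤ Real.log X := by
      refine Real.log_le_log ?_ ?_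
      · have : 0 < 2 * M := by omega
        exact_mod_cast this
      · push_cast
        exact h2M
    rw [h5, div_le_div_iff₀ (by positivity) (by positivity)]
    have h9 : ∑ m ∈ Icc 1 (2 * M), (m : ℝ)⁻¹ ≤ 2 * Real.log X := by linarith
    calc (∑ m ∈ Icc 1 (2 * M), (m : ℝ)⁻¹) * Real.log X ^ (k + 1)
        ≤ (2 * Real.log X) * Real.log X ^ (k + 1) :=
          mul_le_mul_of_nonneg_right h9 (by positivity)
      _ = 2 * Real.log X ^ (k + 2) := by ring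
  have s2 : ∑ m ∈ Icc 1 (2 * M), (if m = 1 then |be z M 2| / Real.log M else 0) ≤
      2 / Real.log X ^ (k + 1) := by
    rw [sum_ite_eq' (Icc 1 (2 * M)) 1 (fun _ => |be z M 2| / Real.log M)]
    split_ifs
    · have h5 : |be z M 2| / Real.log M ≤ (1 / Real.log X ^ (k + 1)) / (1 / 2) := by
        refine div_le_div₀ (by positivity) hbe (by norm_num) ?_
        linarith
      refine h5.trans_eq ?_
      field_simp
    · positivity
  refine (add_le_add s1 s2).trans ?_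
  rw [← add_div, div_le_div_iff₀ (by positivity) (by positivity), pow_succ]
  have h10 : 0 < Real.log X ^ k := by positivity
  nlinarith

theorem ad_xr_cc (k : ℕ) {η : ℝ} (h0 : -(1 / 1000) ≤ η) (h1 : η ≤ 1 / 8) : ∃ X₀ : ℕ, ∀ X : ℕ, X₀ ≤ X →
    ∀ w t c : ℕ, 1 ≤ w → 1 ≤ t → 1 ≤ c → (c : ℝ) ≤ (X : ℝ) ^ (1 / 100 : ℝ) →
    ∀ U V : ℕ, (X : ℝ) ^ (1 / 8 : ℝ) ≤ U →
      |∑ r ∈ Ioc U V, xr (zz X) (MM η X) 2 (w * r) / r * cc c (t * r)| ≤
        tau c * Nat.gcd c t / Real.log X ^ k := by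
  obtain ⟨X₀, hX₀⟩ := ad_xr_sum k h0 h1
  refine ⟨max X₀ (2 ^ 20), fun X hX w t c hw ht hc hcX U V hU => ?_⟩
  have hX1 : X₀ ≤ X := (le_max_left _ _).trans hX
  have hX2 : 2 ^ 20 ≤ X := (le_max_right _ _).trans hX
  have hXr : (1 : ℝ) ≤ X := by
    have : (1 : ℕ) ≤ X := le_trans (by norm_num) hX2
    exact_mod_cast this
  have hlog : 0 ≤ Real.log X := Real.log_nonneg hXr
  set x : ℕ → ℝ := fun r => xr (zz X) (MM η X) 2 r with hx
  have e1 : ∑ r ∈ Ioc U V, xr (zz X) (MM η X) 2 (w * r) / r * cc c (t * r) =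
      ∑ d ∈ c.divisors, (d : ℝ) * mu (c / d) *
        ∑ r ∈ (Ioc U V).filter (fun r => d / Nat.gcd d t ∣ r), x (w * r) / r := by
    have e2 : ∀ r ∈ Ioc U V, xr (zz X) (MM η X) 2 (w * r) / r * cc c (t * r) =
        ∑ d ∈ c.divisors, if d / Nat.gcd d t ∣ r then (d : ℝ) * mu (c / d) * (x (w * r) / r)
          else 0 := by
      intro r _
      rw [cc_mul hc ht, mul_sum]
      refine sum_congr rfl fun d _ => ?_
      split_ifs
      · rw [mul_comm]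
      · rw [mul_zero]
    rw [sum_congr rfl e2, sum_comm]
    refine sum_congr rfl fun d _ => ?_
    rw [mul_sum, sum_filter]
  rw [e1]
  have hterm : ∀ d ∈ c.divisors, |(d : ℝ) * mu (c / d) *
      ∑ r ∈ (Ioc U V).filter (fun r => d / Nat.gcd d t ∣ r), x (w * r) / r| ≤
        Nat.gcd c t / Real.log X ^ k := by
    intro d hd
    have hdc := Nat.divisor_le hd
    have hd0 : 0 < d := Nat.pos_of_mem_divisors hd
    have hg : 0 < Nat.gcd d t := Nat.gcd_pos_of_pos_left t hd0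
    have hd' : 0 < d / Nat.gcd d t := Nat.div_pos (Nat.le_of_dvd hd0 (Nat.gcd_dvd_left d t)) hg
    set d' := d / Nat.gcd d t with hdd
    have hdd' : d' * Nat.gcd d t = d := Nat.div_mul_cancel (Nat.gcd_dvd_left d t)
    have hdr : (0 : ℝ) < d' := by exact_mod_cast hd'
    rw [la9_multiples _ hd' U V]
    have e3 : ∑ r ∈ Ioc (U / d') (V / d'), x (w * (d' * r)) / ((d' * r : ℕ) : ℝ) =
        (d' : ℝ)⁻¹ * ∑ r ∈ Ioc (U / d') (V / d'), x (w * d' * r) / r := by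
      rw [mul_sum]
      refine sum_congr rfl fun r _ => ?_
      rw [mul_assoc w d' r]
      push_cast
      rw [div_mul_eq_div_div, div_eq_inv_mul (x (w * (d' * r))) (d' : ℝ), mul_div_assoc]
    rw [e3]
    have h2 := hX₀ X hX1 (w * d') (Nat.mul_pos hw hd') (U / d') (V / d')
      (la9_size hX2 hd' ((Nat.div_le_self _ _).trans hdc) hcX hU)
    have h3 : |(d : ℝ) * mu (c / d)| ≤ d := by
      rw [abs_mul, abs_of_nonneg (Nat.cast_nonneg d)]
      have := la9_mu (c / d)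
      nlinarith [(Nat.cast_nonneg d : (0 : ℝ) ≤ d)]
    have h4 : (Nat.gcd d t : ℝ) ≤ Nat.gcd c t := by
      have : Nat.gcd d t ≤ Nat.gcd c t :=
        Nat.le_of_dvd (Nat.gcd_pos_of_pos_left t hc)
          (Nat.gcd_dvd_gcd_of_dvd_left t (Nat.dvd_of_mem_divisors hd))
      exact_mod_cast this
    have h5 : (d : ℝ) * (d' : ℝ)⁻¹ = Nat.gcd d t := by
      rw [← hdd']
      push_cast
      field_simp
      rw [hdd']
    calc |(d : ℝ) * mu (c / d) * ((d' : ℝ)⁻¹ * ∑ r ∈ Ioc (U / d') (V / d'), x (w * d' * r) / r)|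
        = |(d : ℝ) * mu (c / d)| * ((d' : ℝ)⁻¹ *
            |∑ r ∈ Ioc (U / d') (V / d'), x (w * d' * r) / r|) := by
          rw [abs_mul, abs_mul (d' : ℝ)⁻¹, abs_of_pos (inv_pos.2 hdr)]
      _ ≤ d * ((d' : ℝ)⁻¹ * (1 / Real.log X ^ k)) := by
          apply mul_le_mul h3 _ (by positivity) (Nat.cast_nonneg d)
          exact mul_le_mul_of_nonneg_left h2 (inv_pos.2 hdr).le
      _ = (d * (d' : ℝ)⁻¹) / Real.log X ^ k := by ring
      _ ≤ Nat.gcd c t / Real.log X ^ k := by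
          rw [h5]
          exact div_le_div_of_nonneg_right h4 (by positivity)
  calc |∑ d ∈ c.divisors, (d : ℝ) * mu (c / d) *
        ∑ r ∈ (Ioc U V).filter (fun r => d / Nat.gcd d t ∣ r), x (w * r) / r|
      ≤ ∑ d ∈ c.divisors, |(d : ℝ) * mu (c / d) *
        ∑ r ∈ (Ioc U V).filter (fun r => d / Nat.gcd d t ∣ r), x (w * r) / r| :=
        abs_sum_le_sum_abs _ _
    _ ≤ ∑ d ∈ c.divisors, (Nat.gcd c t / Real.log X ^ k : ℝ) := sum_le_sum hterm
    _ = tau c * Nat.gcd c t / Real.log X ^ k := by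
        rw [sum_const, nsmul_eq_mul]
        unfold tau
        ring

/-- the room below `X^(1/5)` -/
theorem ad_room {X : ℕ} (hX : 1 ≤ X) (h3 : 3 ≤ (X : ℝ) ^ (13 / 200 : ℝ)) {ε : ℝ}
    (he : ε ≤ 1 / 100) {s U : ℕ} (hs1 : 1 ≤ s) (hs : (s : ℝ) ≤ (X : ℝ) ^ ε)
    (hU : (X : ℝ) ^ (1 / 5 : ℝ) - 1 ≤ U) : (X : ℝ) ^ (1 / 8 : ℝ) ≤ ((U / s : ℕ) : ℝ) := by
  have hX' : (1 : ℝ) ≤ X := by exact_mod_cast hX
  have hX0 : (0 : ℝ) < X := by linarith
  have h1 : (⌈(X : ℝ) ^ (1 / 8 : ℝ)⌉₊) ≤ U / s := by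
    rw [Nat.le_div_iff_mul_le hs1]
    have h4 : ((⌈(X : ℝ) ^ (1 / 8 : ℝ)⌉₊ : ℕ) : ℝ) ≤ (X : ℝ) ^ (1 / 8 : ℝ) + 1 :=
      (Nat.ceil_lt_add_one (by positivity)).le
    have h5 : (1 : ℝ) ≤ (X : ℝ) ^ (1 / 8 : ℝ) := Real.one_le_rpow hX' (by norm_num)
    have h6 : (s : ℝ) ≤ (X : ℝ) ^ (1 / 100 : ℝ) :=
      hs.trans (Real.rpow_le_rpow_of_exponent_le hX' he)
    have h7 : (X : ℝ) ^ (1 / 8 : ℝ) * (X : ℝ) ^ (1 / 100 : ℝ) = (X : ℝ) ^ (27 / 200 : ℝ) := by
      rw [← Real.rpow_add hX0]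
      norm_num
    have h8 : (X : ℝ) ^ (27 / 200 : ℝ) * (X : ℝ) ^ (13 / 200 : ℝ) = (X : ℝ) ^ (1 / 5 : ℝ) := by
      rw [← Real.rpow_add hX0]
      norm_num
    have h9 : (1 : ℝ) ≤ (X : ℝ) ^ (27 / 200 : ℝ) := Real.one_le_rpow hX' (by norm_num)
    have h10 : ((⌈(X : ℝ) ^ (1 / 8 : ℝ)⌉₊ : ℕ) : ℝ) * s ≤ U := by
      calc ((⌈(X : ℝ) ^ (1 / 8 : ℝ)⌉₊ : ℕ) : ℝ) * s
          ≤ ((X : ℝ) ^ (1 / 8 : ℝ) + 1) * (X : ℝ) ^ (1 / 100 : ℝ) :=
            mul_le_mul h4 h6 (Nat.cast_nonneg s) (by positivity)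
        _ ≤ (2 * (X : ℝ) ^ (1 / 8 : ℝ)) * (X : ℝ) ^ (1 / 100 : ℝ) := by
            apply mul_le_mul_of_nonneg_right _ (by positivity)
            linarith
        _ = 2 * (X : ℝ) ^ (27 / 200 : ℝ) := by rw [mul_assoc, h7]
        _ ≤ (X : ℝ) ^ (1 / 5 : ℝ) - 1 := by
            rw [← h8]
            nlinarith
        _ ≤ U := hU
    exact_mod_cast h10
  exact (Nat.le_ceil _).trans (by exact_mod_cast h1)

/-- `a = a_s a_r` with smooth and rough parts (`KSLF.SRO`: `smp_rop`, `smp_mul`); for each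
`a_s ≤ ⌊X^ε₂⌋` use `xr_cc` with `w = rop j`, `t = a_s b`, then `la_gcd_sum` -/
theorem ad_x_cc (C₀ C₁ k : ℕ) {η : ℝ} (h0 : -(1 / 1000) ≤ η) (h1 : η ≤ 1 / 8) {ε₂ : ℝ} (h2 : 0 < ε₂)
    (h3 : ε₂ ≤ 1 / 100) : ∃ X₀ : ℕ, ∀ X : ℕ, X₀ ≤ X → ∀ a : ℕ → ℝ, Sht (zz X) (KA ε₂ X) a →
    (∀ n : ℕ, |a n| * Real.sqrt n ≤ Real.log X ^ C₀ * tau n ^ C₁) →
    ∀ j b c : ℕ, 1 ≤ j → 1 ≤ b → 1 ≤ c → (c : ℝ) ≤ (X : ℝ) ^ (1 / 100 : ℝ) →
    ∀ U V : ℕ, (X : ℝ) ^ (1 / 5 : ℝ) - 1 ≤ U →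
      |∑ m ∈ Ioc U V, xX (zz X) (MM η X) 2 a (j * m) / m * cc c (m * b)| ≤
        tau j ^ C₁ * tau c ^ (C₁ + 2) * Nat.gcd c b / Real.log X ^ k := by
  set k' : ℕ := k + C₀ + 2 * 2 ^ C₁ with hk'
  obtain ⟨X1, hX1⟩ := ad_xr_cc k' h0 h1
  obtain ⟨X2, hX2⟩ := la11_rpow (13 / 200) (by norm_num) 3
  obtain ⟨X3, hX3⟩ := la11_log 4
  refine ⟨max (max X1 X2) (max X3 1), fun X hX a hS hab j b c hj hb hc hcX U V hU => ?_⟩
  have g1 : X1 ≤ X := (le_max_left _ _).trans ((le_max_left _ _).trans hX)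
  have g2 : X2 ≤ X := (le_max_right _ _).trans ((le_max_left _ _).trans hX)
  have g3 : X3 ≤ X := (le_max_left _ _).trans ((le_max_right _ _).trans hX)
  have g4 : 1 ≤ X := (le_max_right _ _).trans ((le_max_right _ _).trans hX)
  have hL : 4 ≤ Real.log X := hX3 X g3
  have hL0 : 0 < Real.log X := by linarith
  have hX' : (1 : ℝ) ≤ X := by exact_mod_cast g4
  have hε1 : ε₂ ≤ 1 / 100 := h3
  set A : ℕ := KA ε₂ X with hA
  have hAX : (A : ℝ) ≤ (X : ℝ) ^ ε₂ := by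
    rw [hA]
    unfold KA
    exact Nat.floor_le (by positivity)
  have hA1 : 1 ≤ A := by
    rw [hA]
    unfold KA
    rw [Nat.one_le_floor_iff]
    exact Real.one_le_rpow hX' h2.le
  have hAX' : (A : ℝ) ≤ X := by
    refine hAX.trans ?_
    calc (X : ℝ) ^ ε₂ ≤ (X : ℝ) ^ (1 : ℝ) := Real.rpow_le_rpow_of_exponent_le hX' (by linarith)
      _ = X := Real.rpow_one _
  obtain ⟨j1, j2, j3, j4, j5⟩ := smp_rop (z := zz X) hj
  have hjs : 1 ≤ smp (zz X) j := Nat.pos_of_ne_zero j3.1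
  rw [la11_sum hS.sup hj]
  have hterm : ∀ s ∈ Icc 1 A, |∑ r ∈ Ioc (U / s) (V / s),
      la11_T (zz X) (MM η X) a j b c s r| ≤
      (Real.log X ^ C₀ * tau j ^ C₁ * tau c * Nat.gcd c b / Real.log X ^ k') *
        (tau s ^ C₁ * Nat.gcd c s / s) := by
    intro s hs
    rw [Finset.mem_Icc] at hs
    have hs0 : (0 : ℝ) < s := by exact_mod_cast hs.1
    have e1 : ∑ r ∈ Ioc (U / s) (V / s), la11_T (zz X) (MM η X) a j b c s r =
        (a (smp (zz X) j * s) * Real.sqrt (smp (zz X) j * s : ℕ) / s) *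
          ∑ r ∈ Ioc (U / s) (V / s), xr (zz X) (MM η X) 2 (rop (zz X) j * r) / r *
            cc c (s * b * r) := by
      rw [Finset.mul_sum]
      refine Finset.sum_congr rfl fun r hr => ?_
      unfold la11_T
      rw [show s * r * b = s * b * r by ring]
      have hr0 : (r : ℝ) ≠ 0 := by
        rw [Finset.mem_Ioc] at hr
        have : 0 < r := lt_of_le_of_lt (Nat.zero_le _) hr.1
        exact_mod_cast this.ne'
      field_simp
    rw [e1, abs_mul, abs_div, abs_mul, abs_of_nonneg (Real.sqrt_nonneg _), abs_of_pos hs0]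
    have h4 := hX1 X g1 (rop (zz X) j) (s * b) c j5 (Nat.mul_pos hs.1 hb) hc hcX (U / s) (V / s)
      (ad_room g4 (hX2 X g2) hε1 hs.1 ((Nat.cast_le.mpr hs.2).trans hAX) hU)
    have h5 := hab (smp (zz X) j * s)
    have h6 : tau (smp (zz X) j * s) ≤ tau j * tau s := by
      refine (la_tau_mul hjs hs.1).trans ?_
      refine mul_le_mul_of_nonneg_right (la11_tau_mono (by omega) ?_) (la11_tau_nonneg _)
      exact ⟨_, j1.symm⟩
    have h7 : tau (smp (zz X) j * s) ^ C₁ ≤ tau j ^ C₁ * tau s ^ C₁ := by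
      rw [← mul_pow]
      exact pow_le_pow_left₀ (la11_tau_nonneg _) h6 _
    have h8 : (Nat.gcd c (s * b) : ℝ) ≤ Nat.gcd c s * Nat.gcd c b := by
      exact_mod_cast la_gcd_mul c s b hc
    have hτj := la11_tau_nonneg j
    have hτs := la11_tau_nonneg s
    have hτc := la11_tau_nonneg c
    have h9 : |a (smp (zz X) j * s)| * Real.sqrt (smp (zz X) j * s : ℕ) / s ≤
        Real.log X ^ C₀ * (tau j ^ C₁ * tau s ^ C₁) / s := by
      refine div_le_div_of_nonneg_right (h5.trans ?_) hs0.le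
      exact mul_le_mul_of_nonneg_left h7 (by positivity)
    have h10 : |∑ r ∈ Ioc (U / s) (V / s), xr (zz X) (MM η X) 2 (rop (zz X) j * r) / r *
            cc c (s * b * r)| ≤ tau c * (Nat.gcd c s * Nat.gcd c b) / Real.log X ^ k' := by
      refine h4.trans (div_le_div_of_nonneg_right ?_ (by positivity))
      exact mul_le_mul_of_nonneg_left h8 hτc
    calc |a (smp (zz X) j * s)| * Real.sqrt (smp (zz X) j * s : ℕ) / s *
          |∑ r ∈ Ioc (U / s) (V / s), xr (zz X) (MM η X) 2 (rop (zz X) j * r) / r *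
            cc c (s * b * r)|
        ≤ (Real.log X ^ C₀ * (tau j ^ C₁ * tau s ^ C₁) / s) *
          (tau c * (Nat.gcd c s * Nat.gcd c b) / Real.log X ^ k') :=
          mul_le_mul h9 h10 (abs_nonneg _) (by positivity)
      _ = _ := by ring
  have hgs := la_gcd_sum C₁ A c hA1 hc
  have hpos : 0 ≤ Real.log X ^ C₀ * tau j ^ C₁ * tau c * Nat.gcd c b / Real.log X ^ k' := by
    have := la11_tau_nonneg j
    have := la11_tau_nonneg c
    positivity
  refine (Finset.abs_sum_le_sum_abs _ _).trans ((Finset.sum_le_sum hterm).trans ?_)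
  rw [← Finset.mul_sum]
  refine (mul_le_mul_of_nonneg_left hgs hpos).trans ?_
  have h11 : (1 + Real.log A) ^ (2 ^ C₁) ≤ Real.log X ^ (2 * 2 ^ C₁) := by
    have hA0 : (0 : ℝ) < A := by exact_mod_cast hA1
    have h12 : Real.log A ≤ Real.log X := Real.log_le_log hA0 hAX'
    have h13 : 0 ≤ Real.log A := Real.log_nonneg (by exact_mod_cast hA1)
    rw [pow_mul]
    refine pow_le_pow_left₀ (by linarith) ?_ _
    nlinarith
  have hτj := la11_tau_nonneg j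
  have hτc := la11_tau_nonneg c
  have hg0 : (0 : ℝ) ≤ Nat.gcd c b := Nat.cast_nonneg _
  calc Real.log X ^ C₀ * tau j ^ C₁ * tau c * Nat.gcd c b / Real.log X ^ k' *
        (tau c ^ (C₁ + 1) * (1 + Real.log A) ^ 2 ^ C₁)
      ≤ Real.log X ^ C₀ * tau j ^ C₁ * tau c * Nat.gcd c b / Real.log X ^ k' *
        (tau c ^ (C₁ + 1) * Real.log X ^ (2 * 2 ^ C₁)) :=
        mul_le_mul_of_nonneg_left (mul_le_mul_of_nonneg_left h11 (by positivity)) hpos
    _ = tau j ^ C₁ * tau c ^ (C₁ + 2) * Nat.gcd c b / Real.log X ^ k := by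
        rw [hk', pow_add, pow_add]
        field_simp
        ring

/-- pointwise bound -/
theorem ad_x_bound (C₀ C₁ : ℕ) {η : ℝ} (h0 : -(1 / 1000) ≤ η) (h1 : η ≤ 1 / 8) {ε₂ : ℝ} (h2 : 0 < ε₂)
    (h3 : ε₂ ≤ 1 / 100) : ∃ X₀ : ℕ, ∀ X : ℕ, X₀ ≤ X → ∀ a : ℕ → ℝ, Sht (zz X) (KA ε₂ X) a →
    (∀ n : ℕ, |a n| * Real.sqrt n ≤ Real.log X ^ C₀ * tau n ^ C₁) →
    ∀ e : ℕ, |xX (zz X) (MM η X) 2 a e| ≤ Real.log X ^ (C₀ + 2) * tau e ^ C₁ := by
  obtain ⟨X1, hX1⟩ := ad_xr_bound h0 h1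
  obtain ⟨X3, hX3⟩ := la11_log 4
  refine ⟨max X1 X3, fun X hX a hS hab e => ?_⟩
  have g1 : X1 ≤ X := (le_max_left _ _).trans hX
  have g3 : X3 ≤ X := (le_max_right _ _).trans hX
  have hL : 4 ≤ Real.log X := hX3 X g3
  have hL0 : 0 < Real.log X := by linarith
  have hτ := la11_tau_nonneg e
  unfold xX
  split_ifs with he
  · rw [abs_zero]
    positivity
  · have he1 : 1 ≤ e := Nat.pos_of_ne_zero he
    obtain ⟨j1, j2, j3, j4, j5⟩ := smp_rop (z := zz X) he1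
    rw [abs_mul, abs_mul, abs_of_nonneg (Real.sqrt_nonneg _)]
    have h4 := hab (smp (zz X) e)
    have h5 := hX1 X g1 (rop (zz X) e)
    have h6 : tau (smp (zz X) e) ^ C₁ ≤ tau e ^ C₁ :=
      pow_le_pow_left₀ (la11_tau_nonneg _) (la11_tau_mono he ⟨_, j1.symm⟩) _
    calc |a (smp (zz X) e)| * Real.sqrt (smp (zz X) e) *
          |xr (zz X) (MM η X) 2 (rop (zz X) e)|
        ≤ (Real.log X ^ C₀ * tau e ^ C₁) * (4 * Real.log X) := by
          refine mul_le_mul (h4.trans (mul_le_mul_of_nonneg_left h6 (by positivity))) h5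
            (abs_nonneg _) (by positivity)
      _ ≤ (Real.log X ^ C₀ * tau e ^ C₁) * (Real.log X * Real.log X) := by
          refine mul_le_mul_of_nonneg_left ?_ (by positivity)
          exact mul_le_mul_of_nonneg_right hL hL0.le
      _ = Real.log X ^ (C₀ + 2) * tau e ^ C₁ := by ring

end Pool.Agent.LSP
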