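import Pool.Agent.Lib_helper46.LSP2.AD1

/-!
# LSP2, module AD, part 2: the bilinear condition `mob`
-/

set_option autoImplicit false

namespace Pool.Agent.LSP

open Pool.Agent.LEV Pool.Agent.LVB Pool.Agent.KSL
open Pool.Agent.FG61 (mu phi cc ff AA Lam)
open Finset

/-- the hyperbola decomposition -/
theorem ad_split (z₁ z₂ Z : ℕ) (F : ℕ → ℕ → ℝ) (hZ : Z ≤ z₂) :
    ∑ n ∈ Ioc z₁ z₂, ∑ p ∈ n.divisorsAntidiagonal, F p.1 p.2 =
      ∑ b ∈ Icc 1 Z, ∑ m ∈ Ioc (z₁ / b) (z₂ / b), F m b +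
      ∑ b ∈ Ioc Z z₂, ∑ m ∈ Ioc (max (z₁ / b) Z) (z₂ / b), F m b +
      ∑ m ∈ Icc 1 Z, ∑ b ∈ Ioc (max (z₁ / m) Z) (z₂ / m), F m b := by
  rw [la12_pairs]
  have h1 : Icc 1 z₂ = Icc 1 Z ∪ Ioc Z z₂ := by
    ext n
    simp only [mem_union, mem_Icc, mem_Ioc]
    omega
  have hd : Disjoint (Icc 1 Z) (Ioc Z z₂) := by
    rw [Finset.disjoint_left]
    intro n
    simp only [mem_Icc, mem_Ioc]
    omega
  rw [h1, Finset.sum_union hd, add_assoc]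
  congr 1
  have h2 : ∀ b ∈ Ioc Z z₂, ∑ m ∈ Ioc (z₁ / b) (z₂ / b), F m b =
      ∑ m ∈ Ioc (max (z₁ / b) Z) (z₂ / b), F m b +
        ∑ m ∈ (Ioc (z₁ / b) (z₂ / b)).filter (fun m => m ≤ Z), F m b := by
    intro b _
    rw [← Finset.sum_filter_add_sum_filter_not _ (fun m => m ≤ Z), add_comm]
    congr 1
    apply Finset.sum_congr _ fun _ _ => rfl
    ext m
    simp only [mem_filter, mem_Ioc, max_lt_iff]
    omega
  rw [Finset.sum_congr rfl h2, Finset.sum_add_distrib]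
  congr 1
  rw [Finset.sum_sigma', Finset.sum_sigma']
  refine Finset.sum_nbij' (fun x => ⟨x.2, x.1⟩) (fun y => ⟨y.2, y.1⟩) ?_ ?_ ?_ ?_ ?_
  · rintro ⟨b, m⟩ h
    simp only [mem_sigma, mem_filter, mem_Ioc, mem_Icc, max_lt_iff] at h ⊢
    obtain ⟨⟨h1, h2⟩, ⟨h3, h4⟩, h5⟩ := h
    have hb : 0 < b := by omega
    have hm : 0 < m := Nat.zero_lt_of_lt h3
    rw [Nat.div_lt_iff_lt_mul hb] at h3
    rw [Nat.le_div_iff_mul_le hb] at h4
    refine ⟨⟨hm, h5⟩, ⟨?_, h1⟩, ?_⟩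
    · rw [Nat.div_lt_iff_lt_mul hm, mul_comm]; exact h3
    · rw [Nat.le_div_iff_mul_le hm, mul_comm]; exact h4
  · rintro ⟨m, b⟩ h
    simp only [mem_sigma, mem_filter, mem_Ioc, mem_Icc, max_lt_iff] at h ⊢
    obtain ⟨⟨h1, h5⟩, ⟨h3, h2⟩, h4⟩ := h
    have hm : 0 < m := h1
    have hb : 0 < b := Nat.zero_lt_of_lt h2
    rw [Nat.div_lt_iff_lt_mul hm] at h3
    rw [Nat.le_div_iff_mul_le hm] at h4
    refine ⟨⟨h2, ?_⟩, ⟨?_, ?_⟩, h5⟩
    · calc b ≤ b * m := Nat.le_mul_of_pos_right _ hm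
        _ ≤ z₂ := h4
    · rw [Nat.div_lt_iff_lt_mul hb, mul_comm]; exact h3
    · rw [Nat.le_div_iff_mul_le hb, mul_comm]; exact h4
  · rintro ⟨b, m⟩ _
    rfl
  · rintro ⟨b, m⟩ _
    rfl
  · rintro ⟨b, m⟩ _
    rfl

/-- the general estimate, bilinear -/
theorem ad_one {E C₁ c j : ℕ} (hE : 1 ≤ E) (hc : 1 ≤ c) (hj : 1 ≤ j) {x y : ℕ → ℝ} {P Q : ℝ}
    (hP : 0 ≤ P) (hQ : 0 ≤ Q) (hy : ∀ e, y e ≠ 0 → 1 ≤ e ∧ e ≤ E)
    (hb : ∀ e, |y e| ≤ P * tau e ^ C₁) (s : Finset ℕ) (hs : ∀ b ∈ s, 1 ≤ b) (U V : ℕ → ℕ)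
    (h : ∀ b ∈ s, |∑ m ∈ Ioc (U b) (V b), x (j * m) / m * cc c (m * b)| ≤
      tau j ^ C₁ * tau c ^ (C₁ + 2) * Nat.gcd c b * Q) :
    |∑ b ∈ s, ∑ m ∈ Ioc (U b) (V b), x (j * m) / m * (y (j * b) / b) * cc c (m * b)| ≤
      P * Q * tau j ^ (2 * C₁) * tau c ^ (2 * C₁ + 3) * (1 + Real.log E) ^ (2 ^ C₁) := by
  have ht : ∀ n, 0 ≤ tau n := fun n => by unfold tau; positivity
  have h1 : ∀ b ∈ s, |∑ m ∈ Ioc (U b) (V b), x (j * m) / m * (y (j * b) / b) * cc c (m * b)| ≤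
      if b ≤ E then P * Q * tau j ^ (2 * C₁) * tau c ^ (C₁ + 2) *
        (tau b ^ C₁ * Nat.gcd c b / b) else 0 := by
    intro b hbs
    have hb1 := hs b hbs
    have hb0 : (0 : ℝ) < b := by exact_mod_cast hb1
    have e1 : ∑ m ∈ Ioc (U b) (V b), x (j * m) / m * (y (j * b) / b) * cc c (m * b) =
        (y (j * b) / b) * ∑ m ∈ Ioc (U b) (V b), x (j * m) / m * cc c (m * b) := by
      rw [Finset.mul_sum]
      exact Finset.sum_congr rfl fun _ _ => by ring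
    rw [e1, abs_mul, abs_div, abs_of_pos hb0]
    split_ifs with hbE
    · have h2 : |y (j * b)| ≤ P * (tau j ^ C₁ * tau b ^ C₁) := by
        refine (hb _).trans ?_
        rw [← mul_pow]
        exact mul_le_mul_of_nonneg_left (pow_le_pow_left₀ (ht _) (la_tau_mul hj hb1) _) hP
      calc |y (j * b)| / b * |∑ m ∈ Ioc (U b) (V b), x (j * m) / m * cc c (m * b)|
          ≤ (P * (tau j ^ C₁ * tau b ^ C₁)) / b *
            (tau j ^ C₁ * tau c ^ (C₁ + 2) * Nat.gcd c b * Q) := by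
            apply mul_le_mul _ (h b hbs) (abs_nonneg _)
            · have := ht j; have := ht b; positivity
            · exact div_le_div_of_nonneg_right h2 hb0.le
        _ = _ := by
            rw [two_mul, pow_add]
            ring
    · have h2 : y (j * b) = 0 := by
        by_contra h3
        have h4 := (hy _ h3).2
        have h5 : b ≤ j * b := Nat.le_mul_of_pos_left b hj
        omega
      rw [h2]
      simp
  refine (Finset.abs_sum_le_sum_abs _ _).trans ((Finset.sum_le_sum h1).trans ?_)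
  have h2 : ∑ b ∈ s, (if b ≤ E then P * Q * tau j ^ (2 * C₁) * tau c ^ (C₁ + 2) *
        (tau b ^ C₁ * Nat.gcd c b / b) else 0) ≤
      ∑ b ∈ Icc 1 E, P * Q * tau j ^ (2 * C₁) * tau c ^ (C₁ + 2) *
        (tau b ^ C₁ * Nat.gcd c b / b) := by
    rw [← Finset.sum_filter]
    apply Finset.sum_le_sum_of_subset_of_nonneg
    · intro b hb
      obtain ⟨h3, h4⟩ := Finset.mem_filter.1 hb
      exact Finset.mem_Icc.2 ⟨hs b h3, h4⟩
    · intro b _ _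
      have := ht j; have := ht b; have := ht c
      positivity
  refine h2.trans ?_
  rw [← Finset.mul_sum]
  have h3 := la_gcd_sum C₁ E c hE hc
  calc P * Q * tau j ^ (2 * C₁) * tau c ^ (C₁ + 2) *
        ∑ b ∈ Icc 1 E, tau b ^ C₁ * Nat.gcd c b / b
      ≤ P * Q * tau j ^ (2 * C₁) * tau c ^ (C₁ + 2) *
        (tau c ^ (C₁ + 1) * (1 + Real.log E) ^ (2 ^ C₁)) := by
        apply mul_le_mul_of_nonneg_left h3
        have := ht j; have := ht c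
        positivity
    _ = _ := by
        rw [show 2 * C₁ + 3 = (C₁ + 2) + (C₁ + 1) by ring, pow_add (tau c)]
        ring

/-- the bilinear coefficients (the same as in Defs2) -/
theorem ad_expand (E c z₁ z₂ : ℕ) (x y : ℕ → ℝ) :
    ∑ n ∈ Ioc z₁ z₂, (∑ j ∈ Icc 1 E, (1 / (j : ℝ)) *
        ∑ p ∈ n.divisorsAntidiagonal, x (j * p.1) * y (j * p.2) / n) * cc c n =
      ∑ j ∈ Icc 1 E, (1 / (j : ℝ)) * ∑ n ∈ Ioc z₁ z₂, ∑ p ∈ n.divisorsAntidiagonal,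
        x (j * p.1) / p.1 * (y (j * p.2) / p.2) * cc c (p.1 * p.2) := by
  have h1 : ∀ n ∈ Ioc z₁ z₂, (∑ j ∈ Icc 1 E, (1 / (j : ℝ)) *
        ∑ p ∈ n.divisorsAntidiagonal, x (j * p.1) * y (j * p.2) / n) * cc c n =
      ∑ j ∈ Icc 1 E, (1 / (j : ℝ)) *
      ∑ p ∈ n.divisorsAntidiagonal, x (j * p.1) / p.1 * (y (j * p.2) / p.2) *
        cc c (p.1 * p.2) := by
    intro n _
    rw [Finset.sum_mul]
    refine Finset.sum_congr rfl fun j _ => ?_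
    rw [mul_assoc, Finset.sum_mul]
    congr 1
    refine Finset.sum_congr rfl fun p hp => ?_
    obtain ⟨h2, h3⟩ := Nat.mem_divisorsAntidiagonal.1 hp
    have h4 : (n : ℝ) = p.1 * p.2 := by rw [← h2]; push_cast; ring
    rw [h2, h4, div_mul_div_comm]
  rw [Finset.sum_congr rfl h1, Finset.sum_comm]
  refine Finset.sum_congr rfl fun j _ => ?_
  rw [Finset.mul_sum]

/-- the deterministic part of the condition `mob` -/
theorem ad_core {C₀ C₁ B' : ℕ} {X E c z₁ z₂ : ℕ} {x y : ℕ → ℝ} (hE : 1 ≤ E) (hEX : (E : ℝ) ≤ X)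
    (hX : 1 ≤ X) (hL1 : 1 ≤ Real.log X) (hc : 1 ≤ c)
    (hL : 3 * 2 ^ (2 ^ C₁ + 2 ^ (2 * C₁)) ≤ Real.log X)
    (hx : ∀ e, x e ≠ 0 → 1 ≤ e ∧ e ≤ E) (hy : ∀ e, y e ≠ 0 → 1 ≤ e ∧ e ≤ E)
    (hxb : ∀ e, |x e| ≤ Real.log X ^ (C₀ + 2) * tau e ^ C₁)
    (hyb : ∀ e, |y e| ≤ Real.log X ^ (C₀ + 2) * tau e ^ C₁)
    (hxc : ∀ j b : ℕ, 1 ≤ j → 1 ≤ b → ∀ U V : ℕ, (X : ℝ) ^ (1 / 5 : ℝ) - 1 ≤ U →
      |∑ m ∈ Ioc U V, x (j * m) / m * cc c (m * b)| ≤ tau j ^ C₁ * tau c ^ (C₁ + 2) *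
        Nat.gcd c b / Real.log X ^ (B' + (C₀ + 2) + (2 ^ C₁ + 2 ^ (2 * C₁)) + 1))
    (hyc : ∀ j b : ℕ, 1 ≤ j → 1 ≤ b → ∀ U V : ℕ, (X : ℝ) ^ (1 / 5 : ℝ) - 1 ≤ U →
      |∑ m ∈ Ioc U V, y (j * m) / m * cc c (m * b)| ≤ tau j ^ C₁ * tau c ^ (C₁ + 2) *
        Nat.gcd c b / Real.log X ^ (B' + (C₀ + 2) + (2 ^ C₁ + 2 ^ (2 * C₁)) + 1))
    (hz : (X : ℝ) ^ (2 / 5 : ℝ) ≤ z₁) :
    |∑ n ∈ Ioc z₁ z₂, (∑ j ∈ Icc 1 E, (1 / (j : ℝ)) *
        ∑ p ∈ n.divisorsAntidiagonal, x (j * p.1) * y (j * p.2) / n) * cc c n| ≤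
      tau c ^ (2 * C₁ + 3) / Real.log X ^ B' := by
  set p : ℕ := 2 ^ C₁ + 2 ^ (2 * C₁) with hp
  set k : ℕ := B' + (C₀ + 2) + p + 1 with hk
  have hX1 : (1 : ℝ) ≤ X := by exact_mod_cast hX
  have hX0 : (0 : ℝ) < X := by linarith
  set L : ℝ := Real.log X with hLdef
  have hlE0 : 0 ≤ Real.log E := Real.log_nonneg (by exact_mod_cast hE)
  have hlE : 1 + Real.log E ≤ 2 * L := by
    have := Real.log_le_log (by exact_mod_cast hE : (0 : ℝ) < E) hEX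
    linarith
  have hL0 : 0 < L := by linarith
  have ht : ∀ n, 0 ≤ tau n := fun n => by unfold tau; positivity
  by_cases hzz : z₂ ≤ z₁
  · rw [Finset.Ioc_eq_empty (by omega)]
    simp only [Finset.sum_empty, abs_zero]
    have := ht c
    positivity
  push Not at hzz
  set Z : ℕ := ⌊(X : ℝ) ^ (1 / 5 : ℝ)⌋₊ with hZ
  have hZle : (Z : ℝ) ≤ (X : ℝ) ^ (1 / 5 : ℝ) := Nat.floor_le (by positivity)
  have hZge : (X : ℝ) ^ (1 / 5 : ℝ) - 1 ≤ Z := by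
    have := Nat.lt_floor_add_one ((X : ℝ) ^ (1 / 5 : ℝ))
    linarith
  have hq : (X : ℝ) ^ (1 / 5 : ℝ) * (X : ℝ) ^ (1 / 5 : ℝ) = (X : ℝ) ^ (2 / 5 : ℝ) := by
    rw [← Real.rpow_add hX0]; norm_num
  have hq0 : 0 < (X : ℝ) ^ (1 / 5 : ℝ) := by positivity
  have hq1 : 1 ≤ (X : ℝ) ^ (1 / 5 : ℝ) := Real.one_le_rpow (by linarith) (by norm_num)
  have hZz : Z ≤ z₂ := by
    have : (Z : ℝ) ≤ z₁ := by nlinarith
    have : Z ≤ z₁ := by exact_mod_cast this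
    omega
  have hU : ∀ b ∈ Icc 1 Z, (X : ℝ) ^ (1 / 5 : ℝ) - 1 ≤ ((z₁ / b : ℕ) : ℝ) := by
    intro b hb
    obtain ⟨hb1, hb2⟩ := Finset.mem_Icc.1 hb
    have hb0 : (0 : ℝ) < b := by exact_mod_cast hb1
    have hb3 : (b : ℝ) ≤ (X : ℝ) ^ (1 / 5 : ℝ) := le_trans (by exact_mod_cast hb2) hZle
    have h4 : (z₁ : ℝ) < b * ((z₁ / b : ℕ) + 1) := by
      exact_mod_cast Nat.lt_mul_div_succ z₁ hb1
    have h5 : (X : ℝ) ^ (1 / 5 : ℝ) ≤ (z₁ : ℝ) / b := by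
      rw [le_div_iff₀ hb0]
      nlinarith
    have h6 : (z₁ : ℝ) / b < (z₁ / b : ℕ) + 1 := by
      rw [div_lt_iff₀ hb0]; linarith
    linarith
  have key : ∀ j ∈ Icc 1 E, |∑ n ∈ Ioc z₁ z₂, ∑ p ∈ n.divisorsAntidiagonal,
        x (j * p.1) / p.1 * (y (j * p.2) / p.2) * cc c (p.1 * p.2)| ≤
      3 * (L ^ (C₀ + 2) * (1 / L ^ k) * tau j ^ (2 * C₁) * tau c ^ (2 * C₁ + 3) *
        (1 + Real.log E) ^ (2 ^ C₁)) := by
    intro j hj
    have hj1 := (Finset.mem_Icc.1 hj).1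
    rw [ad_split z₁ z₂ Z (fun m b => x (j * m) / m * (y (j * b) / b) * cc c (m * b)) hZz]
    have t1 := ad_one (C₁ := C₁) (x := x) hE hc hj1 (P := L ^ (C₀ + 2)) (Q := 1 / L ^ k)
      (by positivity) (by positivity) hy hyb (Icc 1 Z)
      (fun b hb => (Finset.mem_Icc.1 hb).1) (fun b => z₁ / b) (fun b => z₂ / b)
      (fun b hb => by
        have := hxc j b hj1 (Finset.mem_Icc.1 hb).1 (z₁ / b) (z₂ / b) (hU b hb)
        rw [div_eq_mul_one_div] at this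
        exact this)
    have t2 := ad_one (C₁ := C₁) (x := x) hE hc hj1 (P := L ^ (C₀ + 2)) (Q := 1 / L ^ k)
      (by positivity) (by positivity) hy hyb (Ioc Z z₂)
      (fun b hb => by have := (Finset.mem_Ioc.1 hb).1; omega) (fun b => max (z₁ / b) Z)
      (fun b => z₂ / b)
      (fun b hb => by
        have := hxc j b hj1 (by have := (Finset.mem_Ioc.1 hb).1; omega)
          (max (z₁ / b) Z) (z₂ / b) (hZge.trans (by exact_mod_cast le_max_right _ _))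
        rw [div_eq_mul_one_div] at this
        exact this)
    have t3 := ad_one (C₁ := C₁) (x := y) (y := x) hE hc hj1 (P := L ^ (C₀ + 2))
      (Q := 1 / L ^ k)
      (by positivity) (by positivity) hx hxb (Icc 1 Z)
      (fun b hb => (Finset.mem_Icc.1 hb).1) (fun b => max (z₁ / b) Z) (fun b => z₂ / b)
      (fun b hb => by
        have := hyc j b hj1 (Finset.mem_Icc.1 hb).1
          (max (z₁ / b) Z) (z₂ / b) (hZge.trans (by exact_mod_cast le_max_right _ _))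
        rw [div_eq_mul_one_div] at this
        exact this)
    have e3 : ∑ m ∈ Icc 1 Z, ∑ b ∈ Ioc (max (z₁ / m) Z) (z₂ / m),
        (fun m b => x (j * m) / m * (y (j * b) / b) * cc c (m * b)) m b =
        ∑ b ∈ Icc 1 Z, ∑ m ∈ Ioc (max (z₁ / b) Z) (z₂ / b),
          y (j * m) / m * (x (j * b) / b) * cc c (m * b) := by
      refine Finset.sum_congr rfl fun m _ => Finset.sum_congr rfl fun b _ => ?_
      show x (j * m) / m * (y (j * b) / b) * cc c (m * b) =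
        y (j * b) / b * (x (j * m) / m) * cc c (b * m)
      rw [mul_comm b m]
      ring
    rw [e3]
    refine (abs_add_three _ _ _).trans ?_
    linarith
  rw [ad_expand]
  calc |∑ j ∈ Icc 1 E, (1 / (j : ℝ)) * ∑ n ∈ Ioc z₁ z₂, ∑ p ∈ n.divisorsAntidiagonal,
        x (j * p.1) / p.1 * (y (j * p.2) / p.2) * cc c (p.1 * p.2)|
      ≤ ∑ j ∈ Icc 1 E, (1 / (j : ℝ)) * (3 * (L ^ (C₀ + 2) * (1 / L ^ k) * tau j ^ (2 * C₁) *
        tau c ^ (2 * C₁ + 3) * (1 + Real.log E) ^ (2 ^ C₁))) := by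
        refine (Finset.abs_sum_le_sum_abs _ _).trans (Finset.sum_le_sum fun j hj => ?_)
        rw [abs_mul, abs_of_nonneg (by positivity : (0 : ℝ) ≤ 1 / j)]
        exact mul_le_mul_of_nonneg_left (key j hj) (by positivity)
    _ = 3 * (L ^ (C₀ + 2) * (1 / L ^ k) * tau c ^ (2 * C₁ + 3) *
        (1 + Real.log E) ^ (2 ^ C₁)) * ∑ j ∈ Icc 1 E, tau j ^ (2 * C₁) / j := by
        rw [Finset.mul_sum]
        exact Finset.sum_congr rfl fun j _ => by ring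
    _ ≤ 3 * (L ^ (C₀ + 2) * (1 / L ^ k) * tau c ^ (2 * C₁ + 3) *
        (1 + Real.log E) ^ (2 ^ C₁)) * (1 + Real.log E) ^ (2 ^ (2 * C₁)) := by
        apply mul_le_mul_of_nonneg_left (la_tau_sum (2 * C₁) E hE)
        have := ht c
        positivity
    _ = 3 * (L ^ (C₀ + 2) * (1 / L ^ k) * tau c ^ (2 * C₁ + 3) * (1 + Real.log E) ^ p) := by
        rw [hp, pow_add]; ring
    _ ≤ 3 * (L ^ (C₀ + 2) * (1 / L ^ k) * tau c ^ (2 * C₁ + 3) * (2 * L) ^ p) := by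
        have h4 : (1 + Real.log E) ^ p ≤ (2 * L) ^ p :=
          pow_le_pow_left₀ (by linarith) hlE p
        have h5 : 0 ≤ L ^ (C₀ + 2) * (1 / L ^ k) * tau c ^ (2 * C₁ + 3) := by
          have := ht c
          positivity
        have := mul_le_mul_of_nonneg_left h4 h5
        linarith
    _ = (3 * 2 ^ p) * tau c ^ (2 * C₁ + 3) * (L ^ (C₀ + 2) * L ^ p / L ^ k) := by
        rw [mul_pow]; ring
    _ ≤ L * tau c ^ (2 * C₁ + 3) * (L ^ (C₀ + 2) * L ^ p / L ^ k) := by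
        have := ht c
        apply mul_le_mul_of_nonneg_right _ (by positivity)
        exact mul_le_mul_of_nonneg_right hL (by positivity)
    _ = tau c ^ (2 * C₁ + 3) / L ^ B' := by
        rw [hk]
        rw [show B' + (C₀ + 2) + p + 1 = B' + ((C₀ + 2) + p + 1) by ring, pow_add L B',
          pow_succ L ((C₀ + 2) + p), pow_add L (C₀ + 2) p]
        field_simp

/-- **The bilinear condition `mob`**, for two mollifiers of lengths `X ^ (1/2 - η)` and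
`X ^ (1/2 - η')`. -/
theorem ad_mob (C₀ C₁ B' : ℕ) {η η' : ℝ} (h0 : -(1 / 1000) ≤ η) (h1 : η ≤ 1 / 8)
    (h0' : -(1 / 1000) ≤ η') (h1' : η' ≤ 1 / 8) {ε₂ : ℝ} (h2 : 0 < ε₂) (h3 : ε₂ ≤ 1 / 100) :
    ∃ X₀ : ℕ, ∀ X : ℕ, X₀ ≤ X → ∀ a a' : ℕ → ℝ, Sht (zz X) (KA ε₂ X) a →
    Sht (zz X) (KA ε₂ X) a' →
    (∀ n : ℕ, |a n| * Real.sqrt n ≤ Real.log X ^ C₀ * tau n ^ C₁) →
    (∀ n : ℕ, |a' n| * Real.sqrt n ≤ Real.log X ^ C₀ * tau n ^ C₁) →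
    ∀ E : ℕ, QA (MM η X) 2 (KA ε₂ X) ≤ E → QA (MM η' X) 2 (KA ε₂ X) ≤ E → E ≤ X →
    ∀ c z₁ z₂ : ℕ, 1 ≤ c → (c : ℝ) ≤ (X : ℝ) ^ (1 / 100 : ℝ) → (X : ℝ) ^ (2 / 5 : ℝ) ≤ z₁ →
      |∑ n ∈ Ioc z₁ z₂, (∑ j ∈ Icc 1 E, (1 / (j : ℝ)) *
        ∑ p ∈ n.divisorsAntidiagonal, xX (zz X) (MM η X) 2 a (j * p.1) *
          xX (zz X) (MM η' X) 2 a' (j * p.2) / n) * cc c n| ≤
        tau c ^ (2 * C₁ + 3) / Real.log X ^ B' := by
  set k : ℕ := B' + (C₀ + 2) + (2 ^ C₁ + 2 ^ (2 * C₁)) + 1 with hk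
  obtain ⟨X1, hX1⟩ := ad_x_cc C₀ C₁ k h0 h1 h2 h3
  obtain ⟨X2, hX2⟩ := ad_x_bound C₀ C₁ h0 h1 h2 h3
  obtain ⟨X1', hX1'⟩ := ad_x_cc C₀ C₁ k h0' h1' h2 h3
  obtain ⟨X2', hX2'⟩ := ad_x_bound C₀ C₁ h0' h1' h2 h3
  obtain ⟨X3, hX3⟩ := ad_sizes h0 h1
  obtain ⟨X4, hX4⟩ := la11_log (3 * 2 ^ (2 ^ C₁ + 2 ^ (2 * C₁)))
  refine ⟨max (max (max X1 X2) (max X1' X2')) (max (max X3 X4) 16), ?_⟩
  intro X hX a a' ha ha' hab hab' E hE hE' hEX c z₁ z₂ hc hcX hz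
  have g1 : X1 ≤ X := by omega
  have g2 : X2 ≤ X := by omega
  have g1' : X1' ≤ X := by omega
  have g2' : X2' ≤ X := by omega
  have g3 : X3 ≤ X := by omega
  have g4 : X4 ≤ X := by omega
  have g5 : 1 ≤ X := by omega
  obtain ⟨s1, s2, s3, s4, s5, s6, s7, s8⟩ := hX3 X g3
  have hX1r : (1 : ℝ) ≤ X := by exact_mod_cast g5
  have hA : 1 ≤ KA ε₂ X := by
    unfold KA
    rw [Nat.one_le_floor_iff]
    exact Real.one_le_rpow hX1r h2.le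
  have hE1 : 1 ≤ E := by
    refine le_trans ?_ hE
    unfold QA
    have : 1 ≤ MM η X := by omega
    exact Nat.mul_pos (Nat.mul_pos two_pos this) hA
  refine ad_core (C₀ := C₀) hE1 (by exact_mod_cast hEX) g5 s5 hc (hX4 X g4) ?_ ?_
    (hX2 X g2 a ha hab) (hX2' X g2' a' ha' hab') ?_ ?_ hz
  · intro e he
    have h := la12_supp ha he
    exact ⟨h.1, h.2.trans hE⟩
  · intro e he
    have h := la12_supp ha' he
    exact ⟨h.1, h.2.trans hE'⟩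
  · intro j b hj hb U V hU
    exact hX1 X g1 a ha hab j b c hj hb hc hcX U V hU
  · intro j b hj hb U V hU
    exact hX1' X g1' a' ha' hab' j b c hj hb hc hcX U V hU

end Pool.Agent.LSP
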