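import Pool.Agent.Lib_helper46.LSP2.AD2
import Pool.Agent.Lib_helper41.LSP2.Defs2
import Pool.Agent.Lib_helper15.LSPF.SIB
import Pool.Agent.Lib_helper15.LSPF.CCB

/-!
# LSP2, module AD, part 3: `adm2`
-/

set_option autoImplicit false

namespace Pool.Agent.LSP

open Pool.Agent.LEV Pool.Agent.LVB Pool.Agent.KSL
open Pool.Agent.FG61 (mu phi cc ff AA Lam)
open Finset

/-! ## The bilinear coefficients -/

theorem ad_cb_symm (E : ℕ) (x y : ℕ → ℝ) (n : ℕ) : CB E x y n = CB E y x n := by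
  unfold CB
  refine Finset.sum_congr rfl fun j _ => ?_
  congr 1
  refine Finset.sum_nbij' Prod.swap Prod.swap
    (fun p hp => Nat.swap_mem_divisorsAntidiagonal.2 hp)
    (fun p hp => Nat.swap_mem_divisorsAntidiagonal.2 hp) (fun p _ => Prod.swap_swap p)
    (fun p _ => Prod.swap_swap p) (fun p _ => ?_)
  show x (j * p.1) * y (j * p.2) / (n : ℝ) = y (j * p.2) * x (j * p.1) / (n : ℝ)
  rw [mul_comm (x _)]

theorem ad_cb_add (E : ℕ) (x y : ℕ → ℝ) (n : ℕ) :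
    CC E (fun e => x e + y e) n = CC E x n + 2 * CB E x y n + CC E y n := by
  have h1 : CC E (fun e => x e + y e) n = CC E x n + (CB E x y n + CB E y x n) + CC E y n := by
    unfold CC CB
    rw [← Finset.sum_add_distrib, ← Finset.sum_add_distrib, ← Finset.sum_add_distrib]
    refine Finset.sum_congr rfl fun j _ => ?_
    rw [← mul_add, ← mul_add, ← mul_add, ← Finset.sum_add_distrib, ← Finset.sum_add_distrib,
      ← Finset.sum_add_distrib]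
    congr 1
    refine Finset.sum_congr rfl fun p _ => ?_
    ring
  rw [h1, ad_cb_symm E y x]
  ring

theorem ad_cb_sigma {E : ℕ} {x y : ℕ → ℝ} (hx : ∀ e, x e ≠ 0 → 1 ≤ e ∧ e ≤ E)
    (hy : ∀ e, y e ≠ 0 → 1 ≤ e ∧ e ≤ E) :
    ∑ n ∈ Finset.Icc 1 (E ^ 2), CB E x y n * sg1 n =
      (∑ e ∈ Finset.Icc 1 E, x e * sg1 e / e) * (∑ e ∈ Finset.Icc 1 E, y e * sg1 e / e) := by
  have hxy : ∀ e, x e + y e ≠ 0 → 1 ≤ e ∧ e ≤ E := by
    intro e he
    by_cases h : x e = 0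
    · apply hy
      intro h2
      apply he
      rw [h, h2, add_zero]
    · exact hx e h
  have h1 := LSPP.cc_sigma_pr hx
  have h2 := LSPP.cc_sigma_pr hy
  have h3 := LSPP.cc_sigma_pr (x := fun e => x e + y e) hxy
  have h4 : ∑ n ∈ Finset.Icc 1 (E ^ 2), CC E (fun e => x e + y e) n * sg1 n =
      ∑ n ∈ Finset.Icc 1 (E ^ 2), CC E x n * sg1 n +
        2 * ∑ n ∈ Finset.Icc 1 (E ^ 2), CB E x y n * sg1 n +
        ∑ n ∈ Finset.Icc 1 (E ^ 2), CC E y n * sg1 n := by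
    rw [Finset.mul_sum, ← Finset.sum_add_distrib, ← Finset.sum_add_distrib]
    refine Finset.sum_congr rfl fun n _ => ?_
    rw [ad_cb_add]
    ring
  have h5 : ∑ e ∈ Finset.Icc 1 E, (x e + y e) * sg1 e / e =
      ∑ e ∈ Finset.Icc 1 E, x e * sg1 e / e + ∑ e ∈ Finset.Icc 1 E, y e * sg1 e / e := by
    rw [← Finset.sum_add_distrib]
    refine Finset.sum_congr rfl fun e _ => ?_
    ring
  rw [h4, h1, h2, h5] at h3
  linarith

theorem ad_cb_supp {E E₁ E₂ : ℕ} {x y : ℕ → ℝ} (hx : ∀ e, x e ≠ 0 → 1 ≤ e ∧ e ≤ E₁)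
    (hy : ∀ e, y e ≠ 0 → 1 ≤ e ∧ e ≤ E₂) {n : ℕ} (hn : CB E x y n ≠ 0) : n ≤ E₁ * E₂ := by
  unfold CB at hn
  obtain ⟨j, hj, h1⟩ := Finset.exists_ne_zero_of_sum_ne_zero hn
  obtain ⟨p, hp, h2⟩ := Finset.exists_ne_zero_of_sum_ne_zero (right_ne_zero_of_mul h1)
  rw [Nat.mem_divisorsAntidiagonal] at hp
  have hj1 := (Finset.mem_Icc.1 hj).1
  have h3 : x (j * p.1) ≠ 0 := fun h => h2 (by rw [h]; simp)
  have h4 : y (j * p.2) ≠ 0 := fun h => h2 (by rw [h]; simp)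
  have h5 := (hx _ h3).2
  have h6 := (hy _ h4).2
  have h7 : p.1 ≤ E₁ := (Nat.le_mul_of_pos_left _ hj1).trans h5
  have h8 : p.2 ≤ E₂ := (Nat.le_mul_of_pos_left _ hj1).trans h6
  rw [← hp.1]
  exact Nat.mul_le_mul h7 h8

theorem ad_cb_le {E : ℕ} {x y : ℕ → ℝ} {b : ℝ} (hx : ∀ e, |x e| ≤ b) (hy : ∀ e, |y e| ≤ b)
    (n : ℕ) : |CB E x y n| ≤ (1 + Real.log E) * (tau n * (b * b / n)) := by
  have hb0 : 0 ≤ b := (abs_nonneg _).trans (hx 0)
  have h0 : ∀ j : ℕ, |∑ p ∈ n.divisorsAntidiagonal, x (j * p.1) * y (j * p.2) / n| ≤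
      tau n * (b * b / n) := by
    intro j
    refine (Finset.abs_sum_le_sum_abs _ _).trans ?_
    have h1 : ∀ p ∈ n.divisorsAntidiagonal, |x (j * p.1) * y (j * p.2) / n| ≤ b * b / n := by
      intro p _
      rw [abs_div, abs_mul, Nat.abs_cast]
      exact div_le_div_of_nonneg_right (mul_le_mul (hx _) (hy _) (abs_nonneg _) hb0)
        (Nat.cast_nonneg _)
    refine (Finset.sum_le_sum h1).trans (le_of_eq ?_)
    rw [Finset.sum_const, nsmul_eq_mul]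
    unfold tau
    rw [← Nat.map_div_right_divisors, Finset.card_map]
  unfold CB
  refine (Finset.abs_sum_le_sum_abs _ _).trans ?_
  have hT : 0 ≤ tau n * (b * b / n) := (abs_nonneg _).trans (h0 0)
  calc ∑ j ∈ Finset.Icc 1 E, |(1 / (j : ℝ)) *
        ∑ p ∈ n.divisorsAntidiagonal, x (j * p.1) * y (j * p.2) / n|
      ≤ ∑ j ∈ Finset.Icc 1 E, (1 / (j : ℝ)) * (tau n * (b * b / n)) := by
        apply Finset.sum_le_sum
        intro j _
        rw [abs_mul, abs_of_nonneg (by positivity : (0 : ℝ) ≤ 1 / (j : ℝ))]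
        exact mul_le_mul_of_nonneg_left (h0 j) (by positivity)
    _ = (∑ j ∈ Finset.Icc 1 E, (1 / (j : ℝ))) * (tau n * (b * b / n)) := by
        rw [Finset.sum_mul]
    _ ≤ (1 + Real.log E) * (tau n * (b * b / n)) :=
        mul_le_mul_of_nonneg_right LSPP.ccb_harm hT

/-! ## Sizes -/

/-- pointwise bound by a small power of `X` -/
theorem ad_pow_bound (C₀ C₁ : ℕ) {η : ℝ} (h0 : -(1 / 1000) ≤ η) (h1 : η ≤ 1 / 8) {ε₂ : ℝ}
    (h2 : 0 < ε₂) (h3 : ε₂ ≤ 1 / 100) {s : ℝ} (hs : 0 < s) :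
    ∃ X₀ : ℕ, ∀ X : ℕ, X₀ ≤ X → ∀ a : ℕ → ℝ, Sht (zz X) (KA ε₂ X) a →
    (∀ n : ℕ, |a n| * Real.sqrt n ≤ Real.log X ^ C₀ * tau n ^ C₁) →
    ∀ e : ℕ, |xX (zz X) (MM η X) 2 a e| ≤ (X : ℝ) ^ s := by
  have hη : 0 < s / (4 * (C₁ + 1)) := by positivity
  obtain ⟨D, hD0, hD⟩ := Pool.Agent.FG61.divisor_bound hη
  obtain ⟨X1, hX1⟩ := ad_x_bound C₀ C₁ h0 h1 h2 h3
  obtain ⟨X2, hX2⟩ := la13_logpow (s / 2) (by positivity) (D ^ C₁) (C₀ + 2)
  obtain ⟨X3, hX3⟩ := ad_sizes h0 h1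
  refine ⟨max (max X1 X2) (max X3 1), fun X hX a ha hab e => ?_⟩
  have g1 : X1 ≤ X := by omega
  have g2 : X2 ≤ X := by omega
  have g3 : X3 ≤ X := by omega
  have g4 : 1 ≤ X := by omega
  have hX' : (1 : ℝ) ≤ X := by exact_mod_cast g4
  have hX0 : (0 : ℝ) < X := by linarith
  obtain ⟨s1, s2, s3, s4, s5, s6, s7, s8⟩ := hX3 X g3
  by_cases he0 : xX (zz X) (MM η X) 2 a e = 0
  · rw [he0, abs_zero]
    positivity
  obtain ⟨he1, he2⟩ := la12_supp ha he0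
  have hAX : (KA ε₂ X : ℝ) ≤ (X : ℝ) ^ ε₂ := by
    unfold KA
    exact Nat.floor_le (by positivity)
  have heX : (e : ℝ) ≤ (X : ℝ) ^ (2 : ℝ) := by
    calc (e : ℝ) ≤ ((QA (MM η X) 2 (KA ε₂ X) : ℕ) : ℝ) := by exact_mod_cast he2
      _ = 2 * (MM η X : ℝ) * (KA ε₂ X : ℝ) := by unfold QA; push_cast; ring
      _ ≤ X * (X : ℝ) ^ ε₂ := mul_le_mul s7 hAX (Nat.cast_nonneg _) hX0.le
      _ ≤ X * (X : ℝ) ^ (1 : ℝ) := by
          apply mul_le_mul_of_nonneg_left _ hX0.le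
          exact Real.rpow_le_rpow_of_exponent_le hX' (by linarith)
      _ = (X : ℝ) ^ (2 : ℝ) := by
          rw [Real.rpow_one, show (2 : ℝ) = ((2 : ℕ) : ℝ) by norm_num, Real.rpow_natCast]
          ring
  have hτ : 0 ≤ tau e := by unfold tau; positivity
  have h4 : tau e ≤ D * (X : ℝ) ^ (s / (2 * (C₁ + 1))) := by
    refine (hD _ he1).trans ?_
    apply mul_le_mul_of_nonneg_left _ hD0.le
    calc (e : ℝ) ^ (s / (4 * (C₁ + 1))) ≤ ((X : ℝ) ^ (2 : ℝ)) ^ (s / (4 * (C₁ + 1))) :=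
          Real.rpow_le_rpow (by positivity) heX hη.le
      _ = (X : ℝ) ^ (s / (2 * (C₁ + 1))) := by
          rw [← Real.rpow_mul hX0.le]
          congr 1
          field_simp
          norm_num
  have h5 : tau e ^ C₁ ≤ D ^ C₁ * (X : ℝ) ^ (s / 2) := by
    refine (pow_le_pow_left₀ hτ h4 _).trans ?_
    rw [mul_pow]
    apply mul_le_mul_of_nonneg_left _ (by positivity)
    rw [← Real.rpow_natCast, ← Real.rpow_mul hX0.le]
    apply Real.rpow_le_rpow_of_exponent_le hX'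
    rw [div_mul_eq_mul_div, div_le_div_iff₀ (by positivity) (by norm_num)]
    nlinarith
  have hL0 : 0 ≤ Real.log X := Real.log_nonneg hX'
  calc |xX (zz X) (MM η X) 2 a e| ≤ Real.log X ^ (C₀ + 2) * tau e ^ C₁ := hX1 X g1 a ha hab e
    _ ≤ Real.log X ^ (C₀ + 2) * (D ^ C₁ * (X : ℝ) ^ (s / 2)) :=
        mul_le_mul_of_nonneg_left h5 (by positivity)
    _ = (D ^ C₁ * Real.log X ^ (C₀ + 2)) * (X : ℝ) ^ (s / 2) := by ring
    _ ≤ (X : ℝ) ^ (s / 2) * (X : ℝ) ^ (s / 2) :=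
        mul_le_mul_of_nonneg_right (hX2 X g2) (by positivity)
    _ = (X : ℝ) ^ s := by
        rw [← Real.rpow_add hX0]
        congr 1
        ring

/-- the support of the mollifier of length `X ^ (1/2 - η)` -/
theorem ad_supp {η ε₂ s : ℝ} (h0 : -(1 / 1000) ≤ η) (h1 : η ≤ 1 / 8) (h2 : 0 < ε₂)
    (hs : ε₂ < s) : ∃ X₀ : ℕ, ∀ X : ℕ, X₀ ≤ X →
    (QA (MM η X) 2 (KA ε₂ X) : ℝ) ≤ (X : ℝ) ^ (1 / 2 - η + s) ∧
    ∀ a : ℕ → ℝ, Sht (zz X) (KA ε₂ X) a → ∀ e, xX (zz X) (MM η X) 2 a e ≠ 0 →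
      1 ≤ e ∧ e ≤ QA (MM η X) 2 (KA ε₂ X) := by
  obtain ⟨X3, hX3⟩ := ad_sizes h0 h1
  obtain ⟨X5, hX5⟩ := la13_rpow (s - ε₂) (by linarith) 2
  refine ⟨max (max X3 X5) 1, fun X hX => ⟨?_, fun a ha e he => la12_supp ha he⟩⟩
  have g3 : X3 ≤ X := by omega
  have g5 : X5 ≤ X := by omega
  have g4 : 1 ≤ X := by omega
  have hX' : (1 : ℝ) ≤ X := by exact_mod_cast g4
  have hX0 : (0 : ℝ) < X := by linarith
  obtain ⟨s1, s2, s3, s4, s5, s6, s7, s8⟩ := hX3 X g3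
  have hAX : (KA ε₂ X : ℝ) ≤ (X : ℝ) ^ ε₂ := by
    unfold KA
    exact Nat.floor_le (by positivity)
  have h5 := hX5 X g5
  calc ((QA (MM η X) 2 (KA ε₂ X) : ℕ) : ℝ) = 2 * (MM η X : ℝ) * (KA ε₂ X : ℝ) := by
        unfold QA; push_cast; ring
    _ ≤ (X : ℝ) ^ (s - ε₂) * (X : ℝ) ^ (1 / 2 - η) * (X : ℝ) ^ ε₂ := by gcongr
    _ = (X : ℝ) ^ (1 / 2 - η + s) := by
        rw [← Real.rpow_add hX0, ← Real.rpow_add hX0]
        congr 1
        ring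

/-- the zero mode, with a larger support bound -/
theorem ad_zero {z M A E : ℕ} {a : ℕ → ℝ} (ha : Sht z A a) (hz : z ≤ M) (hM : 2 ≤ M)
    (hP : (PK M 2).Nonempty) (hE : QA M 2 A ≤ E) :
    ∑ e ∈ Icc 1 E, xX z M 2 a e * sg1 e / e = 0 := by
  rw [← zero_x ha hz hM hP]
  symm
  apply Finset.sum_subset
  · exact Finset.Icc_subset_Icc_right hE
  · intro e he he'
    rw [Finset.mem_Icc] at he he'
    have : xX z M 2 a e = 0 := by
      by_contra h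
      have := (la12_supp ha h).2
      omega
    rw [this]
    simp

theorem ad_sum_supp {f : ℕ → ℝ} {Q Q' : ℕ} (hQ : ∀ n, f n ≠ 0 → n ≤ Q)
    (hQ' : ∀ n, f n ≠ 0 → n ≤ Q') : ∑ n ∈ Icc 1 Q, f n = ∑ n ∈ Icc 1 Q', f n := by
  rcases le_total Q Q' with h | h
  · apply Finset.sum_subset (Finset.Icc_subset_Icc_right h)
    intro n hn hn'
    by_contra hne
    have := hQ n hne
    rw [Finset.mem_Icc] at hn hn'
    omega
  · symm
    apply Finset.sum_subset (Finset.Icc_subset_Icc_right h)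
    intro n hn hn'
    by_contra hne
    have := hQ' n hne
    rw [Finset.mem_Icc] at hn hn'
    omega

theorem ad_ev_log {δ C : ℝ} (hδ : 0 < δ) (hC : 0 < C) :
    ∃ X₀ : ℕ, 1 ≤ X₀ ∧ ∀ X : ℕ, X₀ ≤ X → C * (1 + Real.log X) ≤ (X : ℝ) ^ δ :=
  LSPP.ccb_ev hδ hC

/-- one of the two coefficients -/
theorem ad_pair (C₀ C₁ B' : ℕ) {κ η η' τ : ℝ} (hκ : 0 < κ) (hκ1 : κ ≤ 1 / 80000)
    (h0 : -(1 / 1000) ≤ η) (h1 : η ≤ 1 / 8) (h0' : -(1 / 1000) ≤ η') (h1' : η' ≤ 1 / 8)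
    {ε₂ : ℝ} (h2 : 0 < ε₂) (h3 : ε₂ ≤ κ / 100000)
    (hη : -κ ≤ η) (hη' : -κ ≤ η') (hτ : 1 - η - η' + κ / 2 ≤ τ) :
    ∃ X₀ : ℕ, ∀ X : ℕ, X₀ ≤ X → ∀ a : ℕ → ℝ, Sht (zz X) (KA ε₂ X) a →
    (∀ n : ℕ, |a n| * Real.sqrt n ≤ Real.log X ^ C₀ * tau n ^ C₁) →
      CK2 κ X ⌊(X : ℝ) ^ τ⌋₊
        (CB (E2 κ X) (xX (zz X) (MM η X) 2 a) (xX (zz X) (MM η' X) 2 a)) ∧
      ∑ n ∈ Icc 1 ⌊(X : ℝ) ^ τ⌋₊,
        CB (E2 κ X) (xX (zz X) (MM η X) 2 a) (xX (zz X) (MM η' X) 2 a) n * sg1 n = 0 ∧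
      ∀ c z₁ z₂ : ℕ, 1 ≤ c → (c : ℝ) ≤ (X : ℝ) ^ (20 * κ) → (X : ℝ) ^ (9 / 20 : ℝ) ≤ z₁ →
        |∑ n ∈ Finset.Ioc z₁ z₂,
          CB (E2 κ X) (xX (zz X) (MM η X) 2 a) (xX (zz X) (MM η' X) 2 a) n * cc c n| ≤
        tau c ^ (2 * C₁ + 3) / Real.log X ^ B' := by
  have h3' : ε₂ ≤ 1 / 100 := by linarith
  obtain ⟨X1, hX1⟩ := ad_mob C₀ C₁ B' h0 h1 h0' h1' h2 h3'
  obtain ⟨X2, hX2⟩ := ad_pow_bound C₀ C₁ h0 h1 h2 h3' (s := κ / 1000) (by positivity)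
  obtain ⟨X2', hX2'⟩ := ad_pow_bound C₀ C₁ h0' h1' h2 h3' (s := κ / 1000) (by positivity)
  obtain ⟨X3, hX3⟩ := ad_supp h0 h1 h2 (s := κ / 8) (by linarith)
  obtain ⟨X3', hX3'⟩ := ad_supp h0' h1' h2 (s := κ / 8) (by linarith)
  obtain ⟨Ct, hCt, hτb⟩ := LSPP.tau_le (ε := κ / 2000) (by positivity)
  obtain ⟨X4, hX4, hev⟩ := ad_ev_log (δ := 7 * κ / 1000) (C := Ct) (by positivity) (by linarith)
  obtain ⟨X5, hX5⟩ := la13_rpow (κ / 8) (by positivity) 2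
  obtain ⟨X6, hX6⟩ := ad_sizes h0 h1
  obtain ⟨X6', hX6'⟩ := ad_sizes h0' h1'
  refine ⟨max (max (max X1 X2) (max X2' X3)) (max (max X3' X4) (max (max X5 1) (max X6 X6'))),
    fun X hX a ha hab => ?_⟩
  have g1 : X1 ≤ X := by omega
  have g2 : X2 ≤ X := by omega
  have g2' : X2' ≤ X := by omega
  have g3 : X3 ≤ X := by omega
  have g3' : X3' ≤ X := by omega
  have g4 : X4 ≤ X := by omega
  have g5 : X5 ≤ X := by omega
  have g6 : 1 ≤ X := by omega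
  have g7 : X6 ≤ X := by omega
  have g7' : X6' ≤ X := by omega
  have hX' : (1 : ℝ) ≤ X := by exact_mod_cast g6
  have hX0 : (0 : ℝ) < X := by linarith
  obtain ⟨q1, hsx⟩ := hX3 X g3
  obtain ⟨q1', hsy⟩ := hX3' X g3'
  obtain ⟨s1, s2, s3, s4, s5, s6, s7, s8⟩ := hX6 X g7
  obtain ⟨-, s2', -, -, -, -, -, s8'⟩ := hX6' X g7'
  set E := E2 κ X with hE
  -- the supports are at most `E`
  have hle : ∀ {θ : ℝ} {Q : ℕ}, -κ ≤ θ → (Q : ℝ) ≤ (X : ℝ) ^ (1 / 2 - θ + κ / 8) → Q ≤ E := by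
    intro θ Q hθ hQ
    rw [hE]
    unfold E2
    apply Nat.le_floor
    exact hQ.trans (Real.rpow_le_rpow_of_exponent_le hX' (by linarith))
  have hEx := hle hη q1
  have hEy := hle hη' q1'
  have hEX : (E : ℝ) ≤ X := by
    rw [hE]
    unfold E2
    refine (Nat.floor_le (by positivity)).trans ?_
    calc (X : ℝ) ^ (1 / 2 + 3 * κ) ≤ (X : ℝ) ^ (1 : ℝ) :=
          Real.rpow_le_rpow_of_exponent_le hX' (by linarith)
      _ = X := Real.rpow_one _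
  have hEX' : E ≤ X := by exact_mod_cast hEX
  set x := xX (zz X) (MM η X) 2 a with hx
  set y := xX (zz X) (MM η' X) 2 a with hy
  have hsxE : ∀ e, x e ≠ 0 → 1 ≤ e ∧ e ≤ E := fun e he =>
    ⟨(hsx a ha e he).1, (hsx a ha e he).2.trans hEx⟩
  have hsyE : ∀ e, y e ≠ 0 → 1 ≤ e ∧ e ≤ E := fun e he =>
    ⟨(hsy a ha e he).1, (hsy a ha e he).2.trans hEy⟩
  have hQ : ∀ n, CB E x y n ≠ 0 → n ≤ ⌊(X : ℝ) ^ τ⌋₊ := by
    intro n hn
    have h4 := ad_cb_supp (hsx a ha) (hsy a ha) hn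
    apply Nat.le_floor
    calc (n : ℝ) ≤ ((QA (MM η X) 2 (KA ε₂ X) * QA (MM η' X) 2 (KA ε₂ X) : ℕ) : ℝ) := by
          exact_mod_cast h4
      _ = (QA (MM η X) 2 (KA ε₂ X) : ℝ) * (QA (MM η' X) 2 (KA ε₂ X) : ℝ) := by push_cast; ring
      _ ≤ (X : ℝ) ^ (1 / 2 - η + κ / 8) * (X : ℝ) ^ (1 / 2 - η' + κ / 8) :=
          mul_le_mul q1 q1' (Nat.cast_nonneg _) (by positivity)
      _ = (X : ℝ) ^ (1 - η - η' + κ / 4) := by
          rw [← Real.rpow_add hX0]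
          congr 1
          ring
      _ ≤ (X : ℝ) ^ τ := Real.rpow_le_rpow_of_exponent_le hX' (by linarith)
  have hE1 : 1 ≤ E := by
    rw [hE]
    unfold E2
    rw [Nat.one_le_floor_iff]
    exact Real.one_le_rpow hX' (by linarith)
  refine ⟨⟨?_, hQ⟩, ?_, ?_⟩
  · intro n
    by_cases hn : CB E x y n = 0
    · rw [hn, abs_zero]
      positivity
    · have hn2 : n ≤ E * E := ad_cb_supp hsxE hsyE hn
      rcases Nat.eq_zero_or_pos n with h0n | h0n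
      · exfalso
        apply hn
        subst h0n
        unfold CB
        simp
      have hn0 : (0 : ℝ) < n := by exact_mod_cast h0n
      have hlE0 : 0 ≤ Real.log E := Real.log_nonneg (by exact_mod_cast hE1)
      have hlE : Real.log E ≤ Real.log X :=
        Real.log_le_log (by exact_mod_cast hE1) hEX
      have hnX : (n : ℝ) ^ (κ / 2000) ≤ (X : ℝ) ^ (κ / 1000) := by
        have h4 : (n : ℝ) ≤ (X : ℝ) ^ (2 : ℝ) := by
          calc (n : ℝ) ≤ ((E * E : ℕ) : ℝ) := by exact_mod_cast hn2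
            _ = (E : ℝ) * E := by push_cast; ring
            _ ≤ X * X := mul_le_mul hEX hEX (Nat.cast_nonneg _) hX0.le
            _ = (X : ℝ) ^ (2 : ℝ) := by
                rw [show (2 : ℝ) = ((2 : ℕ) : ℝ) by norm_num, Real.rpow_natCast]
                ring
        calc (n : ℝ) ^ (κ / 2000) ≤ ((X : ℝ) ^ (2 : ℝ)) ^ (κ / 2000) :=
              Real.rpow_le_rpow hn0.le h4 (by positivity)
          _ = (X : ℝ) ^ (κ / 1000) := by
              rw [← Real.rpow_mul hX0.le]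
              congr 1
              ring
      have h5 := ad_cb_le (E := E) (hX2 X g2 a ha hab) (hX2' X g2' a ha hab) n
      have h6 : tau n ≤ Ct * (X : ℝ) ^ (κ / 1000) :=
        (hτb n).trans (mul_le_mul_of_nonneg_left hnX (by linarith))
      have h7 := hev X g4
      have hb0 : (0 : ℝ) ≤ (X : ℝ) ^ (κ / 1000) := Real.rpow_nonneg hX0.le _
      have hτ0 : 0 ≤ tau n := Nat.cast_nonneg _
      calc |CB E x y n| ≤ (1 + Real.log E) *
            (tau n * ((X : ℝ) ^ (κ / 1000) * (X : ℝ) ^ (κ / 1000) / n)) := h5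
        _ ≤ (1 + Real.log X) * (Ct * (X : ℝ) ^ (κ / 1000) *
              ((X : ℝ) ^ (κ / 1000) * (X : ℝ) ^ (κ / 1000) / n)) := by
            apply mul_le_mul (by linarith) _ (by positivity) (by linarith)
            exact mul_le_mul_of_nonneg_right h6 (by positivity)
        _ = (Ct * (1 + Real.log X)) * ((X : ℝ) ^ (κ / 1000) *
              ((X : ℝ) ^ (κ / 1000) * (X : ℝ) ^ (κ / 1000))) / n := by ring
        _ ≤ (X : ℝ) ^ (7 * κ / 1000) * ((X : ℝ) ^ (κ / 1000) *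
              ((X : ℝ) ^ (κ / 1000) * (X : ℝ) ^ (κ / 1000))) / n := by
            apply div_le_div_of_nonneg_right _ hn0.le
            exact mul_le_mul_of_nonneg_right h7 (by positivity)
        _ = (X : ℝ) ^ (κ / 100) / n := by
            rw [← Real.rpow_add hX0, ← Real.rpow_add hX0, ← Real.rpow_add hX0]
            congr 2
            ring
  · have h4 := ad_cb_sigma hsxE hsyE
    have hM2 : 2 ≤ MM η X := by omega
    rw [ad_zero ha s2.le hM2 s8 hEx, zero_mul] at h4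
    rw [← h4]
    refine ad_sum_supp (fun n hn => hQ n (left_ne_zero_of_mul hn)) (fun n hn => ?_)
    have := ad_cb_supp hsxE hsyE (left_ne_zero_of_mul hn)
    rw [sq]
    exact this
  · intro c z₁ z₂ hc hcX hz
    refine hX1 X g1 a a ha ha hab hab E hEx hEy hEX' c z₁ z₂ hc (hcX.trans ?_) (le_trans ?_ hz)
    · exact Real.rpow_le_rpow_of_exponent_le hX' (by linarith)
    · exact Real.rpow_le_rpow_of_exponent_le hX' (by norm_num)

end Pool.Agent.LSP
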