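import Pool.Agent.Lib_helper46.LSP2.AD3
import Pool.Agent.Lib_helper41.LSP2.DefsB

/-!
# LSP2, module AD, part 4: `adm2`
-/

set_option autoImplicit false

namespace Pool.Agent.LSP

open Pool.Agent.LEV Pool.Agent.LVB Pool.Agent.KSL
open Pool.Agent.FG61 (mu phi cc ff AA Lam)
open Finset

theorem adm2 : ∀ C₀ C₁ : ℕ, ∃ B : ℕ, ∀ B' : ℕ, ∀ κ v κ₁ : ℝ, 0 < κ → 1000 * κ ≤ v → v ≤ 1 / 80 →
    0 < κ₁ → κ₁ ≤ κ → ∀ ε₂ : ℝ, 0 < ε₂ → ε₂ ≤ κ₁ / 100000 → ∃ X₀ : ℕ, ∀ X : ℕ, X₀ ≤ X →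
    ∀ a : ℕ → ℝ, Sht (zz X) (KA ε₂ X) a →
    (∀ k : ℕ, |a k| * Real.sqrt k ≤ Real.log X ^ C₀ * tau k ^ C₁) →
      AdmB κ B B' X ⌊(X : ℝ) ^ (1 - v + 2 * κ)⌋₊ (CB (E2 κ X) (y0 κ₁ X a) (y1 κ v X a)) ∧
      AdmB κ B B' X ⌊(X : ℝ) ^ (1 - 2 * v + 3 * κ)⌋₊ (CB (E2 κ X) (y1 κ v X a) (y1 κ v X a)) := by
  intro C₀ C₁
  refine ⟨2 * C₁ + 3, fun B' κ v κ₁ hκ hv hv1 hk hk1 ε₂ h2 h3 => ?_⟩
  have hκ1 : κ ≤ 1 / 80000 := by linarith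
  obtain ⟨X1, hX1⟩ := ad_pair C₀ C₁ B' (η := κ₁) (η' := v - κ) (τ := 1 - v + 2 * κ) hκ hκ1
    (by linarith) (by linarith) (by linarith) (by linarith) h2 (by linarith) (by linarith)
    (by linarith) (by linarith)
  obtain ⟨X2, hX2⟩ := ad_pair C₀ C₁ B' (η := v - κ) (η' := v - κ) (τ := 1 - 2 * v + 3 * κ) hκ hκ1
    (by linarith) (by linarith) (by linarith) (by linarith) h2 (by linarith) (by linarith)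
    (by linarith) (by linarith)
  refine ⟨max X1 X2, fun X hX a ha hab => ?_⟩
  obtain ⟨a1, a2, a3⟩ := hX1 X (by omega) a ha hab
  obtain ⟨b1, b2, b3⟩ := hX2 X (by omega) a ha hab
  exact ⟨⟨a1, a2, a3⟩, ⟨b1, b2, b3⟩⟩

end Pool.Agent.LSP
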