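import Pool.Agent.Lib_helper98.HK.A3
import Pool.Agent.Lib_helper53.LSPAF.LA7
import Pool.Agent.Lib_helper53.LSPAF.LA13
import Pool.Agent.Lib_helper71.LSPM.MAIN

/-!
# LSP2, module MQ (`m2_quad`), part 1: the Fourier coefficients of `T_p y`
-/

set_option autoImplicit false

namespace Pool.Agent.LSP

open Pool.Agent.LEV Pool.Agent.LVB Pool.Agent.KSL
open Pool.Agent.FG61 (mu phi cc ff AA Lam)

theorem mq_xX_supp {z M A : ℕ} {a : ℕ → ℝ} (ha : Sht z A a) {e : ℕ} (he : xX z M 2 a e ≠ 0) :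
    1 ≤ e ∧ e ≤ QA M 2 A := by
  have he0 : e ≠ 0 := by
    intro h
    apply he
    unfold xX
    rw [if_pos h]
  have he1 : 1 ≤ e := Nat.pos_of_ne_zero he0
  refine ⟨he1, ?_⟩
  unfold xX at he
  rw [if_neg he0] at he
  have h4 : a (smp z e) ≠ 0 := by
    intro h
    apply he
    rw [h]
    simp
  have h5 : xr z M 2 (rop z e) ≠ 0 := right_ne_zero_of_mul he
  have h6 := (ha.sup _ h4).2
  have h7 := (xr_supp h5).2.2
  have h8 := (smp_rop (z := z) he1).1
  unfold QA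
  calc e = smp z e * rop z e := h8.symm
    _ ≤ A * (2 * M) := Nat.mul_le_mul h6 h7
    _ = 2 * M * A := by ring

theorem mq_QA {X : ℕ} (hX : (1 : ℝ) ≤ X) {δ ε : ℝ} (h2 : (2 : ℝ) ≤ (X : ℝ) ^ ε) :
    (QA (MM δ X) 2 (KA ε X) : ℝ) ≤ (X : ℝ) ^ (1 / 2 - δ + 2 * ε) := by
  have hX0 : (0 : ℝ) < X := by linarith
  unfold QA
  push_cast
  have h3 : (MM δ X : ℝ) ≤ (X : ℝ) ^ (1 / 2 - δ) := by
    unfold MM
    exact Nat.floor_le (by positivity)
  have h4 : (KA ε X : ℝ) ≤ (X : ℝ) ^ ε := by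
    unfold KA
    exact Nat.floor_le (by positivity)
  calc (2 : ℝ) * MM δ X * KA ε X ≤ (X : ℝ) ^ ε * (X : ℝ) ^ (1 / 2 - δ) * (X : ℝ) ^ ε := by
        gcongr
    _ = (X : ℝ) ^ (1 / 2 - δ + 2 * ε) := by
        rw [← Real.rpow_add hX0, ← Real.rpow_add hX0]
        congr 1
        ring

/-- the Fourier coefficients in terms of the coefficients of the mollifier -/
theorem mq_WW (E : ℕ) (x : ℕ → ℝ) (n : ℕ) :
    WW E (wX E x) n = ∑ e ∈ Finset.Icc 1 E, x e / e * sg1 (Nat.gcd e n) := by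
  unfold WW wX
  rw [wwf_swap E (fun e => x e / e) (fun q => cc q n) (fun e q => tau (e / q))]
  refine Finset.sum_congr rfl fun e he => ?_
  rw [Finset.mem_Icc] at he
  have h2 := wwf_sum_tau n he.1
  unfold tau sg1
  rw [h2]

theorem mq_sg_mul {m n : ℕ} (h : m.Coprime n) : sg1 (m * n) = sg1 m * sg1 n := by
  have h1 : ∀ k : ℕ, sg1 k = ((ArithmeticFunction.sigma 1 k : ℕ) : ℝ) := by
    intro k
    unfold sg1
    rw [ArithmeticFunction.sigma_one_apply]
    push_cast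
    rfl
  rw [h1, h1, h1, ArithmeticFunction.isMultiplicative_sigma.map_mul_of_coprime h]
  push_cast
  rfl

theorem mq_sg_pow {p : ℕ} (hp : p.Prime) (k : ℕ) : sg1 (p ^ (k + 1)) = 1 + p * sg1 (p ^ k) := by
  have hpow : ∀ k : ℕ, sg1 (p ^ (k + 1)) = sg1 (p ^ k) + (p : ℝ) ^ (k + 1) := by
    intro k
    unfold sg1
    rw [Nat.divisors_prime_pow hp, Nat.divisors_prime_pow hp, Finset.sum_map, Finset.sum_map,
      Finset.sum_range_succ]
    simp
  induction k with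
  | zero =>
    rw [hpow 0]
    simp [sg1]
  | succ k ih =>
    have h7 := hpow k
    have h8 := hpow (k + 1)
    have : (p : ℝ) ^ (k + 1 + 1) = p * p ^ (k + 1) := by ring
    rw [h8, this]
    nlinarith [ih, h7]

theorem mq_gcd {p : ℕ} (hp : p.Prime) {d n : ℕ} (hd : ¬ p ∣ d) (hn : ¬ p ∣ n) (i j : ℕ) :
    Nat.gcd (p ^ i * d) (p ^ j * n) = p ^ min i j * Nat.gcd d n := by
  have hcd : ∀ k : ℕ, (p ^ k).Coprime d := fun k =>
    Nat.Coprime.pow_left k ((Nat.Prime.coprime_iff_not_dvd hp).2 hd)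
  have hcn : ∀ k : ℕ, (p ^ k).Coprime n := fun k =>
    Nat.Coprime.pow_left k ((Nat.Prime.coprime_iff_not_dvd hp).2 hn)
  rw [Nat.Coprime.gcd_mul _ (hcn j), Nat.Coprime.gcd_mul_right_cancel _ (hcd j).symm,
    Nat.Coprime.gcd_mul_left_cancel _ (hcn i)]
  congr 1
  rcases le_total i j with h | h
  · rw [min_eq_left h]
    exact Nat.gcd_eq_left (pow_dvd_pow p h)
  · rw [min_eq_right h]
    exact Nat.gcd_eq_right (pow_dvd_pow p h)

theorem mq_sg_gcd {p : ℕ} (hp : p.Prime) {d n : ℕ} (hd : 1 ≤ d) (hn : 1 ≤ n) :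
    sg1 (Nat.gcd (p * d) n) / p + (if p ∣ d then sg1 (Nat.gcd (d / p) n) else 0) =
      (if p ∣ n then sg1 (Nat.gcd d (n / p)) else 0) + sg1 (Nat.gcd d (p * n)) / p := by
  have hpr : (p : ℝ) ≠ 0 := by exact_mod_cast hp.pos.ne'
  obtain ⟨a, d', hd', rfl⟩ : ∃ k m : ℕ, ¬ p ∣ m ∧ d = p ^ k * m := by
    obtain ⟨k, m, h1, h2⟩ := Nat.exists_eq_pow_mul_and_not_dvd (by omega : d ≠ 0) p hp.ne_one
    exact ⟨k, m, h1, h2⟩
  obtain ⟨b, n', hn', rfl⟩ : ∃ k m : ℕ, ¬ p ∣ m ∧ n = p ^ k * m := by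
    obtain ⟨k, m, h1, h2⟩ := Nat.exists_eq_pow_mul_and_not_dvd (by omega : n ≠ 0) p hp.ne_one
    exact ⟨k, m, h1, h2⟩
  have hcg : ∀ k : ℕ, (p ^ k).Coprime (Nat.gcd d' n') := fun k =>
    Nat.Coprime.coprime_dvd_right (Nat.gcd_dvd_left _ _)
      (Nat.Coprime.pow_left k ((Nat.Prime.coprime_iff_not_dvd hp).2 hd'))
  have e1 : ∀ (k m : ℕ), p * (p ^ k * m) = p ^ (k + 1) * m := fun k m => by ring
  have e2 : ∀ (k m : ℕ), p ^ (k + 1) * m / p = p ^ k * m := by
    intro k m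
    rw [pow_succ, mul_assoc, mul_comm p m, ← mul_assoc, Nat.mul_div_cancel _ hp.pos]
  have e3 : ∀ (k m : ℕ), p ∣ p ^ (k + 1) * m := fun k m =>
    Dvd.dvd.mul_right (dvd_pow_self p (Nat.succ_ne_zero k)) m
  have hS : ∀ i j : ℕ, sg1 (Nat.gcd (p ^ i * d') (p ^ j * n')) =
      sg1 (p ^ min i j) * sg1 (Nat.gcd d' n') := by
    intro i j
    rw [mq_gcd hp hd' hn', mq_sg_mul (hcg _)]
  have h0 : sg1 (p ^ 0) = 1 := by simp [sg1]
  set G := sg1 (Nat.gcd d' n') with hG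
  rw [e1, e1, hS, hS]
  rcases a with _ | a
  · have f1 : ¬ p ∣ p ^ 0 * d' := by simpa using hd'
    rw [if_neg f1]
    rcases b with _ | b
    · have f2 : ¬ p ∣ p ^ 0 * n' := by simpa using hn'
      rw [if_neg f2]
      simp
    · rw [if_pos (e3 b n'), e2, hS]
      have m1 : min (0 + 1) (b + 1) = 0 + 1 := by omega
      have m2 : min 0 b = 0 := by omega
      have m3 : min 0 (b + 1 + 1) = 0 := by omega
      rw [m1, m2, m3, mq_sg_pow hp, h0]
      field_simp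
      ring
  · rw [if_pos (e3 a d'), e2, hS]
    rcases b with _ | b
    · have f2 : ¬ p ∣ p ^ 0 * n' := by simpa using hn'
      rw [if_neg f2]
      have m1 : min (a + 1 + 1) 0 = 0 := by omega
      have m2 : min a 0 = 0 := by omega
      have m3 : min (a + 1) (0 + 1) = 0 + 1 := by omega
      rw [m1, m2, m3, mq_sg_pow hp, h0]
      field_simp
      ring
    · rw [if_pos (e3 b n'), e2, hS]
      rcases lt_trichotomy a b with h | h | h
      · have m1 : min (a + 1 + 1) (b + 1) = a + 1 + 1 := by omega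
        have m2 : min a (b + 1) = a := by omega
        have m3 : min (a + 1) b = a + 1 := by omega
        have m4 : min (a + 1) (b + 1 + 1) = a + 1 := by omega
        rw [m1, m2, m3, m4, mq_sg_pow hp (a + 1), mq_sg_pow hp a]
        field_simp
        ring
      · subst h
        have m1 : min (a + 1 + 1) (a + 1) = a + 1 := by omega
        have m2 : min a (a + 1) = a := by omega
        have m3 : min (a + 1) a = a := by omega
        have m4 : min (a + 1) (a + 1 + 1) = a + 1 := by omega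
        rw [m1, m2, m3, m4]
        ring
      · have m1 : min (a + 1 + 1) (b + 1) = b + 1 := by omega
        have m2 : min a (b + 1) = b + 1 := by omega
        have m3 : min (a + 1) b = b := by omega
        have m4 : min (a + 1) (b + 1 + 1) = b + 1 + 1 := by omega
        rw [m1, m2, m3, m4, mq_sg_pow hp (b + 1), mq_sg_pow hp b]
        field_simp
        ring

/-- the Fourier coefficients of `T_p y` -/
theorem mq_WTp {p E : ℕ} (hp : p.Prime) {y : ℕ → ℝ} (hy : ∀ e, E < p * e → y e = 0) {n : ℕ}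
    (hn : 1 ≤ n) : WW E (wX E (Tp p y)) n =
      (if p ∣ n then WW E (wX E y) (n / p) else 0) + WW E (wX E y) (p * n) / p := by
  have hp0 : 0 < p := hp.pos
  have hpr : (p : ℝ) ≠ 0 := by exact_mod_cast hp0.ne'
  have h1 : WW E (wX E (Tp p y)) n =
      ∑ e ∈ Finset.Icc 1 E, Tp p y e * (sg1 (Nat.gcd e n) / e) := by
    rw [mq_WW]
    exact Finset.sum_congr rfl fun e _ => by ring
  rw [h1, Tp_sum hp0 hy (fun e => sg1 (Nat.gcd e n) / e)]
  have h2 : (if p ∣ n then WW E (wX E y) (n / p) else 0) + WW E (wX E y) (p * n) / p =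
      ∑ d ∈ Finset.Icc 1 E, y d / d * ((if p ∣ n then sg1 (Nat.gcd d (n / p)) else 0) +
        sg1 (Nat.gcd d (p * n)) / p) := by
    have h3 : (if p ∣ n then WW E (wX E y) (n / p) else 0) =
        ∑ d ∈ Finset.Icc 1 E, y d / d * (if p ∣ n then sg1 (Nat.gcd d (n / p)) else 0) := by
      split_ifs with h
      · exact mq_WW E y _
      · simp
    rw [h3, mq_WW, Finset.sum_div, ← Finset.sum_add_distrib]
    exact Finset.sum_congr rfl fun d _ => by ring
  rw [h2]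
  refine Finset.sum_congr rfl fun d hd => ?_
  rw [Finset.mem_Icc] at hd
  rw [← mq_sg_gcd hp hd.1 hn]
  have hdr : (d : ℝ) ≠ 0 := by exact_mod_cast (by omega : d ≠ 0)
  have h4 : (if p ∣ d then sg1 (Nat.gcd (d / p) n) / ((d / p : ℕ) : ℝ) else 0) / p =
      (if p ∣ d then sg1 (Nat.gcd (d / p) n) else 0) / d := by
    split_ifs with h
    · obtain ⟨c, rfl⟩ := h
      rw [Nat.mul_div_cancel_left c hp0]
      push_cast
      rw [div_div, mul_comm (c : ℝ)]
    · simp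
  rw [h4]
  push_cast
  field_simp

/-- the Fourier coefficients of `∑ θ_p T_p y` -/
theorem mq_WYT {P : Finset ℕ} {E : ℕ} (hP : ∀ p ∈ P, p.Prime) {y : ℕ → ℝ}
    (hy : ∀ p ∈ P, ∀ e, E < p * e → y e = 0) (θ : ℕ → ℝ) {n : ℕ} (hn : 1 ≤ n) :
    WW E (wX E (YT P θ y)) n = ∑ p ∈ P, θ p *
      ((if p ∣ n then WW E (wX E y) (n / p) else 0) + WW E (wX E y) (p * n) / p) := by
  rw [mq_WW]
  unfold YT
  have h1 : ∀ e ∈ Finset.Icc 1 E, (∑ p ∈ P, θ p * Tp p y e) / (e : ℝ) * sg1 (Nat.gcd e n) =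
      ∑ p ∈ P, θ p * (Tp p y e / e * sg1 (Nat.gcd e n)) := by
    intro e _
    rw [Finset.sum_div, Finset.sum_mul]
    exact Finset.sum_congr rfl fun p _ => by ring
  rw [Finset.sum_congr rfl h1, Finset.sum_comm]
  refine Finset.sum_congr rfl fun p hp => ?_
  rw [← Finset.mul_sum, ← mq_WW, mq_WTp (hP p hp) (hy p hp) hn]

/-! ## the factorisation -/

theorem mq_ext {Q E : ℕ} (hQE : Q ≤ E) {x : ℕ → ℝ} (hx : ∀ e, x e ≠ 0 → e ≤ Q) (n : ℕ) :
    WW E (wX E x) n = WW Q (wX Q x) n := by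
  rw [mq_WW, mq_WW]
  symm
  apply Finset.sum_subset (Finset.Icc_subset_Icc_right hQE)
  intro e he he'
  rw [Finset.mem_Icc] at he he'
  have : x e = 0 := by
    by_contra h
    exact he' ⟨he.1, hx e h⟩
  rw [this]
  simp

theorem mq_fac {z M A E : ℕ} {a : ℕ → ℝ} (ha : Sht z A a) (hE : QA M 2 A ≤ E) {n : ℕ}
    (hn : 1 ≤ n) : WW E (wX E (xX z M 2 a)) n = Ph A a n * Wr z M 2 n := by
  rw [mq_ext hE (fun e he => (mq_xX_supp ha he).2), MT_ww ha.sup]
  exact ww_factor ha.sup (by norm_num) hn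

theorem mq_Ph {z A : ℕ} {a : ℕ → ℝ} (ha : Sht z A a) {p : ℕ} (hp : p.Prime) (hz : z < p)
    (n : ℕ) : Ph A a (p * n) = Ph A a n := by
  unfold Ph
  refine Finset.sum_congr rfl fun k _ => ?_
  by_cases hk : a k = 0
  · rw [hk]; simp
  · have h1 : Nat.Coprime p k := by
      rw [Nat.Prime.coprime_iff_not_dvd hp]
      intro h
      have := (ha.sup k hk).1.2 p hp h
      omega
    rw [Nat.Coprime.gcd_mul_left_cancel_right n h1]

/-- the rough factor of the Fourier coefficients of `∑ θ_p T_p y` -/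
noncomputable def UY (P : Finset ℕ) (θ : ℕ → ℝ) (z M n : ℕ) : ℝ :=
  ∑ p ∈ P, θ p * ((if p ∣ n then Wr z M 2 (n / p) else 0) + Wr z M 2 (p * n) / p)

theorem mq_facY {z M A E : ℕ} {a : ℕ → ℝ} (ha : Sht z A a) {P : Finset ℕ}
    (hP : ∀ p ∈ P, p.Prime ∧ z < p) (hE : ∀ p ∈ P, p * QA M 2 A ≤ E) (hE' : QA M 2 A ≤ E)
    (θ : ℕ → ℝ) {n : ℕ} (hn : 1 ≤ n) :
    WW E (wX E (YT P θ (xX z M 2 a))) n = Ph A a n * UY P θ z M n := by
  rw [mq_WYT (fun p hp => (hP p hp).1) ?_ θ hn]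
  · unfold UY
    rw [Finset.mul_sum]
    refine Finset.sum_congr rfl fun p hp => ?_
    obtain ⟨h1, h2⟩ := hP p hp
    rw [mq_fac ha hE' (Nat.mul_pos h1.pos hn), mq_Ph ha h1 h2]
    split_ifs with h
    · obtain ⟨m, rfl⟩ := h
      have hm : 1 ≤ m := Nat.one_le_iff_ne_zero.2 (by rintro rfl; simp at hn)
      rw [Nat.mul_div_cancel_left m h1.pos, mq_fac ha hE' hm, mq_Ph ha h1 h2]
      ring
    · ring
  · intro p hp e he
    by_contra h
    have h1 := (mq_xX_supp ha h).2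
    have h2 := hE p hp
    have h3 : p * e ≤ p * QA M 2 A := Nat.mul_le_mul_left p h1
    omega

theorem mq_Wr_rop {z M K p : ℕ} (hp : p.Prime) (hz : z < p) {n : ℕ} (hn : 1 ≤ n) :
    Wr z M K (p * n) = Wr z M K (p * rop z n) := by
  obtain ⟨h1, h2, h3, h4, h5⟩ := smp_rop (z := z) hn
  have hpr : rough z p := by
    intro q hq h
    rw [(Nat.prime_dvd_prime_iff_eq hq hp).1 h]
    exact hz
  have hr : rough z (p * rop z n) := WRS_rough_mul hpr h4
  have h6 : rop z (p * n) = p * rop z n := by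
    have h7 : p * n = smp z n * (p * rop z n) := by
      conv_lhs => rw [← h1]
      ring
    rw [h7]
    exact (smp_mul h3 hr (Nat.mul_pos hp.pos h5)).2
  rw [wr_rop z M K (Nat.mul_pos hp.pos hn), h6]

theorem mq_UY_rop {P : Finset ℕ} (θ : ℕ → ℝ) {z M : ℕ} (hP : ∀ p ∈ P, p.Prime ∧ z < p) {n : ℕ}
    (hn : 1 ≤ n) : UY P θ z M n = UY P θ z M (rop z n) := by
  obtain ⟨h1, h2, h3, h4, h5⟩ := smp_rop (z := z) hn
  unfold UY
  refine Finset.sum_congr rfl fun p hp => ?_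
  obtain ⟨hpp, hz⟩ := hP p hp
  rw [mq_Wr_rop hpp hz hn]
  congr 2
  have h6 : p ∣ n ↔ p ∣ rop z n := by
    constructor
    · intro h
      rw [← h1] at h
      rcases (Nat.Prime.dvd_mul hpp).1 h with h7 | h7
      · have := h3.2 p hpp h7
        omega
      · exact h7
    · intro h
      rw [← h1]
      exact h.mul_left _
  by_cases h : p ∣ rop z n
  · rw [if_pos h, if_pos (h6.2 h)]
    obtain ⟨r, hr⟩ := h
    rw [hr, Nat.mul_div_cancel_left r hpp.pos]
    have hr1 : 1 ≤ r := Nat.one_le_iff_ne_zero.2 (by rintro rfl; omega)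
    have hrr : rough z r := by
      intro q hq hd
      exact h4 q hq (by rw [hr]; exact hd.mul_left _)
    have h7 : n / p = smp z n * r := by
      have : n = p * (smp z n * r) := by
        conv_lhs => rw [← h1, hr]
        ring
      conv_lhs => rw [this]
      exact Nat.mul_div_cancel_left _ hpp.pos
    rw [h7, wr_rop z M 2 (Nat.mul_pos (Nat.pos_of_ne_zero h3.1) hr1), (smp_mul h3 hrr hr1).2]
  · rw [if_neg h, if_neg (fun h' => h (h6.1 h'))]

end Pool.Agent.LSP
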