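import Pool.Agent.Lib_helper46.LSP2.MQ1

/-!
# LSP2, module MQ (`m2_quad`), part 2: mean squares
-/

set_option autoImplicit false

namespace Pool.Agent.LSP

open Pool.Agent.LEV Pool.Agent.LVB Pool.Agent.KSL
open Pool.Agent.FG61 (mu phi cc ff AA Lam)

/-- the weight -/
noncomputable def mqG (K : ℝ) (r : ℕ) : ℝ := min (1 / (r : ℝ)) (K / (r : ℝ) ^ 2)

theorem mqG_nonneg {K : ℝ} (hK : 0 ≤ K) (r : ℕ) : 0 ≤ mqG K r :=
  le_min (by positivity) (by positivity)

/-- Abel summation -/
theorem mq_abel {f : ℕ → ℝ} {c₁ c₂ K : ℝ} (h1 : f 1 ≤ c₁)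
    (hc₁ : 0 ≤ c₁) (hc₂ : 0 ≤ c₂) (hS : ∀ Y : ℕ, ∑ r ∈ Finset.Icc 2 Y, f r ≤ c₂ * Y) (hK : 1 ≤ K)
    (X : ℕ) : ∑ r ∈ Finset.Icc 1 X, f r * mqG K r ≤ c₁ + c₂ * (Real.log K + 3) := by
  classical
  have hK0 : 0 ≤ K := by linarith
  set R := ⌊K⌋₊ with hR
  have hR1 : 1 ≤ R := Nat.le_floor (by simpa using hK)
  have hR0 : (0 : ℝ) < R := by exact_mod_cast hR1
  have hRK : (R : ℝ) ≤ K := Nat.floor_le hK0
  have hKR : K ≤ 2 * R := by
    have h2 := Nat.lt_floor_add_one K
    rw [← hR] at h2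
    have h3 : (1 : ℝ) ≤ R := by exact_mod_cast hR1
    linarith
  set a : ℕ → ℝ := fun r => if 2 ≤ r then f r else 0 with ha
  have hG0 : ∀ r, 0 ≤ mqG K r := mqG_nonneg hK0
  have hS' : ∀ Y, ∑ r ∈ Finset.range Y, a (r + 1) ≤ c₂ * Y := by
    intro Y
    refine le_trans (le_of_eq ?_) (hS Y)
    have h2 := HGN_icc Y a (fun _ => True)
    simp only [Finset.filter_true, if_true] at h2
    rw [← h2]
    simp only [ha]
    rw [← Finset.sum_filter]
    refine Finset.sum_congr ?_ fun _ _ => rfl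
    ext r
    simp only [Finset.mem_filter, Finset.mem_Icc]
    omega
  have hGa : ∀ r, 1 ≤ r → mqG K (r + 1) ≤ mqG K r := fun r hr => by
    have := HG_Ganti hK0 hr
    unfold mqG
    push_cast at this ⊢
    exact this
  have hab := HGN_abel (a := a) (B := fun Y => c₂ * Y) (G := mqG K) hGa hS' hG0 X
  simp only [Nat.cast_zero, mul_zero, zero_mul, zero_add] at hab
  have h2 : ∑ r ∈ Finset.range X, (c₂ * ((r + 1 : ℕ) : ℝ) - c₂ * r) * mqG K (r + 1) =
      c₂ * ∑ r ∈ Finset.range X, mqG K (r + 1) := by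
    rw [Finset.mul_sum]
    refine Finset.sum_congr rfl fun r _ => ?_
    push_cast
    ring
  rw [h2] at hab
  have h3 : ∑ r ∈ Finset.range X, mqG K (r + 1) ≤ Real.log K + 3 := by
    calc ∑ r ∈ Finset.range X, mqG K (r + 1) ≤ ∑ r ∈ Finset.range (max X R), mqG K (r + 1) :=
          Finset.sum_le_sum_of_subset_of_nonneg (Finset.range_mono (le_max_left _ _))
            fun r _ _ => hG0 _
      _ = ∑ r ∈ Finset.range R, mqG K (r + 1) +
          ∑ r ∈ Finset.Ico R (max X R), mqG K (r + 1) := by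
          rw [Finset.range_eq_Ico, Finset.range_eq_Ico,
            Finset.sum_Ico_consecutive _ (Nat.zero_le _) (le_max_right _ _)]
      _ ≤ (1 + Real.log R) + 2 := by
          refine add_le_add ?_ ?_
          · refine le_trans (Finset.sum_le_sum fun r _ => ?_) (HGN_harm hR1)
            unfold mqG
            push_cast
            exact min_le_left _ _
          · calc ∑ r ∈ Finset.Ico R (max X R), mqG K (r + 1) ≤
                ∑ r ∈ Finset.Ico R (max X R), K * (1 / ((r : ℝ) + 1) ^ 2) := by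
                  refine Finset.sum_le_sum fun r _ => ?_
                  unfold mqG
                  push_cast
                  refine (min_le_right _ _).trans (le_of_eq (by ring))
              _ = K * ∑ r ∈ Finset.Ico R (max X R), 1 / ((r : ℝ) + 1) ^ 2 := by
                  rw [Finset.mul_sum]
              _ ≤ 2 * R * (1 / R) := by
                  refine mul_le_mul hKR ?_ (Finset.sum_nonneg fun r _ => by positivity)
                    (by positivity)
                  have h4 := HG_sq hR1 (le_max_right X R)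
                  have : 0 ≤ 1 / ((max X R : ℕ) : ℝ) := by positivity
                  linarith
              _ = 2 := by field_simp
      _ ≤ Real.log K + 3 := by
          have := Real.log_le_log hR0 hRK
          linarith
  have h4 : ∑ r ∈ Finset.Icc 1 X, f r * mqG K r ≤
      c₁ + ∑ r ∈ Finset.range X, a (r + 1) * mqG K (r + 1) := by
    have h5 := HGN_icc X (fun r => f r * mqG K r) (fun _ => True)
    simp only [Finset.filter_true, if_true] at h5
    rw [h5]
    calc ∑ i ∈ Finset.range X, f (i + 1) * mqG K (i + 1) ≤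
        ∑ i ∈ Finset.range X, ((if i = 0 then c₁ else 0) + a (i + 1) * mqG K (i + 1)) := by
          refine Finset.sum_le_sum fun i _ => ?_
          by_cases hi : i = 0
          · subst hi
            simp only [ha, if_true, zero_add]
            have h6 : mqG K 1 ≤ 1 := by
              unfold mqG
              refine (min_le_left _ _).trans ?_
              simp
            have h7 : ¬ 2 ≤ 1 := by norm_num
            rw [if_neg h7, zero_mul, add_zero]
            calc f 1 * mqG K 1 ≤ c₁ * mqG K 1 := mul_le_mul_of_nonneg_right h1 (hG0 1)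
              _ ≤ c₁ * 1 := mul_le_mul_of_nonneg_left h6 hc₁
              _ = c₁ := mul_one _
          · have h6 : 2 ≤ i + 1 := by omega
            simp only [ha]
            rw [if_neg hi, if_pos h6, zero_add]
      _ = ∑ i ∈ Finset.range X, (if i = 0 then c₁ else 0) +
          ∑ i ∈ Finset.range X, a (i + 1) * mqG K (i + 1) := Finset.sum_add_distrib
      _ ≤ _ := by
          refine add_le_add ?_ le_rfl
          rw [Finset.sum_ite_eq']
          split_ifs
          · exact le_rfl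
          · exact hc₁
  have h5 := mul_le_mul_of_nonneg_left h3 hc₂
  linarith

/-! ## the truncated divisor sum at multiples of a prime -/

theorem mq_mu_prime_mul {p d : ℕ} (hp : p.Prime) (h : ¬ p ∣ d) : mu (p * d) = -mu d := by
  have hc : Nat.Coprime p d := (Nat.Prime.coprime_iff_not_dvd hp).2 h
  unfold mu
  rw [ArithmeticFunction.isMultiplicative_moebius.map_mul_of_coprime hc,
    ArithmeticFunction.moebius_apply_prime hp]
  push_cast
  ring

theorem mq_mu_nsq {n : ℕ} (h : ¬ Squarefree n) : mu n = 0 := by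
  unfold mu
  rw [ArithmeticFunction.moebius_eq_zero_of_not_squarefree h]
  simp

theorem mq_ff_dvd {R : ℝ} {p r : ℕ} (hp : p.Prime) (hr : 1 ≤ r) (h : p ∣ r) :
    ff R (p * r) = ff R r := by
  unfold ff
  symm
  apply Finset.sum_subset
  · intro d hd
    rw [Finset.mem_filter, Nat.mem_divisors] at hd ⊢
    exact ⟨⟨hd.1.1.mul_left _, (Nat.mul_pos hp.pos hr).ne'⟩, hd.2⟩
  · intro d hd hd'
    rw [Finset.mem_filter, Nat.mem_divisors] at hd hd'
    have h1 : ¬ Squarefree d := by
      intro hs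
      apply hd'
      refine ⟨⟨?_, by omega⟩, hd.2⟩
      by_cases hpd : p ∣ d
      · obtain ⟨e, rfl⟩ := hpd
        have h2 : e ∣ r := Nat.dvd_of_mul_dvd_mul_left hp.pos hd.1.1
        have h3 : Nat.Coprime p e := by
          rw [Nat.Prime.coprime_iff_not_dvd hp]
          intro h4
          have h5 := hs p (Nat.mul_dvd_mul_left p h4)
          exact hp.one_lt.ne' (Nat.isUnit_iff.1 h5)
        exact h3.mul_dvd_of_dvd_of_dvd h h2
      · have h2 : Nat.Coprime p d := (Nat.Prime.coprime_iff_not_dvd hp).2 hpd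
        exact h2.symm.dvd_of_dvd_mul_left hd.1.1
    rw [mq_mu_nsq h1, zero_mul]

theorem mq_ff_ndvd {R : ℝ} {p r : ℕ} (hp : p.Prime) (hr : 1 ≤ r) (h : ¬ p ∣ r) :
    ff R (p * r) = ff R r - ff (R / p) r := by
  have hp0 : (0 : ℝ) < p := by exact_mod_cast hp.pos
  have h1 : (p * r).divisors.filter (fun d : ℕ => (d : ℝ) ≤ R) =
      r.divisors.filter (fun d : ℕ => (d : ℝ) ≤ R) ∪
        (r.divisors.filter (fun d : ℕ => (d : ℝ) ≤ R / p)).image (fun d => p * d) := by
    ext d
    simp only [Finset.mem_filter, Nat.mem_divisors, Finset.mem_union, Finset.mem_image]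
    constructor
    · rintro ⟨⟨h2, h3⟩, h4⟩
      by_cases hpd : p ∣ d
      · right
        obtain ⟨e, rfl⟩ := hpd
        refine ⟨e, ⟨⟨Nat.dvd_of_mul_dvd_mul_left hp.pos h2, by omega⟩, ?_⟩, rfl⟩
        rw [le_div_iff₀ hp0]
        push_cast at h4
        linarith
      · left
        exact ⟨⟨((Nat.Prime.coprime_iff_not_dvd hp).2 hpd).symm.dvd_of_dvd_mul_left h2, by omega⟩, h4⟩
    · rintro (⟨⟨h2, h3⟩, h4⟩ | ⟨e, ⟨⟨h2, h3⟩, h4⟩, rfl⟩)
      · exact ⟨⟨h2.mul_left _, (Nat.mul_pos hp.pos hr).ne'⟩, h4⟩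
      · refine ⟨⟨Nat.mul_dvd_mul_left p h2, (Nat.mul_pos hp.pos hr).ne'⟩, ?_⟩
        rw [le_div_iff₀ hp0] at h4
        push_cast
        linarith
  have h2 : Disjoint (r.divisors.filter (fun d : ℕ => (d : ℝ) ≤ R))
      ((r.divisors.filter (fun d : ℕ => (d : ℝ) ≤ R / p)).image (fun d => p * d)) := by
    rw [Finset.disjoint_left]
    intro d hd hd'
    rw [Finset.mem_filter, Nat.mem_divisors] at hd
    rw [Finset.mem_image] at hd'
    obtain ⟨e, -, rfl⟩ := hd'
    exact h ((Dvd.intro e rfl).trans hd.1.1)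
  unfold ff
  rw [h1, Finset.sum_union h2, Finset.sum_image (fun a _ b _ hab =>
    Nat.eq_of_mul_eq_mul_left hp.pos hab), sub_eq_add_neg, ← Finset.sum_neg_distrib]
  congr 1
  refine Finset.sum_congr rfl fun d hd => ?_
  rw [Finset.mem_filter, Nat.mem_divisors] at hd
  have h3 : ¬ p ∣ d := fun h' => h (h'.trans hd.1.1)
  rw [mq_mu_prime_mul hp h3]
  have h4 : R / ((p * d : ℕ) : ℝ) = R / p / d := by
    push_cast
    rw [div_div]
  rw [h4]
  ring

/-- pointwise bound for the rough factor at a multiple of `p` -/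
theorem mq_Wr_pt {z M p r : ℕ} (hp : p.Prime) (hz : z < p) (hpM : p ≤ M) (hr : 1 ≤ r)
    (hrr : rough z r) :
    Wr z M 2 (p * r) ^ 2 * Real.log M ^ 2 ≤ 3 * ff M r ^ 2 + 3 * ff ((M : ℝ) / p) r ^ 2 +
      3 * (be z M 2 ^ 2 * (((PK M 2).filter (fun q => q ∣ r)).card : ℝ) ^ 2) := by
  have hpr : rough z p := by
    intro q hq h
    rw [(Nat.prime_dvd_prime_iff_eq hq hp).1 h]
    exact hz
  have h1 := wr_ff (z := z) (M := M) (K := 2) (Nat.mul_pos hp.pos hr) (WRS_rough_mul hpr hrr)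
  have h2 : (PK M 2).filter (fun q => q ∣ p * r) = (PK M 2).filter (fun q => q ∣ r) := by
    refine Finset.filter_congr fun q hq => ?_
    obtain ⟨h3, h4, h5⟩ := wwf_PK hq
    constructor
    · intro h6
      rcases (Nat.Prime.dvd_mul h5).1 h6 with h7 | h7
      · have := Nat.le_of_dvd hp.pos h7
        omega
      · exact h7
    · intro h6
      exact h6.mul_left _
  rw [h2] at h1
  rw [← mul_pow, h1]
  set b := be z M 2 * (((PK M 2).filter (fun q => q ∣ r)).card : ℝ) with hb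
  have h3 : be z M 2 ^ 2 * (((PK M 2).filter (fun q => q ∣ r)).card : ℝ) ^ 2 = b ^ 2 := by
    rw [hb]; ring
  rw [h3]
  by_cases h4 : p ∣ r
  · rw [mq_ff_dvd hp hr h4]
    nlinarith [sq_nonneg (ff M r + b), sq_nonneg (ff ((M : ℝ) / p) r), sq_nonneg (ff (M : ℝ) r),
      sq_nonneg b]
  · rw [mq_ff_ndvd hp hr h4]
    set x := ff (M : ℝ) r
    set y := ff ((M : ℝ) / p) r
    nlinarith [sq_nonneg (x + y), sq_nonneg (x + b), sq_nonneg (y - b)]

open Classical in
/-- the mean squares of the rough factor -/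
theorem mq_mean : ∃ C : ℝ, 1 ≤ C ∧ ∀ δ : ℝ, -(1 / 4) < δ → δ < 1 / 4 → ∃ N₀ : ℕ, ∀ N : ℕ, N₀ ≤ N →
    (Wr (zz N) (MM δ N) 2 1 = 1 ∧ ∀ Y : ℕ,
      ∑ r ∈ (Finset.Icc 2 Y).filter (fun r => rough (zz N) r), Wr (zz N) (MM δ N) 2 r ^ 2 ≤
        C / Real.log (MM δ N) * Y) ∧
    ∀ p : ℕ, p.Prime → zz N < p → p ≤ MM δ N →
      Wr (zz N) (MM δ N) 2 (p * 1) ^ 2 ≤ C ∧ ∀ Y : ℕ,
      ∑ r ∈ (Finset.Icc 2 Y).filter (fun r => rough (zz N) r),
        Wr (zz N) (MM δ N) 2 (p * r) ^ 2 ≤ C / Real.log (MM δ N) * Y := by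
  obtain ⟨C, hC0, hC⟩ := ff_sq (ε := 1) one_pos
  refine ⟨6 * (2 + C) + 18, by linarith, fun δ h0 h1 => ?_⟩
  obtain ⟨N₁, hN₁⟩ := be_smallM h0 h1 (ε := 1) one_pos
  obtain ⟨N₂, hN₂⟩ := wrq_len h1 1
  obtain ⟨N₃, hN₃⟩ := wr_sqM h0 h1 (ε := 1) one_pos
  refine ⟨max N₁ (max N₂ N₃), fun N hN => ?_⟩
  obtain ⟨hPKn, hbe, hs⟩ := hN₁ N ((le_max_left _ _).trans hN)
  obtain ⟨hM2, hL1⟩ := hN₂ N (((le_max_left _ _).trans (le_max_right _ _)).trans hN)
  have hsq := hN₃ N (((le_max_right _ _).trans (le_max_right _ _)).trans hN)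
  set M := MM δ N with hM
  set L := Real.log M with hL
  have hL0 : 0 < L := by linarith
  have hM1 : (1 : ℝ) ≤ M := by exact_mod_cast (by omega : 1 ≤ M)
  have hM0 : (0 : ℝ) < M := by linarith
  set b := be (zz N) M 2 with hb
  have hlog : ∀ (Y : ℕ) (R : ℝ), 1 ≤ Y → 1 ≤ R → R ≤ M → Real.log (min (Y : ℝ) R) ≤ L := by
    intro Y R hY hR hRM
    have hY1 : (1 : ℝ) ≤ Y := by exact_mod_cast hY
    exact Real.log_le_log (lt_min (by linarith) (by linarith)) ((min_le_right _ _).trans hRM)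
  have hff : ∀ (Y : ℕ) (R : ℝ), 1 ≤ Y → 1 ≤ R → R ≤ M →
      ∑ r ∈ (Finset.Icc 2 Y).filter (fun r => rough (zz N) r), ff R r ^ 2 ≤ (2 + C) * (Y * L) := by
    intro Y R hY hR hRM
    have hY0 : (0 : ℝ) ≤ Y := Nat.cast_nonneg _
    have h2 : ∑ r ∈ (Finset.Icc 2 Y).filter (fun r => rough (zz N) r), ff R r ^ 2 ≤
        (1 + 1) * Y * Real.log (min (Y : ℝ) R) + C * Y :=
      (Finset.sum_le_sum_of_subset_of_nonneg (Finset.filter_subset _ _)
        fun _ _ _ => sq_nonneg _).trans (hC R Y hR)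
    have h3 := mul_le_mul_of_nonneg_left (hlog Y R hY hR hRM) hY0
    have h4 : C * Y ≤ C * (Y * L) := by
      apply mul_le_mul_of_nonneg_left _ hC0
      exact le_mul_of_one_le_right hY0 hL1
    nlinarith
  refine ⟨⟨wr_one hM2, fun Y => ?_⟩, fun p hp hz hpM => ⟨?_, fun Y => ?_⟩⟩
  · refine (hsq Y).trans ?_
    rcases Nat.eq_zero_or_pos Y with hY | hY
    · subst hY; simp
    have hY0 : (0 : ℝ) ≤ Y := Nat.cast_nonneg _
    have h2 := hlog Y M hY hM1 le_rfl
    have h3 : (Y : ℝ) * (Real.log (min (Y : ℝ) M) + 1 * L) / L ^ 2 ≤ 2 / L * Y := by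
      rw [div_le_iff₀ (by positivity)]
      have h4 : 2 / L * Y * L ^ 2 = Y * (L + L) := by field_simp; ring
      rw [h4]
      exact mul_le_mul_of_nonneg_left (by linarith) hY0
    refine h3.trans ?_
    have h5 : 2 / L ≤ (6 * (2 + C) + 18) / L := by
      apply div_le_div_of_nonneg_right _ hL0.le
      linarith
    exact mul_le_mul_of_nonneg_right h5 hY0
  · have h2 := mq_Wr_pt (z := zz N) (M := M) (r := 1) hp hz hpM le_rfl (by
      intro q hq h
      exact absurd (Nat.dvd_one.1 h) hq.one_lt.ne')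
    have hp1 : (1 : ℝ) ≤ p := by exact_mod_cast hp.one_lt.le
    have hpM' : (p : ℝ) ≤ M := by exact_mod_cast hpM
    have hp0 : (0 : ℝ) < p := by linarith
    have hMp : 1 ≤ (M : ℝ) / p := by rw [le_div_iff₀ hp0]; linarith
    have h3 : ∀ R : ℝ, 1 ≤ R → ff R 1 = Real.log R := by
      intro R hR
      unfold ff
      have h4 : (Nat.divisors 1).filter (fun d : ℕ => (d : ℝ) ≤ R) = {1} := by
        rw [Nat.divisors_one]
        rw [Finset.filter_eq_self]
        intro x hx
        rw [Finset.mem_singleton] at hx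
        subst hx
        simpa using hR
      rw [h4, Finset.sum_singleton]
      simp [mu]
    have h4 : (PK M 2).filter (fun q => q ∣ 1) = ∅ := by
      rw [Finset.filter_eq_empty_iff]
      intro q hq h
      exact absurd (Nat.dvd_one.1 h) (wwf_PK hq).2.2.one_lt.ne'
    rw [h3 _ hM1, h3 _ hMp, h4] at h2
    simp only [Finset.card_empty, Nat.cast_zero] at h2
    have h5 : Real.log ((M : ℝ) / p) ≤ L := Real.log_le_log (by linarith) (by
      rw [div_le_iff₀ hp0]; nlinarith)
    have h6 : 0 ≤ Real.log ((M : ℝ) / p) := Real.log_nonneg hMp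
    have h7 : Real.log ((M : ℝ) / p) ^ 2 ≤ L ^ 2 := pow_le_pow_left₀ h6 h5 2
    have h8 : Wr (zz N) M 2 (p * 1) ^ 2 * L ^ 2 ≤ 6 * L ^ 2 := by linarith
    have h9 : Wr (zz N) M 2 (p * 1) ^ 2 ≤ 6 := le_of_mul_le_mul_right h8 (by positivity)
    linarith
  · rcases Nat.eq_zero_or_pos Y with hY | hY
    · subst hY; simp
    have hY0 : (0 : ℝ) ≤ Y := Nat.cast_nonneg _
    have hp1 : (1 : ℝ) ≤ p := by exact_mod_cast hp.one_lt.le
    have hpM' : (p : ℝ) ≤ M := by exact_mod_cast hpM
    have hp0 : (0 : ℝ) < p := by linarith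
    have hMp : 1 ≤ (M : ℝ) / p := by rw [le_div_iff₀ hp0]; linarith
    have hMp' : (M : ℝ) / p ≤ M := by rw [div_le_iff₀ hp0]; nlinarith
    set s := ∑ p ∈ PK M 2, 1 / (p : ℝ) with hsd
    have hs0 : 0 ≤ s := Finset.sum_nonneg fun p _ => by positivity
    have hPKp : ∀ p ∈ PK M 2, p.Prime := fun p hp => (Finset.mem_filter.1 hp).2
    have hcnt : ∑ r ∈ (Finset.Icc 2 Y).filter (fun r => rough (zz N) r),
        (((PK M 2).filter (fun p => p ∣ r)).card : ℝ) ^ 2 ≤ Y * (s + s ^ 2) :=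
      (Finset.sum_le_sum_of_subset_of_nonneg ((Finset.filter_subset _ _).trans
        (Finset.Icc_subset_Icc_left (by norm_num))) fun _ _ _ => sq_nonneg _).trans
        (wrq_cnt (PK M 2) hPKp Y)
    have hb2 : b ^ 2 ≤ L ^ 2 := by
      rw [← sq_abs b]
      exact pow_le_pow_left₀ (abs_nonneg _) (by linarith) 2
    have hss : L ^ 2 * (s + s ^ 2) ≤ 6 * L := by
      have h2 : s * L ≤ 2 := by
        rw [le_div_iff₀ hL0] at hs; exact hs
      have h3 : 0 ≤ s * L := mul_nonneg hs0 hL0.le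
      nlinarith [h2, h3, hL1]
    have hsum : (∑ r ∈ (Finset.Icc 2 Y).filter (fun r => rough (zz N) r),
        Wr (zz N) M 2 (p * r) ^ 2) * L ^ 2 ≤
        3 * ((2 + C) * (Y * L)) + 3 * ((2 + C) * (Y * L)) + 3 * (b ^ 2 * (Y * (s + s ^ 2))) := by
      rw [Finset.sum_mul]
      have h9 : ∀ r ∈ (Finset.Icc 2 Y).filter (fun r => rough (zz N) r),
          Wr (zz N) M 2 (p * r) ^ 2 * L ^ 2 ≤ 3 * ff M r ^ 2 + 3 * ff ((M : ℝ) / p) r ^ 2 +
            3 * (b ^ 2 * (((PK M 2).filter (fun q => q ∣ r)).card : ℝ) ^ 2) := by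
        intro r hr
        rw [Finset.mem_filter, Finset.mem_Icc] at hr
        exact mq_Wr_pt hp hz hpM (by omega) hr.2
      refine (Finset.sum_le_sum h9).trans ?_
      rw [Finset.sum_add_distrib, Finset.sum_add_distrib, ← Finset.mul_sum, ← Finset.mul_sum,
        ← Finset.mul_sum, ← Finset.mul_sum]
      refine add_le_add (add_le_add ?_ ?_) ?_
      · exact mul_le_mul_of_nonneg_left (hff Y M hY hM1 le_rfl) (by norm_num)
      · exact mul_le_mul_of_nonneg_left (hff Y _ hY hMp hMp') (by norm_num)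
      · refine mul_le_mul_of_nonneg_left ?_ (by norm_num)
        exact mul_le_mul_of_nonneg_left hcnt (sq_nonneg _)
    have h2 : b ^ 2 * (Y * (s + s ^ 2)) ≤ 6 * (Y * L) := by
      calc b ^ 2 * (Y * (s + s ^ 2)) ≤ L ^ 2 * (Y * (s + s ^ 2)) :=
            mul_le_mul_of_nonneg_right hb2 (by positivity)
        _ = Y * (L ^ 2 * (s + s ^ 2)) := by ring
        _ ≤ Y * (6 * L) := mul_le_mul_of_nonneg_left hss hY0
        _ = 6 * (Y * L) := by ring
    have h3 : (∑ r ∈ (Finset.Icc 2 Y).filter (fun r => rough (zz N) r),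
        Wr (zz N) M 2 (p * r) ^ 2) * L ^ 2 ≤ (6 * (2 + C) + 18) * (Y * L) := by linarith
    have h4 : (6 * (2 + C) + 18) / L * Y * L ^ 2 = (6 * (2 + C) + 18) * (Y * L) := by
      field_simp
    rw [← h4] at h3
    exact le_of_mul_le_mul_right h3 (by positivity)

/-- the trivial bound -/
theorem mq_Wr_triv {z M : ℕ} (hM : 2 ≤ M) (hb : |be z M 2| ≤ Real.log M) (n : ℕ) :
    |Wr z M 2 n| ≤ 2 * M := by
  classical
  have hL : 0 < Real.log M := Real.log_pos (by exact_mod_cast hM)
  unfold Wr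
  have h1 : ∀ e ∈ n.divisors, |(e : ℝ) * yE z M 2 e| ≤ if e ≤ 2 * M then 1 else 0 := by
    intro e he
    have he1 := Nat.pos_of_mem_divisors he
    have he0 : (0 : ℝ) < e := by exact_mod_cast he1
    by_cases h : yE z M 2 e = 0
    · rw [h, mul_zero, abs_zero]
      split_ifs <;> norm_num
    · have h2 := wwf_yE_le (by norm_num) h
      rw [if_pos h2]
      have h3 : |gE z M 2 e| ≤ Real.log M := by
        unfold gE
        split_ifs with h4 h5
        · have h6 : (1 : ℝ) ≤ (M : ℝ) / e := by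
            rw [le_div_iff₀ he0, one_mul]
            exact_mod_cast h4
          rw [abs_of_nonneg (Real.log_nonneg h6)]
          refine Real.log_le_log (by linarith) ?_
          rw [div_le_iff₀ he0]
          have h7 : (1 : ℝ) ≤ e := by exact_mod_cast he1
          have h8 : (0 : ℝ) ≤ M := Nat.cast_nonneg _
          nlinarith
        · exact hb
        · rw [abs_zero]
          exact hL.le
      have h4 : (e : ℝ) * yE z M 2 e = mu e * gE z M 2 e / Real.log M := by
        unfold yE at h ⊢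
        split_ifs at h ⊢ with h5
        · field_simp
        · exact absurd rfl h
      rw [h4, abs_div, abs_mul, abs_of_pos hL, div_le_one hL]
      calc |mu e| * |gE z M 2 e| ≤ 1 * Real.log M :=
            mul_le_mul (WRS_mu_abs e) h3 (abs_nonneg _) (by norm_num)
        _ = Real.log M := one_mul _
  calc |∑ e ∈ n.divisors, (e : ℝ) * yE z M 2 e| ≤ ∑ e ∈ n.divisors, |(e : ℝ) * yE z M 2 e| :=
        Finset.abs_sum_le_sum_abs _ _
    _ ≤ ∑ e ∈ n.divisors, (if e ≤ 2 * M then (1 : ℝ) else 0) := Finset.sum_le_sum h1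
    _ = ((n.divisors.filter (fun e => e ≤ 2 * M)).card : ℝ) := by
        rw [← Finset.sum_filter, Finset.sum_const, nsmul_eq_mul, mul_one]
    _ ≤ ((Finset.Icc 1 (2 * M)).card : ℝ) := by
        exact_mod_cast Finset.card_le_card (by
          intro e he
          rw [Finset.mem_filter] at he
          rw [Finset.mem_Icc]
          exact ⟨Nat.pos_of_mem_divisors he.1, he.2⟩)
    _ = 2 * M := by
        rw [Nat.card_Icc]
        push_cast [Nat.add_sub_cancel]
        ring

end Pool.Agent.LSP
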