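import Pool.Agent.Lib_helper46.LSP2.MQ2

/-!
# LSP2, module MQ (`m2_quad`), part 3: the sum over the primes of the band
-/

set_option autoImplicit false

namespace Pool.Agent.LSP

open Pool.Agent.LEV Pool.Agent.LVB Pool.Agent.KSL
open Pool.Agent.FG61 (mu phi cc ff AA Lam)

theorem mq_sq_add (x y : ℝ) : (x + y) ^ 2 ≤ 2 * x ^ 2 + 2 * y ^ 2 := by
  nlinarith [sq_nonneg (x - y)]

/-- the number of the primes of the band dividing an integer -/
theorem mq_omega {P : Finset ℕ} {y : ℝ} (hy : 1 < y) (hP : ∀ p ∈ P, p.Prime ∧ y ≤ p) {r : ℕ}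
    (hr : 1 ≤ r) : ((P.filter (fun p => p ∣ r)).card : ℝ) * Real.log y ≤ Real.log r := by
  classical
  have h1 : ∏ p ∈ P.filter (fun p => p ∣ r), p ∣ r := by
    refine Finset.prod_primes_dvd r (fun p hp => ?_) (fun p hp => (Finset.mem_filter.1 hp).2)
    exact (hP p (Finset.mem_filter.1 hp).1).1.prime
  have h2 := Nat.le_of_dvd (by omega) h1
  have h3 : y ^ (P.filter (fun p => p ∣ r)).card ≤ (r : ℝ) := by
    calc y ^ (P.filter (fun p => p ∣ r)).card = ∏ _p ∈ P.filter (fun p => p ∣ r), y := by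
          rw [Finset.prod_const]
      _ ≤ ∏ p ∈ P.filter (fun p => p ∣ r), (p : ℝ) := by
          refine Finset.prod_le_prod (fun p _ => by linarith) fun p hp => ?_
          exact (hP p (Finset.mem_filter.1 hp).1).2
      _ = ((∏ p ∈ P.filter (fun p => p ∣ r), p : ℕ) : ℝ) := by push_cast; rfl
      _ ≤ r := by exact_mod_cast h2
  have h4 := Real.log_le_log (by positivity) h3
  rwa [Real.log_pow] at h4

/-- the sum of the reciprocals of the primes of the band -/
theorem mq_recip {P : Finset ℕ} {X : ℕ} {W : ℝ} (hX : 1 ≤ X) (hP : ∀ p ∈ P, 1 ≤ p ∧ 2 * p ≤ X)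
    (hW : ∀ r, 1 ≤ r → r ≤ X → ((P.filter (fun p => p ∣ r)).card : ℝ) ≤ W) :
    ∑ p ∈ P, 1 / (p : ℝ) ≤ 2 * W := by
  classical
  have hX0 : (0 : ℝ) < X := by exact_mod_cast hX
  have h1 : ∑ r ∈ Finset.Icc 1 X, ((P.filter (fun p => p ∣ r)).card : ℝ) ≤ X * W := by
    calc _ ≤ ∑ _r ∈ Finset.Icc 1 X, W := by
          refine Finset.sum_le_sum fun r hr => ?_
          rw [Finset.mem_Icc] at hr
          exact hW r hr.1 hr.2
      _ = X * W := by
          rw [Finset.sum_const, Nat.card_Icc, nsmul_eq_mul, Nat.add_sub_cancel]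
  have h2 : ∑ r ∈ Finset.Icc 1 X, ((P.filter (fun p => p ∣ r)).card : ℝ) =
      ∑ p ∈ P, (((Finset.Icc 1 X).filter (fun r => p ∣ r)).card : ℝ) := by
    have h3 : ∀ r : ℕ, ((P.filter (fun p => p ∣ r)).card : ℝ) =
        ∑ p ∈ P, (if p ∣ r then (1 : ℝ) else 0) := by
      intro r
      rw [← Finset.sum_filter, Finset.sum_const, nsmul_eq_mul, mul_one]
    rw [Finset.sum_congr rfl fun r _ => h3 r, Finset.sum_comm]
    refine Finset.sum_congr rfl fun p _ => ?_
    rw [← Finset.sum_filter, Finset.sum_const, nsmul_eq_mul, mul_one]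
  have h3 : ∀ p ∈ P, (X : ℝ) / 2 * (1 / (p : ℝ)) ≤
      (((Finset.Icc 1 X).filter (fun r => p ∣ r)).card : ℝ) := by
    intro p hp
    obtain ⟨h4, h5⟩ := hP p hp
    have h6 : (Finset.Icc 1 X).filter (fun n => p ∣ n) = (Finset.Ioc 0 X).filter (fun n => p ∣ n) := rfl
    rw [h6, Nat.Ioc_filter_dvd_card_eq_div]
    have hp0 : (0 : ℝ) < p := by exact_mod_cast h4
    have h7 : X < p * (X / p + 1) := Nat.lt_mul_div_succ X (by omega)
    have h8 : (X : ℝ) < p * ((X / p : ℕ) + 1) := by exact_mod_cast h7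
    have h9 : (2 : ℝ) * p ≤ X := by exact_mod_cast h5
    have h10 : (X : ℝ) / 2 * (1 / (p : ℝ)) = X / 2 / p := by ring
    rw [h10, div_le_iff₀ hp0]
    nlinarith
  have h4 : (X : ℝ) / 2 * ∑ p ∈ P, 1 / (p : ℝ) ≤ X * W := by
    rw [Finset.mul_sum]
    refine (Finset.sum_le_sum h3).trans ?_
    rw [← h2]
    exact h1
  have h5 : (X : ℝ) / 2 * ∑ p ∈ P, 1 / (p : ℝ) ≤ X / 2 * (2 * W) := by
    refine h4.trans (le_of_eq (by ring))
  exact le_of_mul_le_mul_left h5 (by positivity)

open Classical in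
theorem mq_inner {P : Finset ℕ} {z M : ℕ} {θ : ℕ → ℝ} {W C₃ K T₀ : ℝ} {R₀ : ℕ}
    (hP : ∀ p ∈ P, p.Prime ∧ z < p) (hθ : ∀ p ∈ P, |θ p| ≤ 1) (hR₀ : 1 ≤ R₀) (hK : 0 ≤ K)
    (hW0 : 0 ≤ W) (hC₃ : 0 ≤ C₃)
    (hW : ∀ r, 1 ≤ r → r ≤ R₀ → ((P.filter (fun p => p ∣ r)).card : ℝ) ≤ W)
    (hS₁ : ∑ p ∈ P, 1 / (p : ℝ) ≤ 2 * W)
    (hA : ∀ Y : ℕ, ∑ r ∈ (Finset.Icc 1 Y).filter (fun r => rough z r),
      Wr z M 2 r ^ 2 * mqG K r ≤ C₃)
    (hB : ∀ p ∈ P, ∀ Y : ℕ, ∑ r ∈ (Finset.Icc 1 Y).filter (fun r => rough z r),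
      Wr z M 2 (p * r) ^ 2 * mqG K r ≤ C₃)
    (hT : ∀ r, |Wr z M 2 r| ≤ T₀) (Y : ℕ) :
    ∑ r ∈ (Finset.Icc 1 Y).filter (fun r => rough z r), UY P θ z M r ^ 2 * mqG K r ≤
      6 * W * C₃ * ∑ p ∈ P, θ p ^ 2 / p + 2 * ((P.card : ℝ) * T₀) ^ 2 * (K / R₀) := by
  have hT0 : 0 ≤ T₀ := (abs_nonneg _).trans (hT 0)
  have hG0 : ∀ r, 0 ≤ mqG K r := mqG_nonneg hK
  set Θ := ∑ p ∈ P, θ p ^ 2 / (p : ℝ) with hΘ
  have hΘ0 : 0 ≤ Θ := Finset.sum_nonneg fun p _ => by positivity
  set A : ℕ → ℝ := fun r => ∑ p ∈ P, θ p * (if p ∣ r then Wr z M 2 (r / p) else 0) with hAd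
  set B : ℕ → ℝ := fun r => ∑ p ∈ P, θ p * (Wr z M 2 (p * r) / p) with hBd
  have hU : ∀ r, UY P θ z M r = A r + B r := by
    intro r
    simp only [hAd, hBd, UY]
    rw [← Finset.sum_add_distrib]
    exact Finset.sum_congr rfl fun p _ => by ring
  set S := (Finset.Icc 1 Y).filter (fun r => rough z r) with hS
  have h1 : ∑ r ∈ S, UY P θ z M r ^ 2 * mqG K r ≤
      2 * ∑ r ∈ S, A r ^ 2 * mqG K r + 2 * ∑ r ∈ S, B r ^ 2 * mqG K r := by
    rw [Finset.mul_sum, Finset.mul_sum, ← Finset.sum_add_distrib]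
    refine Finset.sum_le_sum fun r _ => ?_
    rw [hU]
    have := mul_le_mul_of_nonneg_right (mq_sq_add (A r) (B r)) (hG0 r)
    linarith
  -- the second part
  have hBs : ∑ r ∈ S, B r ^ 2 * mqG K r ≤ 2 * W * C₃ * Θ := by
    have h2 : ∀ r, B r ^ 2 ≤ 2 * W * ∑ p ∈ P, θ p ^ 2 / p * Wr z M 2 (p * r) ^ 2 := by
      intro r
      have h3 := Finset.sum_mul_sq_le_sq_mul_sq P (fun p => 1 / Real.sqrt p)
        (fun p => θ p * Wr z M 2 (p * r) / Real.sqrt p)
      have h4 : ∑ p ∈ P, 1 / Real.sqrt p * (θ p * Wr z M 2 (p * r) / Real.sqrt p) = B r := by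
        refine Finset.sum_congr rfl fun p hp => ?_
        have hp0 : (0 : ℝ) < p := by exact_mod_cast (hP p hp).1.pos
        have h5 : Real.sqrt p * Real.sqrt p = p := Real.mul_self_sqrt hp0.le
        have h6 : 0 < Real.sqrt p := Real.sqrt_pos.2 hp0
        rw [div_mul_div_comm, one_mul, h5]
        ring
      have h5 : ∑ p ∈ P, (1 / Real.sqrt p) ^ 2 = ∑ p ∈ P, 1 / (p : ℝ) := by
        refine Finset.sum_congr rfl fun p _ => ?_
        rw [div_pow, one_pow, Real.sq_sqrt (Nat.cast_nonneg _)]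
      have h6 : ∑ p ∈ P, (θ p * Wr z M 2 (p * r) / Real.sqrt p) ^ 2 =
          ∑ p ∈ P, θ p ^ 2 / p * Wr z M 2 (p * r) ^ 2 := by
        refine Finset.sum_congr rfl fun p _ => ?_
        rw [div_pow, Real.sq_sqrt (Nat.cast_nonneg _)]
        ring
      rw [h4, h5, h6] at h3
      refine h3.trans (mul_le_mul_of_nonneg_right hS₁ ?_)
      exact Finset.sum_nonneg fun p _ => by positivity
    calc ∑ r ∈ S, B r ^ 2 * mqG K r ≤
        ∑ r ∈ S, (2 * W * ∑ p ∈ P, θ p ^ 2 / p * Wr z M 2 (p * r) ^ 2) * mqG K r :=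
          Finset.sum_le_sum fun r _ => mul_le_mul_of_nonneg_right (h2 r) (hG0 r)
      _ = 2 * W * ∑ p ∈ P, θ p ^ 2 / p * ∑ r ∈ S, Wr z M 2 (p * r) ^ 2 * mqG K r := by
          simp_rw [Finset.mul_sum, Finset.sum_mul]
          rw [Finset.sum_comm]
          refine Finset.sum_congr rfl fun p _ => Finset.sum_congr rfl fun r _ => ?_
          ring
      _ ≤ 2 * W * ∑ p ∈ P, θ p ^ 2 / p * C₃ := by
          refine mul_le_mul_of_nonneg_left (Finset.sum_le_sum fun p hp => ?_) (by positivity)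
          exact mul_le_mul_of_nonneg_left (hB p hp Y) (by positivity)
      _ = 2 * W * C₃ * Θ := by
          rw [← Finset.sum_mul]
          ring
  -- the first part
  have hAs : ∑ r ∈ S, A r ^ 2 * mqG K r ≤
      W * C₃ * Θ + ((P.card : ℝ) * T₀) ^ 2 * (K / R₀) := by
    rw [← Finset.sum_filter_add_sum_filter_not S (fun r => r ≤ R₀)]
    refine add_le_add ?_ ?_
    · have h2 : ∀ r ∈ S.filter (fun r => r ≤ R₀), A r ^ 2 ≤
          W * ∑ p ∈ P, (if p ∣ r then θ p ^ 2 * Wr z M 2 (r / p) ^ 2 else 0) := by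
        intro r hr
        rw [Finset.mem_filter, hS, Finset.mem_filter, Finset.mem_Icc] at hr
        have h3 : A r = ∑ p ∈ P.filter (fun p => p ∣ r), θ p * Wr z M 2 (r / p) := by
          simp only [hAd]
          rw [Finset.sum_filter]
          refine Finset.sum_congr rfl fun p _ => ?_
          split_ifs <;> simp
        have h4 : ∑ p ∈ P, (if p ∣ r then θ p ^ 2 * Wr z M 2 (r / p) ^ 2 else 0) =
            ∑ p ∈ P.filter (fun p => p ∣ r), (θ p * Wr z M 2 (r / p)) ^ 2 := by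
          rw [Finset.sum_filter]
          refine Finset.sum_congr rfl fun p _ => ?_
          split_ifs <;> ring
        rw [h3, h4]
        refine (sq_sum_le_card_mul_sum_sq).trans ?_
        refine mul_le_mul_of_nonneg_right (hW r hr.1.1.1 hr.2) ?_
        exact Finset.sum_nonneg fun p _ => sq_nonneg _
      have h3 : ∀ p ∈ P, ∑ r ∈ S.filter (fun r => r ≤ R₀),
          (if p ∣ r then Wr z M 2 (r / p) ^ 2 else 0) * mqG K r ≤ C₃ / p := by
        intro p hp
        obtain ⟨hpp, hzp⟩ := hP p hp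
        have hp0 : (0 : ℝ) < p := by exact_mod_cast hpp.pos
        have hp1 : (1 : ℝ) ≤ p := by exact_mod_cast hpp.one_lt.le
        rw [le_div_iff₀ hp0]
        refine le_trans ?_ (hA Y)
        rw [Finset.sum_mul]
        have h4 : ∑ r ∈ S.filter (fun r => r ≤ R₀),
            (if p ∣ r then Wr z M 2 (r / p) ^ 2 else 0) * mqG K r * p =
            ∑ r ∈ (S.filter (fun r => r ≤ R₀)).filter (fun r => p ∣ r),
              Wr z M 2 (r / p) ^ 2 * mqG K r * p := by
          rw [Finset.sum_filter (s := S.filter (fun r => r ≤ R₀)) (fun r => p ∣ r)]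
          refine Finset.sum_congr rfl fun r _ => ?_
          split_ifs <;> simp
        rw [h4]
        have h5 : ∑ r ∈ (S.filter (fun r => r ≤ R₀)).filter (fun r => p ∣ r),
              Wr z M 2 (r / p) ^ 2 * mqG K r * p ≤
            ∑ r ∈ (S.filter (fun r => r ≤ R₀)).filter (fun r => p ∣ r),
              Wr z M 2 (r / p) ^ 2 * mqG K (r / p) := by
          refine Finset.sum_le_sum fun r hr => ?_
          rw [Finset.mem_filter, Finset.mem_filter, hS, Finset.mem_filter, Finset.mem_Icc] at hr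
          obtain ⟨⟨⟨⟨h6, -⟩, -⟩, -⟩, q, rfl⟩ := hr
          rw [Nat.mul_div_cancel_left q hpp.pos]
          have hq : 1 ≤ q := Nat.one_le_iff_ne_zero.2 (by rintro rfl; simp at h6)
          have hq0 : (0 : ℝ) < q := by exact_mod_cast hq
          rw [mul_assoc]
          refine mul_le_mul_of_nonneg_left ?_ (sq_nonneg _)
          unfold mqG
          rw [min_mul_of_nonneg _ _ hp0.le]
          push_cast
          refine min_le_min ?_ ?_
          · rw [div_mul_eq_mul_div, one_mul]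
            rw [div_le_div_iff₀ (by positivity) hq0]
            exact le_of_eq (by ring)
          · rw [div_mul_eq_mul_div, div_le_div_iff₀ (by positivity) (by positivity)]
            have h7 : K * p * q ^ 2 ≤ K * p * q ^ 2 * p := le_mul_of_one_le_right (by positivity) hp1
            calc K * p * (q : ℝ) ^ 2 ≤ K * p * q ^ 2 * p := h7
              _ = K * (p * q) ^ 2 := by ring
        refine h5.trans ?_
        rw [← Finset.sum_image (s := (S.filter (fun r => r ≤ R₀)).filter (fun r => p ∣ r))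
          (g := fun r => r / p) (f := fun q => Wr z M 2 q ^ 2 * mqG K q)]
        · refine Finset.sum_le_sum_of_subset_of_nonneg ?_ fun q _ _ =>
            mul_nonneg (sq_nonneg _) (hG0 q)
          intro q hq
          rw [Finset.mem_image] at hq
          obtain ⟨r, hr, rfl⟩ := hq
          rw [Finset.mem_filter, Finset.mem_filter, hS, Finset.mem_filter, Finset.mem_Icc] at hr
          obtain ⟨⟨⟨⟨h6, h7⟩, h8⟩, -⟩, q, rfl⟩ := hr
          rw [Nat.mul_div_cancel_left q hpp.pos]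
          rw [Finset.mem_filter, Finset.mem_Icc]
          refine ⟨⟨Nat.one_le_iff_ne_zero.2 (by rintro rfl; simp at h6),
            (Nat.le_mul_of_pos_left q hpp.pos).trans h7⟩, ?_⟩
          intro t ht hd
          exact h8 t ht (hd.mul_left _)
        · intro r hr r' hr' h
          simp only [Finset.coe_filter, Set.mem_setOf_eq] at hr hr'
          obtain ⟨q, rfl⟩ := hr.2
          obtain ⟨q', rfl⟩ := hr'.2
          simp only [Nat.mul_div_cancel_left _ hpp.pos] at h
          rw [h]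
      calc ∑ r ∈ S.filter (fun r => r ≤ R₀), A r ^ 2 * mqG K r ≤
          ∑ r ∈ S.filter (fun r => r ≤ R₀), (W * ∑ p ∈ P,
            (if p ∣ r then θ p ^ 2 * Wr z M 2 (r / p) ^ 2 else 0)) * mqG K r :=
            Finset.sum_le_sum fun r hr => mul_le_mul_of_nonneg_right (h2 r hr) (hG0 r)
        _ = W * ∑ p ∈ P, θ p ^ 2 * ∑ r ∈ S.filter (fun r => r ≤ R₀),
            (if p ∣ r then Wr z M 2 (r / p) ^ 2 else 0) * mqG K r := by
            simp_rw [Finset.mul_sum, Finset.sum_mul]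
            rw [Finset.sum_comm]
            refine Finset.sum_congr rfl fun p _ => Finset.sum_congr rfl fun r _ => ?_
            split_ifs <;> ring
        _ ≤ W * ∑ p ∈ P, θ p ^ 2 * (C₃ / p) := by
            refine mul_le_mul_of_nonneg_left (Finset.sum_le_sum fun p hp => ?_) hW0
            exact mul_le_mul_of_nonneg_left (h3 p hp) (sq_nonneg _)
        _ = W * C₃ * Θ := by
            rw [hΘ, Finset.mul_sum, Finset.mul_sum]
            refine Finset.sum_congr rfl fun p _ => ?_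
            ring
    · have h2 : ∀ r, |A r| ≤ (P.card : ℝ) * T₀ := by
        intro r
        calc |A r| ≤ ∑ p ∈ P, |θ p * (if p ∣ r then Wr z M 2 (r / p) else 0)| :=
              Finset.abs_sum_le_sum_abs _ _
          _ ≤ ∑ _p ∈ P, T₀ := by
              refine Finset.sum_le_sum fun p hp => ?_
              rw [abs_mul]
              have h3 : |(if p ∣ r then Wr z M 2 (r / p) else 0)| ≤ T₀ := by
                split_ifs
                · exact hT _
                · rw [abs_zero]; exact hT0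
              calc |θ p| * |(if p ∣ r then Wr z M 2 (r / p) else 0)| ≤ 1 * T₀ :=
                    mul_le_mul (hθ p hp) h3 (abs_nonneg _) (by norm_num)
                _ = T₀ := one_mul _
          _ = (P.card : ℝ) * T₀ := by rw [Finset.sum_const, nsmul_eq_mul]
      have h3 : ∀ r, A r ^ 2 ≤ ((P.card : ℝ) * T₀) ^ 2 := fun r => by
        rw [← sq_abs]
        exact pow_le_pow_left₀ (abs_nonneg _) (h2 r) 2
      calc ∑ r ∈ S.filter (fun r => ¬ r ≤ R₀), A r ^ 2 * mqG K r ≤
          ∑ r ∈ S.filter (fun r => ¬ r ≤ R₀), ((P.card : ℝ) * T₀) ^ 2 * (K / (r : ℝ) ^ 2) := by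
            refine Finset.sum_le_sum fun r _ => ?_
            refine mul_le_mul (h3 r) (min_le_right _ _) (hG0 r) (by positivity)
        _ = ((P.card : ℝ) * T₀) ^ 2 * K * ∑ r ∈ S.filter (fun r => ¬ r ≤ R₀), 1 / (r : ℝ) ^ 2 := by
            rw [Finset.mul_sum]
            refine Finset.sum_congr rfl fun r _ => ?_
            ring
        _ ≤ ((P.card : ℝ) * T₀) ^ 2 * K * (1 / R₀) := by
            refine mul_le_mul_of_nonneg_left ?_ (by positivity)
            have h4 := HG_sq hR₀ (le_max_right Y R₀)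
            have h5 : 0 ≤ 1 / ((max Y R₀ : ℕ) : ℝ) := by positivity
            have h6 : ∑ r ∈ S.filter (fun r => ¬ r ≤ R₀), 1 / (r : ℝ) ^ 2 ≤
                ∑ r ∈ Finset.Ico R₀ (max Y R₀), 1 / ((r : ℝ) + 1) ^ 2 := by
              have h7 : ∑ r ∈ Finset.Ico R₀ (max Y R₀), 1 / ((r : ℝ) + 1) ^ 2 =
                  ∑ r ∈ (Finset.Ico R₀ (max Y R₀)).image (fun r : ℕ => r + 1), 1 / (r : ℝ) ^ 2 := by
                rw [Finset.sum_image (fun a _ b _ h => Nat.succ_injective h)]
                refine Finset.sum_congr rfl fun r _ => ?_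
                push_cast
                rfl
              rw [h7]
              refine Finset.sum_le_sum_of_subset_of_nonneg ?_ fun r _ _ => by positivity
              intro r hr
              rw [Finset.mem_filter, hS, Finset.mem_filter, Finset.mem_Icc] at hr
              rw [Finset.mem_image]
              refine ⟨r - 1, ?_, by omega⟩
              rw [Finset.mem_Ico]
              omega
            linarith
        _ = ((P.card : ℝ) * T₀) ^ 2 * (K / R₀) := by ring
  calc _ ≤ _ := h1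
    _ ≤ 2 * (W * C₃ * Θ + ((P.card : ℝ) * T₀) ^ 2 * (K / R₀)) + 2 * (2 * W * C₃ * Θ) := by
        linarith
    _ = _ := by ring

open Classical in
/-- the sum over all Fourier coefficients -/
theorem mq_HG {z A : ℕ} {a : ℕ → ℝ} (ha : ∀ k, a k ≠ 0 → smooth z k ∧ k ≤ A) {U V : ℕ → ℝ}
    (hV : ∀ n, 1 ≤ n → V n = Ph A a n * U n) (hU : ∀ n, 1 ≤ n → U n = U (rop z n)) {K B : ℝ}
    (hB : ∀ Y : ℕ, ∑ r ∈ (Finset.Icc 1 Y).filter (fun r => rough z r), U r ^ 2 * mqG K r ≤ B)
    (hB0 : 0 ≤ B) {h : ℕ → ℝ} (hh : ∀ n, 0 ≤ h n ∧ h n ≤ 1 ∧ h n * n ≤ K) :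
    Summable (fun n : ℕ => V n ^ 2 * h n / n) ∧ ∑' n : ℕ, V n ^ 2 * h n / n ≤ B * cn z A a := by
  obtain ⟨hsum, -⟩ := phi_al (z := z) (A := A) (a := a) ha
  set T : ℕ → ℝ := fun n => V n ^ 2 * h n / n with hT
  have hT0 : ∀ n, 0 ≤ T n := fun n =>
    div_nonneg (mul_nonneg (sq_nonneg _) (hh n).1) (Nat.cast_nonneg _)
  have hin : ∀ m X : ℕ, 1 ≤ m → ∑ r ∈ (Finset.Icc 1 X).filter (fun r => rough z r),
      U r ^ 2 * h (m * r) / r ≤ B := by
    intro m X hm
    refine le_trans (Finset.sum_le_sum fun r hr => ?_) (hB X)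
    rw [Finset.mem_filter, Finset.mem_Icc] at hr
    have hr0 : (0 : ℝ) < r := by exact_mod_cast hr.1.1
    rw [mul_div_assoc]
    refine mul_le_mul_of_nonneg_left ?_ (sq_nonneg _)
    obtain ⟨g1, g2, g3⟩ := hh (m * r)
    unfold mqG
    refine le_min (div_le_div_of_nonneg_right g2 hr0.le) ?_
    rw [div_le_div_iff₀ hr0 (by positivity)]
    have hm1 : (1 : ℝ) ≤ m := by exact_mod_cast hm
    have g4 : h (m * r) * (r : ℝ) ≤ K := by
      refine le_trans ?_ g3
      refine mul_le_mul_of_nonneg_left ?_ g1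
      push_cast
      nlinarith
    calc h (m * r) * (r : ℝ) ^ 2 = (h (m * r) * (r : ℝ)) * r := by ring
      _ ≤ K * r := mul_le_mul_of_nonneg_right g4 hr0.le
  have hfin : ∀ X : ℕ, ∑ n ∈ Finset.Icc 1 X, T n ≤ B * cn z A a := by
    intro X
    have e1 : ∀ n ∈ Finset.Icc 1 X, T n = (fun m r : ℕ => Ph A a m ^ 2 / m *
        (U r ^ 2 * h (m * r) / r)) (smp z n) (rop z n) := by
      intro n hn
      rw [Finset.mem_Icc] at hn
      simp only [hT]
      rw [hV n hn.1, ph_smp ha hn.1, hU n hn.1]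
      have g1 := (smp_rop (z := z) hn.1).1
      have g2 : (n : ℝ) = (smp z n : ℝ) * (rop z n : ℝ) := by rw [← Nat.cast_mul, g1]
      rw [g1, g2]
      rw [div_mul_div_comm]
      congr 1
      ring
    rw [Finset.sum_congr rfl e1]
    calc _ ≤ ∑ m ∈ (Finset.Icc 1 X).filter (fun m => smooth z m),
        ∑ r ∈ (Finset.Icc 1 X).filter (fun r => rough z r), Ph A a m ^ 2 / m *
        (U r ^ 2 * h (m * r) / r) := by
          refine HGN_split (F := fun m r : ℕ => Ph A a m ^ 2 / m *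
            (U r ^ 2 * h (m * r) / r)) fun m r => ?_
          have := (hh (m * r)).1
          positivity
      _ ≤ ∑ m ∈ (Finset.Icc 1 X).filter (fun m => smooth z m), Ph A a m ^ 2 / m * B := by
          refine Finset.sum_le_sum fun m hm => ?_
          rw [Finset.mem_filter, Finset.mem_Icc] at hm
          rw [← Finset.mul_sum]
          exact mul_le_mul_of_nonneg_left (hin m X hm.1.1) (by positivity)
      _ = B * ∑ m ∈ Finset.Icc 1 X, (if smooth z m then Ph A a m ^ 2 / m else 0) := by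
          rw [← Finset.sum_mul, Finset.sum_filter, mul_comm]
      _ ≤ B * cn z A a := by
          refine mul_le_mul_of_nonneg_left ?_ hB0
          unfold cn
          exact hsum.sum_le_tsum _ fun m _ => by split_ifs <;> positivity
  have hfin2 : ∀ X : ℕ, ∑ n ∈ Finset.range X, T n ≤ B * cn z A a := by
    intro X
    refine le_trans ?_ (hfin X)
    have e2 : ∑ n ∈ (Finset.range X).filter (fun n => 1 ≤ n), T n = ∑ n ∈ Finset.range X, T n := by
      refine Finset.sum_filter_of_ne fun n _ hn => ?_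
      rcases Nat.eq_zero_or_pos n with g | g
      · subst g; simp [hT] at hn
      · exact g
    rw [← e2]
    refine Finset.sum_le_sum_of_subset_of_nonneg ?_ fun n _ _ => hT0 n
    intro n hn
    rw [Finset.mem_filter, Finset.mem_range] at hn
    rw [Finset.mem_Icc]; omega
  exact ⟨summable_of_sum_range_le hT0 hfin2, Real.tsum_le_of_sum_range_le hT0 hfin2⟩

end Pool.Agent.LSP
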